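import Mathlib
import Pool.Agent.K9h4.Ns1

/-! # Points of subvarieties: definitions and statements of the jobs -/

set_option autoImplicit false

namespace Pool.Agent.K9h4.RH

open MvPolynomial Pool.Agent.TH314.PD Module FF IntermediateField Pool.Agent.Y201.C3
open Pool.Agent.R845.T2 Pool.Agent.R845.E3 Pool.Agent.N122

/-- all polar values of the cubic form at the vectors `v l` are zero: the span of the `v l` is
contained in the cubic -/
def Pz {N : ℕ} (T : Fin N → Fin N → Fin N → ℂ) {K ι : Type} [Field K] [Algebra ℂ K]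
    (v : ι → Fin N → K) : Prop :=
  ∀ i j k, Bg T (v i) (v j) (v k) = 0

/-- `v` is good: there is no generic point `p` of the projective space over an extension `E` of `K`
of odd degree over the field of its ratios, such that the difference of `p` and a vector of the
span of `v` over `E` lies on the cubic -/
def Gd {n : ℕ} (T : Fin (n + 2) → Fin (n + 2) → Fin (n + 2) → ℂ) (K : Type) [Field K] [Algebra ℂ K]
    {r : ℕ} (v : Fin r → Fin (n + 2) → K) : Prop :=
  ∀ (E : Type) [Field E] [Algebra ℂ E] (φ : K →ₐ[ℂ] E) (p : Fin (n + 2) → E), Gen p →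
    Odd (finrank (ratioField p) E) → ∀ a : Fin r → E,
      Bg T (fun i => p i - ∑ l, a l * φ (v l i)) (fun i => p i - ∑ l, a l * φ (v l i))
        (fun i => p i - ∑ l, a l * φ (v l i)) ≠ 0

/-- all independent `v 0, …, v (r - 1)` over fields of transcendence degree at most `ρ` whose span is
contained in the cubic are good -/
def NS {n : ℕ} (T : Fin (n + 2) → Fin (n + 2) → Fin (n + 2) → ℂ) (ρ r : ℕ) : Prop :=
  ∀ (K : Type) [Field K] [Algebra ℂ K], Algebra.trdeg ℂ K ≤ (ρ : Cardinal) →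
    ∀ v : Fin r → Fin (n + 2) → K, LinearIndependent K v → Pz T v → Gd T K v

/-- job TD: the residue field of `K` at a place which is not trivial on `K` -/
def S_TD : Prop :=
  ∀ (K L : Type) [Field K] [Field L] [Algebra ℂ K] [Algebra K L] [Algebra ℂ L]
    [IsScalarTower ℂ K L] (w : Place ℂ L) (ρ : ℕ),
    Algebra.trdeg ℂ K ≤ ((ρ + 1 : ℕ) : Cardinal) →
    (∃ k : K, k ≠ 0 ∧ w.ord (algebraMap K L k) ≠ 0) →
    Algebra.trdeg ℂ (NT.kap K w) ≤ (ρ : Cardinal)

/-- job RED0: a basis of a subspace over `K` which is adapted to a place -/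
def S_RED0 : Prop :=
  ∀ (N : ℕ) (K L : Type) [Field K] [Field L] [Algebra ℂ K] [Algebra K L] [Algebra ℂ L]
    [IsScalarTower ℂ K L] (w : Place ℂ L) (s : ℕ) (v : Fin s → Fin N → K),
    LinearIndependent K v →
    ∃ (u : Fin s → Fin N → K) (σ : Fin s → Fin N) (C C' : Fin s → Fin s → K),
      (∀ l i, w.Reg (algebraMap K L (u l i))) ∧
      (∀ l m, u l (σ m) = if l = m then 1 else 0) ∧
      (∀ l i, u l i = ∑ m, C l m * v m i) ∧ (∀ l i, v l i = ∑ m, C' l m * u m i)

/-- job RED: reduction of a subspace which is contained in the cubic -/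
def S_RED : Prop :=
  ∀ (N : ℕ) (T : Fin N → Fin N → Fin N → ℂ), SymG T →
  ∀ (K L : Type) [Field K] [Field L] [Algebra ℂ K] [Algebra K L] [Algebra ℂ L]
    [IsScalarTower ℂ K L] (w : Place ℂ L) (s : ℕ) (v : Fin s → Fin N → K),
    LinearIndependent K v → Pz T v → ∀ α : Fin s → L,
    (∀ i, w.Reg (∑ l, α l * algebraMap K L (v l i))) →
    ∃ (v' : Fin s → Fin N → NT.kap K w) (α' : Fin s → w.RF),
      LinearIndependent (NT.kap K w) v' ∧ Pz T v' ∧
      ∀ i, w.red (∑ l, α l * algebraMap K L (v l i)) = ∑ l, α' l * (v' l i : w.RF)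

/-- job RED3: reduction of a subspace on which the cubic is the cube of a linear form -/
def S_RED3 : Prop :=
  ∀ (N : ℕ) (T : Fin N → Fin N → Fin N → ℂ), SymG T →
  ∀ (K L : Type) [Field K] [Field L] [Algebra ℂ K] [Algebra K L] [Algebra ℂ L]
    [IsScalarTower ℂ K L] (w : Place ℂ L) (s : ℕ) (v : Fin (s + 1) → Fin N → K) (g : K),
    LinearIndependent K v →
    (∀ i j k, Bg T (v i) (v j) (v k) =
      if i = Fin.last s ∧ j = Fin.last s ∧ k = Fin.last s then g else 0) →
    ∀ α : Fin (s + 1) → L, (∀ i, w.Reg (∑ l, α l * algebraMap K L (v l i))) →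
    w.red (Bg T (fun i => ∑ l, α l * algebraMap K L (v l i))
      (fun i => ∑ l, α l * algebraMap K L (v l i))
      (fun i => ∑ l, α l * algebraMap K L (v l i))) = 0 →
    ∃ s' : ℕ, (s' = s ∨ s' = s + 1) ∧
      ∃ (v' : Fin s' → Fin N → NT.kap K w) (α' : Fin s' → w.RF),
        LinearIndependent (NT.kap K w) v' ∧ Pz T v' ∧
        ∀ i, w.red (∑ l, α l * algebraMap K L (v l i)) = ∑ l, α' l * (v' l i : w.RF)

/-- job LANG: systems of forms over fields of transcendence degree `ρ` -/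
def S_LANG : Prop :=
  ∀ (K : Type) [Field K] [Algebra ℂ K] (ρ : ℕ), Algebra.trdeg ℂ K ≤ (ρ : Cardinal) →
    ∀ (I Q : Type) [Fintype I] [Fintype Q] (e : Q → ℕ), (∀ q, 1 ≤ e q) →
    ∀ Ψ : Q → MvPolynomial I K, (∀ q, (Ψ q).IsHomogeneous (e q)) →
    ∑ q, e q ^ ρ < Fintype.card I → ∃ a : I → K, a ≠ 0 ∧ ∀ q, eval a (Ψ q) = 0

/-- job Q: a new vector -/
def S_Q : Prop :=
  ∀ (N : ℕ) (T : Fin N → Fin N → Fin N → ℂ), SymG T →
  ∀ (K : Type) [Field K] [Algebra ℂ K] (ρ : ℕ), Algebra.trdeg ℂ K ≤ (ρ : Cardinal) →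
    ∀ (ι : Type) [Fintype ι] (s : ι → Fin N → K),
    Fintype.card ι * (Fintype.card ι + 1) / 2 + Fintype.card ι + Fintype.card ι * 2 ^ ρ < N →
    ∃ q : Fin N → K, q ∉ Submodule.span K (Set.range s) ∧
      (∀ i j, Bg T (s i) (s j) q = 0) ∧ (∀ i, Bg T (s i) q q = 0)

/-- job BASE: subspaces defined over the complex numbers -/
def S_BASE : Prop :=
  ∀ (n : ℕ) (F : MvPolynomial (Fin (n + 2)) ℂ), F.IsHomogeneous 3 → Sm F →
  ∀ T : Fin (n + 2) → Fin (n + 2) → Fin (n + 2) → ℂ, SymG T → F = Bg T X X X →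
  ∀ (K : Type) [Field K] [Algebra ℂ K] (r : ℕ), r + r * (r + 1) / 2 ≤ n + 1 →
  ∀ p : Fin r → Fin (n + 2) → ℂ, Pz T p → Gd T K (fun l i => algebraMap ℂ K (p l i))

end Pool.Agent.K9h4.RH
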