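import Mathlib
import Pool.Agent.K9h4.RH.Stm

/-! # The count of zeros and poles modulo two -/

set_option autoImplicit false

namespace Pool.Agent.K9h4.RH

open MvPolynomial Pool.Agent.TH314.PD Module FF IntermediateField Pool.Agent.Y201.C3
open Pool.Agent.R845.T2 Pool.Agent.R845.E3 Pool.Agent.N122

noncomputable section

variable {n : ℕ}

/-- the line through `p` in the direction `c`, as a polynomial -/
def Yl {E : Type} [Field E] (p c : Fin (n + 2) → E) : Fin (n + 2) → Polynomial E := fun i =>
  Polynomial.C (p i) + Polynomial.X * Polynomial.C (c i)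

/-- the normalized generic point of the line -/
def Pl {E : Type} [Field E] (p c : Fin (n + 2) → E) : Fin (n + 2) → LF E := fun i =>
  algebraMap (Polynomial E) (LF E) (Yl p c i) / algebraMap (Polynomial E) (LF E) (Yl p c 0)

/-- **The skeleton of the argument.** -/
theorem skel {E : Type} [Field E] [Algebra ℂ E] (p₀ : Fin (n + 2) → E) (hgen₀ : Gen p₀)
    (hodd : Odd (finrank (ratioField p₀) E)) (c : Fin (n + 2) → E) (f : LF E)
    (hfpos : 0 < (wc (0 : E)).ord f) (hfodd : Odd ((wc (0 : E)).ord f))
    (hw : ∀ w : Place ℂ (LF E), w ≠ wc (0 : E) → (∀ i, w.Reg (Pl p₀ c i)) →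
      (Gen fun i => w.red (Pl p₀ c i)) →
      Odd (finrank (ratioField fun i => w.red (Pl p₀ c i)) w.RF) → Even (w.ord f)) : False := by
  classical
  have hfd : FiniteDimensional (ratioField p₀) E := FiniteDimensional.of_finrank_pos hodd.pos
  have hp0 : p₀ 0 ≠ 0 := gen_ne hgen₀ 0
  have hYe : ∀ i, (Yl p₀ c i).eval 0 = p₀ i := by
    intro i
    change Polynomial.eval 0 (Polynomial.C (p₀ i) +
      Polynomial.X * Polynomial.C (c i)) = _
    rw [Polynomial.eval_add, Polynomial.eval_mul, Polynomial.eval_C, Polynomial.eval_X, zero_mul,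
      add_zero]
  have hY0 : (Yl p₀ c 0).eval 0 ≠ 0 := by
    rw [hYe]
    exact hp0
  set q : LF E := algebraMap (Polynomial E) (LF E) (Yl p₀ c 0) with hq
  have hq0 : q ≠ 0 := by
    intro h
    have e1 : Yl p₀ c 0 = 0 := inj_LF (h.trans (map_zero _).symm)
    rw [e1, Polynomial.eval_zero] at hY0
    exact hY0 rfl
  set P : Fin (n + 2) → LF E := Pl p₀ c with hPdef
  have hPi : ∀ i, P i = algebraMap (Polynomial E) (LF E) (Yl p₀ c i) / q := fun i => rfl
  have hP0 : P 0 = 1 := div_self hq0
  have hf0 : f ≠ 0 := by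
    rintro rfl
    rw [Place.ord_zero] at hfpos
    exact lt_irrefl _ hfpos
  -- the place at the origin
  obtain ⟨hw0reg, hw0red⟩ := wc_line (Yl p₀ c) (0 : E) hY0
  have hind₀ : AlgebraicIndependent ℂ (fun j : Fin (n + 1) => (wc (0 : E)).red (P j.succ)) := by
    have e1 := ((gen_iff p₀).1 hgen₀).2
    have e2 := e1.map' (f := (evc (0 : E) : E →ₐ[ℂ] (wc (0 : E)).RF)) (evc_bij (0 : E)).1
    convert e2 using 1
    funext j
    change (wc (0 : E)).red (algebraMap (Polynomial E) (LF E) (Yl p₀ c j.succ) / q) = _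
    rw [hw0red, hYe, hYe]
    rfl
  have hw0reg' : ∀ j : Fin (n + 1), (wc (0 : E)).Reg (P j.succ) := fun j => hw0reg j.succ
  have hy : AlgebraicIndependent ℂ (fun j : Fin (n + 1) => P j.succ) :=
    indep_of_red (wc (0 : E)) _ hw0reg' hind₀
  have htrf : Transcendental (adjoin ℂ (Set.range fun j : Fin (n + 1) => P j.succ)) f :=
    transc_of_red (wc (0 : E)) _ hw0reg' hind₀ f hfpos.ne'
  have htrf' : Transcendental (adjoin ℂ (Set.range fun j : Fin (n + 1) => P j.succ)) f⁻¹ :=
    transc_of_red (wc (0 : E)) _ hw0reg' hind₀ f⁻¹ (by rw [Place.ord_inv]; omega)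
  -- finiteness
  have hadj : adjoin ℂ (insert f⁻¹ (Set.range fun j : Fin (n + 1) => P j.succ)) =
      adjoin ℂ (insert f (Set.range fun j : Fin (n + 1) => P j.succ)) := by
    apply le_antisymm
    · rw [adjoin_le_iff]
      rintro z (rfl | hz)
      · exact inv_mem (subset_adjoin _ _ (Set.mem_insert _ _))
      · exact subset_adjoin _ _ (Set.mem_insert_of_mem _ hz)
    · rw [adjoin_le_iff]
      rintro z (hz | hz)
      · have := inv_mem (subset_adjoin ℂ (insert f⁻¹ (Set.range fun j : Fin (n + 1) => P j.succ))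
          (Set.mem_insert _ _))
        rw [inv_inv] at this
        rw [hz]
        exact this
      · exact subset_adjoin _ _ (Set.mem_insert_of_mem _ hz)
  have hfin : FiniteDimensional (adjoin ℂ (insert f (Set.range fun j : Fin (n + 1) =>
      P j.succ))) (LF E) := by
    let z : Option (Fin (n + 1)) → LF E := fun o => o.elim f fun j => P j.succ
    have hz : AlgebraicIndependent ℂ z := by
      refine (hy.option_iff_transcendental f).2 ?_
      intro halg
      exact htrf (halg.tower_top_of_subalgebra_le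
        (IntermediateField.algebra_adjoin_le_adjoin ℂ _))
    have hzr : Set.range z = insert f (Set.range fun j : Fin (n + 1) => P j.succ) := by
      ext t
      constructor
      · rintro ⟨o, rfl⟩
        rcases o with _ | j
        · exact Set.mem_insert _ _
        · exact Set.mem_insert_of_mem _ ⟨j, rfl⟩
      · rintro (rfl | ⟨j, rfl⟩)
        · exact ⟨none, rfl⟩
        · exact ⟨some j, rfl⟩
    rw [← hzr]
    exact fd_line p₀ hgen₀ hfd z (by simp) hz
  have hfin' : FiniteDimensional (adjoin ℂ (insert f⁻¹ (Set.range fun j : Fin (n + 1) =>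
      P j.succ))) (LF E) := by
    rw [hadj]
    exact hfin
  obtain ⟨S, hS, hsum⟩ := dv (fun j : Fin (n + 1) => P j.succ) f htrf hy hfin
  obtain ⟨S', hS', hsum'⟩ := dv (fun j : Fin (n + 1) => P j.succ) f⁻¹ htrf' hy hfin'
  rw [hadj] at hsum'
  -- facts for all places
  have hPreg : ∀ w : Place ℂ (LF E), (∀ j : Fin (n + 1), w.Reg (P j.succ)) → ∀ i, w.Reg (P i) := by
    intro w hw i
    refine Fin.cases ?_ (fun j => hw j) i
    rw [hP0]
    exact w.reg_one
  have hPgen : ∀ w : Place ℂ (LF E),
      AlgebraicIndependent ℂ (fun j : Fin (n + 1) => w.red (P j.succ)) →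
      Gen fun i => w.red (P i) := by
    intro w hw
    rw [gen_iff]
    refine ⟨by rw [hP0, w.red_one]; exact one_ne_zero, ?_⟩
    convert hw using 1
    funext j
    rw [hP0, w.red_one, div_one]
  have hPfin : ∀ w : Place ℂ (LF E), finrank (ratioField fun i => w.red (P i)) w.RF =
      finrank (adjoin ℂ (Set.range fun j : Fin (n + 1) => w.red (P j.succ))) w.RF := by
    intro w
    rw [ratioField_eq _ (by rw [hP0, w.red_one]; exact one_ne_zero)]
    have e1 : (fun j : Fin (n + 1) => w.red (P j.succ) / w.red (P 0)) =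
        fun j => w.red (P j.succ) := by
      funext j
      rw [hP0, w.red_one, div_one]
    rw [e1]
  have key : ∀ w : Place ℂ (LF E), w ≠ wc (0 : E) → (∀ j : Fin (n + 1), w.Reg (P j.succ)) →
      AlgebraicIndependent ℂ (fun j : Fin (n + 1) => w.red (P j.succ)) →
      Even (w.ord f) ∨ Even (finrank (adjoin ℂ (Set.range fun j : Fin (n + 1) =>
        w.red (P j.succ))) w.RF) := by
    intro w hne hreg hind
    rw [← hPfin]
    by_cases he : Even (finrank (ratioField fun i => w.red (P i)) w.RF)
    · exact Or.inr he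
    · exact Or.inl (hw w hne (hPreg w hreg) (hPgen w hind) (Nat.not_even_iff_odd.1 he))
  -- poles
  have heven : Even (finrank (adjoin ℂ (insert f (Set.range fun j : Fin (n + 1) => P j.succ)))
      (LF E)) := by
    rw [← hsum']
    refine Finset.even_sum _ fun w hw => ?_
    obtain ⟨e1, e2, e3⟩ := (hS' w).1 hw
    have hne : w ≠ wc (0 : E) := by
      rintro rfl
      rw [Place.ord_inv] at e1
      omega
    rcases key w hne e2 e3 with e4 | e4
    · refine Even.mul_right ?_ _
      have e7 : ((w.ord f⁻¹).toNat : ℤ) = - w.ord f := by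
        rw [Int.toNat_of_nonneg e1.le, Place.ord_inv]
      have e8 : Even ((w.ord f⁻¹).toNat : ℤ) := by
        rw [e7]
        exact e4.neg
      exact_mod_cast e8
    · exact e4.mul_left _
  -- zeros
  have hwc : wc (0 : E) ∈ S := (hS _).2 ⟨hfpos, hw0reg', hind₀⟩
  have hodd' : Odd (finrank (adjoin ℂ (insert f (Set.range fun j : Fin (n + 1) => P j.succ)))
      (LF E)) := by
    rw [← hsum, ← Finset.add_sum_erase S _ hwc]
    refine Odd.add_even ?_ ?_
    · rw [← hPfin]
      have e1 := wc_line_rel (Yl p₀ c) (0 : E) hY0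
      have e2 : (fun i => Polynomial.eval 0 (Yl p₀ c i)) = p₀ := funext hYe
      rw [e2] at e1
      have e3 : finrank (ratioField fun i => (wc (0 : E)).red (P i)) (wc (0 : E)).RF =
          finrank (ratioField p₀) E := e1
      rw [e3]
      have e4 : Odd ((wc (0 : E)).ord f).toNat := by
        have e5 : ((((wc (0 : E)).ord f).toNat : ℕ) : ℤ) = (wc (0 : E)).ord f :=
          Int.toNat_of_nonneg hfpos.le
        rw [← e5] at hfodd
        exact_mod_cast hfodd
      exact e4.mul hodd
    · refine Finset.even_sum _ fun w hw => ?_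
      obtain ⟨hwne, hwS⟩ := Finset.mem_erase.1 hw
      obtain ⟨e1, e2, e3⟩ := (hS w).1 hwS
      rcases key w hwne e2 e3 with e4 | e4
      · refine Even.mul_right ?_ _
        have e7 : ((w.ord f).toNat : ℤ) = w.ord f := Int.toNat_of_nonneg e1.le
        have e8 : Even ((w.ord f).toNat : ℤ) := by
          rw [e7]
          exact e4
        exact_mod_cast e8
      · exact e4.mul_left _
  exact (Nat.not_even_iff_odd.2 hodd') heven

end

end Pool.Agent.K9h4.RH
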