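import Mathlib
import Pool.Agent.K9h4.RH.Sk

/-! # Places near the origin, and places which are trivial on `K` -/

set_option autoImplicit false

namespace Pool.Agent.K9h4.RH

open MvPolynomial Pool.Agent.TH314.PD Module FF IntermediateField Pool.Agent.Y201.C3
open Pool.Agent.R845.T2 Pool.Agent.R845.E3 Pool.Agent.N122

noncomputable section

variable {n : ℕ}

/-- the parameter of the line, normalized -/
def bl {E : Type} [Field E] (p c : Fin (n + 2) → E) : LF E :=
  algebraMap (Polynomial E) (LF E) Polynomial.X / algebraMap (Polynomial E) (LF E) (Yl p c 0)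

theorem EL {E : Type} [Field E] (e : E) : algebraMap E (LF E) e = algebraMap (Polynomial E) (LF E)
    (Polynomial.C e) := by
  rw [IsScalarTower.algebraMap_apply E (Polynomial E) (LF E)]
  rfl

theorem q_ne {E : Type} [Field E] [Algebra ℂ E] (p c : Fin (n + 2) → E) (hp : Gen p) :
    algebraMap (Polynomial E) (LF E) (Yl p c 0) ≠ 0 := by
  intro h
  have e1 : Yl p c 0 = 0 := inj_LF (h.trans (map_zero _).symm)
  have e2 : (Yl p c 0).eval 0 = p 0 := by
    change Polynomial.eval 0 (Polynomial.C (p 0) + Polynomial.X * Polynomial.C (c 0)) = _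
    rw [Polynomial.eval_add, Polynomial.eval_mul, Polynomial.eval_C, Polynomial.eval_X, zero_mul,
      add_zero]
  rw [e1, Polynomial.eval_zero] at e2
  exact gen_ne hp 0 e2.symm

theorem X_ne {E : Type} [Field E] [Algebra ℂ E] : algebraMap (Polynomial E) (LF E) Polynomial.X ≠ 0 := by
  rw [Ne, map_eq_zero_iff _ inj_LF]
  exact Polynomial.X_ne_zero

/-- the normalized generic point of the line as a sum -/
theorem Pl_eq {E : Type} [Field E] (p c : Fin (n + 2) → E) (i : Fin (n + 2)) :
    Pl p c i = algebraMap E (LF E) (p i) / algebraMap (Polynomial E) (LF E) (Yl p c 0) +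
      bl p c * algebraMap E (LF E) (c i) := by
  have h1 : Pl p c i = algebraMap (Polynomial E) (LF E) (Polynomial.C (p i) +
      Polynomial.X * Polynomial.C (c i)) / algebraMap (Polynomial E) (LF E) (Yl p c 0) := rfl
  rw [h1, map_add, map_mul, ← EL, ← EL, bl]
  ring

theorem trv {E : Type} [Field E] [Algebra ℂ E] (p₀ : Fin (n + 2) → E) (hgen₀ : Gen p₀)
    (hfd : FiniteDimensional (ratioField p₀) E) (c : Fin (n + 2) → E) (w : Place ℂ (LF E))
    (hP : ∀ i, w.Reg (Pl p₀ c i)) (hgen : Gen fun i => w.red (Pl p₀ c i))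
    (hc : ∀ i, w.Reg (algebraMap E (LF E) (c i))) (hβreg : w.Reg (bl p₀ c))
    (hβred : w.red (bl p₀ c) = 0) : w = wc (0 : E) := by
  classical
  set lam : LF E := algebraMap (Polynomial E) (LF E) Polynomial.X with hlam
  set q : LF E := algebraMap (Polynomial E) (LF E) (Yl p₀ c 0) with hqdef
  have hq : q ≠ 0 := q_ne p₀ c hgen₀
  have hlam0 : lam ≠ 0 := X_ne
  set β : LF E := bl p₀ c with hβ
  have hβ' : β = lam / q := rfl
  have hβ0 : β ≠ 0 := div_ne_zero hlam0 hq
  have hβord : 0 < w.ord β := by
    rcases (w.red_eq_zero_iff hβreg).1 hβred with h | h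
    · exact absurd h hβ0
    · exact h
  -- the coordinates of the point
  set Q : Fin (n + 2) → LF E := fun i => algebraMap E (LF E) (p₀ i) / q with hQ
  have hP0 : Pl p₀ c 0 = 1 := div_self hq
  have hQP : ∀ i, Q i = Pl p₀ c i - β * algebraMap E (LF E) (c i) := by
    intro i
    rw [Pl_eq]
    ring
  have hQreg : ∀ i, w.Reg (Q i) := by
    intro i
    rw [hQP, sub_eq_add_neg]
    exact w.reg_add (hP i) (w.reg_neg (w.reg_mul hβreg (hc _)))
  have hQred : ∀ i, w.red (Q i) = w.red (Pl p₀ c i) := by
    intro i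
    rw [hQP, w.red_sub (hP i) (w.reg_mul hβreg (hc _)), w.red_mul hβreg (hc _), hβred,
      zero_mul, sub_zero]
  have hQ0 : w.red (Q 0) = 1 := by rw [hQred, hP0, w.red_one]
  have hQ0' : w.red (Q 0) ≠ 0 := by rw [hQ0]; exact one_ne_zero
  obtain ⟨hinv, hinvr⟩ := NT.reg_inv w hQ0' (hQreg 0)
  have hp0 : p₀ 0 ≠ 0 := gen_ne hgen₀ 0
  have hp0' : algebraMap E (LF E) (p₀ 0) ≠ 0 := (map_ne_zero _).2 hp0
  have hrat : ∀ i, algebraMap E (LF E) (p₀ i / p₀ 0) = Q i * (Q 0)⁻¹ := by
    intro i
    rw [map_div₀, hQ]
    field_simp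
  have hratreg : ∀ i, w.Reg (algebraMap E (LF E) (p₀ i / p₀ 0)) := by
    intro i
    rw [hrat]
    exact w.reg_mul (hQreg i) hinv
  have hratred : ∀ i, w.red (algebraMap E (LF E) (p₀ i / p₀ 0)) = w.red (Pl p₀ c i) := by
    intro i
    rw [hrat, w.red_mul (hQreg i) hinv, hinvr, hQ0, inv_one, mul_one, hQred]
  -- the place is trivial on `E`
  have hind := ((gen_iff _).1 hgen).2
  have htriv : ∀ e : E, e ≠ 0 → w.ord (algebraMap E (LF E) e) = 0 := by
    intro e he
    refine NT.trivial_of_indep w (fun j : Fin (n + 1) => w.red (Pl p₀ c j.succ)) ?_ ?_ ?_ e he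
    · convert hind using 1
      funext j
      rw [hP0, w.red_one, div_one]
    · intro j
      have h5 : w.red (Pl p₀ c j.succ) ∈ NT.kap E w := ⟨_, hratreg j.succ, hratred j.succ⟩
      exact isAlgebraic_algebraMap (⟨_, h5⟩ : NT.kap E w)
    · have h6 := trdeg_le_gen p₀ hgen₀
      simpa using h6
  have hqord : w.ord q = 0 := by
    have h5 : w.ord (Q 0) = 0 := by
      have h6 : ¬ (Q 0 = 0 ∨ 0 < w.ord (Q 0)) := fun h => hQ0' ((w.red_eq_zero_iff (hQreg 0)).2 h)
      push Not at h6
      have h7 := (w.reg_iff h6.1).1 (hQreg 0)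
      omega
    rw [hQ] at h5
    simp only at h5
    rw [w.ord_div hp0' hq, htriv _ hp0] at h5
    omega
  have hlamord : 0 < w.ord lam := by
    rw [hβ', w.ord_div hlam0 hq, hqord] at hβord
    omega
  refine eq_wc 0 w (fun e he => htriv e he) ?_
  rw [Polynomial.C_0, sub_zero]
  exact hlamord

section triv

variable {K L : Type} [Field K] [Field L] [Algebra ℂ K] [Algebra K L] [Algebra ℂ L]
  [IsScalarTower ℂ K L] (w : Place ℂ L)

/-- the residue map on a field on which the place is trivial -/
def psi (hw : ∀ k : K, w.Reg (algebraMap K L k)) : K →ₐ[ℂ] w.RF :=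
  { toFun := fun k => w.red (algebraMap K L k)
    map_one' := by rw [map_one, w.red_one]
    map_mul' := fun a b => by rw [map_mul, w.red_mul (hw a) (hw b)]
    map_zero' := by rw [map_zero, w.red_zero]
    map_add' := fun a b => by rw [map_add, w.red_add (hw a) (hw b)]
    commutes' := fun r => by
      rw [← IsScalarTower.algebraMap_apply ℂ K L]
      rfl }

theorem psi_apply (hw : ∀ k : K, w.Reg (algebraMap K L k)) (k : K) :
    psi w hw k = w.red (algebraMap K L k) := rfl

/-- a trivial place: the coefficients of a regular combination of independent vectors are regular -/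
theorem reg_coef (hw : ∀ k : K, w.Reg (algebraMap K L k)) {N s : ℕ} (v : Fin s → Fin N → K)
    (hv : LinearIndependent K v) (α : Fin s → L)
    (hreg : ∀ i, w.Reg (∑ l, α l * algebraMap K L (v l i))) (l : Fin s) : w.Reg (α l) := by
  classical
  obtain ⟨g, hg⟩ := LinearMap.exists_leftInverse_of_injective (Fintype.linearCombination K v)
    (LinearMap.ker_eq_bot.2 hv.fintypeLinearCombination_injective)
  let G : Fin s → Fin N → K := fun l i => g (Pi.single i 1) l
  have hG : ∀ l j, ∑ i, G l i * v j i = if l = j then 1 else 0 := by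
    intro l j
    have h2 : g (v j) = Pi.single j 1 := by
      have h3 := LinearMap.congr_fun hg (Pi.single j 1)
      rw [LinearMap.comp_apply, Fintype.linearCombination_apply_single, one_smul,
        LinearMap.id_apply] at h3
      exact h3
    have h4 : g (v j) = ∑ i, v j i • g (Pi.single i 1) := by
      conv_lhs => rw [← Finset.univ_sum_single (v j)]
      rw [map_sum]
      refine Finset.sum_congr rfl fun i _ => ?_
      rw [← map_smul]
      congr 1
      rw [← Pi.single_smul]
      simp
    have h5 := congrFun (h4.symm.trans h2) l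
    rw [Finset.sum_apply] at h5
    rw [Pi.single_apply] at h5
    rw [← h5]
    refine Finset.sum_congr rfl fun i _ => ?_
    rw [Pi.smul_apply, smul_eq_mul, mul_comm]
  have h1 : α l = ∑ i, algebraMap K L (G l i) * ∑ j, α j * algebraMap K L (v j i) := by
    have h2 : ∀ i, algebraMap K L (G l i) * ∑ j, α j * algebraMap K L (v j i) =
        ∑ j, α j * algebraMap K L (G l i * v j i) := by
      intro i
      rw [Finset.mul_sum]
      refine Finset.sum_congr rfl fun j _ => ?_
      rw [map_mul]
      ring
    rw [Finset.sum_congr rfl fun i _ => h2 i, Finset.sum_comm]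
    have h3 : ∀ j, ∑ i, α j * algebraMap K L (G l i * v j i) =
        α j * algebraMap K L (if l = j then 1 else 0) := by
      intro j
      rw [← Finset.mul_sum, ← map_sum, hG]
    rw [Finset.sum_congr rfl fun j _ => h3 j, Finset.sum_eq_single l]
    · rw [if_pos rfl, map_one, mul_one]
    · intro j _ hj
      rw [if_neg (Ne.symm hj), map_zero, mul_zero]
    · intro h
      exact absurd (Finset.mem_univ _) h
  rw [h1]
  have h2 : ∀ S : Finset (Fin N), w.Reg (∑ i ∈ S, algebraMap K L (G l i) *
      ∑ j, α j * algebraMap K L (v j i)) := by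
    intro S
    induction S using Finset.induction_on with
    | empty => rw [Finset.sum_empty]; exact w.reg_zero
    | insert a S ha ih =>
      rw [Finset.sum_insert ha]
      exact w.reg_add (w.reg_mul (hw _) (hreg _)) ih
  exact h2 _

end triv

end

end Pool.Agent.K9h4.RH
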