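import Mathlib
import Pool.Agent.K9h4.RH.Trv

/-! # The exchange lemma -/

set_option autoImplicit false

namespace Pool.Agent.K9h4.RH

open MvPolynomial Pool.Agent.TH314.PD Module FF IntermediateField Pool.Agent.Y201.C3
open Pool.Agent.R845.T2 Pool.Agent.R845.E3 Pool.Agent.N122

noncomputable section

/-- the trilinear form at linear combinations -/
theorem Bg_comb {N : ℕ} {T : Fin N → Fin N → Fin N → ℂ} (hT : SymG T) {R : Type} [CommRing R]
    [Algebra ℂ R] {s : ℕ} (u : Fin s → Fin N → R) (α β γ : Fin s → R) :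
    Bg T (fun i => ∑ l, α l * u l i) (fun i => ∑ l, β l * u l i) (fun i => ∑ l, γ l * u l i) =
      ∑ k, ∑ j, ∑ i, γ k * (β j * (α i * Bg T (u i) (u j) (u k))) := by
  rw [Bg_sum3 hT]
  refine Finset.sum_congr rfl fun k _ => ?_
  rw [Bg_smul3, Bg_sum2 hT, Finset.mul_sum]
  refine Finset.sum_congr rfl fun j _ => ?_
  rw [Bg_smul2, Bg_sum1, Finset.mul_sum, Finset.mul_sum]
  refine Finset.sum_congr rfl fun i _ => ?_
  rw [Bg_smul1]

theorem Bg_comb_zero {N : ℕ} {T : Fin N → Fin N → Fin N → ℂ} (hT : SymG T) {R : Type} [CommRing R]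
    [Algebra ℂ R] {s : ℕ} (u : Fin s → Fin N → R)
    (hu : ∀ i j k, Bg T (u i) (u j) (u k) = 0) (α β γ : Fin s → R) :
    Bg T (fun i => ∑ l, α l * u l i) (fun i => ∑ l, β l * u l i) (fun i => ∑ l, γ l * u l i) =
      0 := by
  rw [Bg_comb hT]
  refine Finset.sum_eq_zero fun k _ => Finset.sum_eq_zero fun j _ => Finset.sum_eq_zero fun i _ => ?_
  rw [hu]
  ring

theorem Bg_comb_last {N : ℕ} {T : Fin N → Fin N → Fin N → ℂ} (hT : SymG T) {R : Type} [CommRing R]
    [Algebra ℂ R] {s : ℕ} (u : Fin (s + 1) → Fin N → R) (g : R)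
    (hu : ∀ i j k, Bg T (u i) (u j) (u k) =
      if i = Fin.last s ∧ j = Fin.last s ∧ k = Fin.last s then g else 0) (α : Fin (s + 1) → R) :
    Bg T (fun i => ∑ l, α l * u l i) (fun i => ∑ l, α l * u l i) (fun i => ∑ l, α l * u l i) =
      α (Fin.last s) ^ 3 * g := by
  rw [Bg_comb hT, Finset.sum_eq_single (Fin.last s), Finset.sum_eq_single (Fin.last s),
    Finset.sum_eq_single (Fin.last s)]
  · rw [hu, if_pos ⟨rfl, rfl, rfl⟩]
    ring
  · intro i _ hi
    rw [hu, if_neg (fun h => hi h.1)]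
    ring
  · intro h
    exact absurd (Finset.mem_univ _) h
  · intro j _ hj
    refine Finset.sum_eq_zero fun i _ => ?_
    rw [hu, if_neg (fun h => hj h.2.1)]
    ring
  · intro h
    exact absurd (Finset.mem_univ _) h
  · intro k _ hk
    refine Finset.sum_eq_zero fun j _ => Finset.sum_eq_zero fun i _ => ?_
    rw [hu, if_neg (fun h => hk h.2.2)]
    ring
  · intro h
    exact absurd (Finset.mem_univ _) h

variable {n : ℕ} {F : MvPolynomial (Fin (n + 2)) ℂ}

section conf

variable {K E : Type} [Field K] [Field E] [Algebra ℂ K] [Algebra K E] [Algebra ℂ E]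
  [IsScalarTower ℂ K E]

/-- the direction of the line -/
def cl {r : ℕ} (E : Type) [Field E] [Algebra K E] (v : Fin (r + 2) → Fin (n + 2) → K) :
    Fin (n + 2) → E := fun i => algebraMap K E (v (Fin.last (r + 1)) i)

/-- the coefficients of the moving vector -/
def al {r : ℕ} (p : Fin (n + 2) → E) (v : Fin (r + 2) → Fin (n + 2) → K) (a : Fin (r + 1) → E) :
    Fin (r + 2) → LF E :=
  Fin.snoc (α := fun _ => LF E) (fun l => algebraMap E (LF E) (a l) /
    algebraMap (Polynomial E) (LF E) (Yl p (cl E v) 0)) (bl p (cl E v))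

/-- the moving vector -/
def Wl {r : ℕ} (p : Fin (n + 2) → E) (v : Fin (r + 2) → Fin (n + 2) → K) (a : Fin (r + 1) → E) :
    Fin (n + 2) → LF E := fun i => ∑ l, al p v a l * algebraMap K (LF E) (v l i)

theorem PW {r : ℕ} (p : Fin (n + 2) → E) (v : Fin (r + 2) → Fin (n + 2) → K) (a : Fin (r + 1) → E)
    (i : Fin (n + 2)) : Pl p (cl E v) i - Wl p v a i =
      (algebraMap (Polynomial E) (LF E) (Yl p (cl E v) 0))⁻¹ *
        algebraMap E (LF E) (p i - ∑ l : Fin (r + 1), a l * algebraMap K E (v l.castSucc i)) := by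
  have h1 : ∀ l : Fin (r + 1), al p v a l.castSucc = algebraMap E (LF E) (a l) /
    algebraMap (Polynomial E) (LF E) (Yl p (cl E v) 0) := fun l => by
    unfold al
    rw [Fin.snoc_castSucc]
  have h2 : al p v a (Fin.last (r + 1)) = bl p (cl E v) := by
    unfold al
    rw [Fin.snoc_last]
  rw [Pl_eq]
  unfold Wl
  rw [Fin.sum_univ_castSucc, h2]
  simp only [h1]
  rw [map_sub, map_sum]
  have h3 : algebraMap E (LF E) (cl E v i) = algebraMap K (LF E) (v (Fin.last (r + 1)) i) := by
    unfold cl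
    rw [← IsScalarTower.algebraMap_apply K E (LF E)]
  have h4 : ∀ l : Fin (r + 1), algebraMap E (LF E) (a l * algebraMap K E (v l.castSucc i)) =
      algebraMap E (LF E) (a l) * algebraMap K (LF E) (v l.castSucc i) := fun l => by
    rw [map_mul, ← IsScalarTower.algebraMap_apply K E (LF E)]
  rw [h3, Finset.sum_congr rfl fun l _ => h4 l]
  have h5 : ∑ x : Fin (r + 1), algebraMap E (LF E) (a x) /
      algebraMap (Polynomial E) (LF E) (Yl p (cl E v) 0) * algebraMap K (LF E) (v x.castSucc i) =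
      (algebraMap (Polynomial E) (LF E) (Yl p (cl E v) 0))⁻¹ *
        ∑ x : Fin (r + 1), algebraMap E (LF E) (a x) * algebraMap K (LF E) (v x.castSucc i) := by
    rw [Finset.mul_sum]
    refine Finset.sum_congr rfl fun x _ => ?_
    rw [div_eq_mul_inv]
    ring
  rw [h5, div_eq_mul_inv]
  ring

theorem PWzero {T : Fin (n + 2) → Fin (n + 2) → Fin (n + 2) → ℂ} {r : ℕ} (p : Fin (n + 2) → E)
    (v : Fin (r + 2) → Fin (n + 2) → K) (a : Fin (r + 1) → E)
    (hX : Bg T (fun i => p i - ∑ l, a l * algebraMap K E (v l.castSucc i))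
      (fun i => p i - ∑ l, a l * algebraMap K E (v l.castSucc i))
      (fun i => p i - ∑ l, a l * algebraMap K E (v l.castSucc i)) = 0) :
    Bg T (fun i => Pl p (cl E v) i - Wl p v a i) (fun i => Pl p (cl E v) i - Wl p v a i)
      (fun i => Pl p (cl E v) i - Wl p v a i) = 0 := by
  have e1 : (fun i => Pl p (cl E v) i - Wl p v a i) = fun i =>
      (algebraMap (Polynomial E) (LF E) (Yl p (cl E v) 0))⁻¹ *
        algebraMap E (LF E) (p i - ∑ l : Fin (r + 1), a l * algebraMap K E (v l.castSucc i)) :=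
    funext (PW p v a)
  rw [e1, Bg_smul1, Bg_smul2, Bg_smul3]
  have e2 := map_Bg (IsScalarTower.toAlgHom ℂ E (LF E)) T
    (fun i => p i - ∑ l, a l * algebraMap K E (v l.castSucc i))
    (fun i => p i - ∑ l, a l * algebraMap K E (v l.castSucc i))
    (fun i => p i - ∑ l, a l * algebraMap K E (v l.castSucc i))
  rw [hX, map_zero] at e2
  have e3 : Bg T (fun i => algebraMap E (LF E) (p i - ∑ l, a l * algebraMap K E (v l.castSucc i)))
    (fun i => algebraMap E (LF E) (p i - ∑ l, a l * algebraMap K E (v l.castSucc i)))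
    (fun i => algebraMap E (LF E) (p i - ∑ l, a l * algebraMap K E (v l.castSucc i))) = 0 :=
    e2.symm
  rw [e3, mul_zero, mul_zero, mul_zero]

theorem Bg_alg (T : Fin (n + 2) → Fin (n + 2) → Fin (n + 2) → ℂ) (u v x : Fin (n + 2) → K) :
    Bg T (fun i => algebraMap K (LF E) (u i)) (fun i => algebraMap K (LF E) (v i))
      (fun i => algebraMap K (LF E) (x i)) = algebraMap K (LF E) (Bg T u v x) :=
  (map_Bg (IsScalarTower.toAlgHom ℂ K (LF E)) T u v x).symm

/-- at a place of odd degree with a regular moving vector, which is not trivial on `K` -/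
theorem nontriv {T : Fin (n + 2) → Fin (n + 2) → Fin (n + 2) → ℂ} {L : Type} [Field L]
    [Algebra K L] [Algebra ℂ L] [IsScalarTower ℂ K L] (w : Place ℂ L) (P W : Fin (n + 2) → L)
    (hP : ∀ i, w.Reg (P i)) (hgen : Gen fun i => w.red (P i))
    (hodd : Odd (finrank (ratioField fun i => w.red (P i)) w.RF)) (hW : ∀ i, w.Reg (W i))
    (hPW : Bg T (fun i => P i - W i) (fun i => P i - W i) (fun i => P i - W i) = 0)
    {s : ℕ} (v' : Fin s → Fin (n + 2) → NT.kap K w) (hGd : Gd T (NT.kap K w) v')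
    (α' : Fin s → w.RF) (h : ∀ i, w.red (W i) = ∑ l, α' l * (v' l i : w.RF)) : False := by
  refine hGd w.RF (NT.kap K w).val (fun i => w.red (P i)) hgen hodd α' ?_
  have hPWreg : ∀ i, w.Reg (P i - W i) := by
    intro i
    rw [sub_eq_add_neg]
    exact w.reg_add (hP i) (w.reg_neg (hW i))
  have h5 := (red_Bg w T _ _ _ hPWreg hPWreg hPWreg).2
  rw [hPW, w.red_zero] at h5
  have h6 : (fun i => w.red (P i) - ∑ l, α' l * (NT.kap K w).val (v' l i)) =
      fun i => w.red (P i - W i) := by
    funext i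
    rw [w.red_sub (hP i) (hW i), h i]
    rfl
  rw [h6]
  exact h5.symm

end conf

/-- **The exchange lemma.** -/
theorem xch (hTD : S_TD) (hRED : S_RED) (hF : F.IsHomogeneous 3) (hsm : Sm F)
    {T : Fin (n + 2) → Fin (n + 2) → Fin (n + 2) → ℂ} (hT : SymG T) (hFT : F = Bg T X X X)
    {K E : Type} [Field K] [Field E] [Algebra ℂ K] [Algebra K E] [Algebra ℂ E]
    [IsScalarTower ℂ K E] (ρ r : ℕ) (htr : Algebra.trdeg ℂ K ≤ ((ρ + 1 : ℕ) : Cardinal))
    (hNS : NS T ρ (r + 2)) (v : Fin (r + 2) → Fin (n + 2) → K) (hv : LinearIndependent K v)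
    (hPz : Pz T v) (hGd : Gd T K (fun l : Fin (r + 1) => v l.succ))
    (p₀ : Fin (n + 2) → E) (hgen₀ : Gen p₀) (hodd : Odd (finrank (ratioField p₀) E))
    (a : Fin (r + 1) → E) (ha0 : a 0 ≠ 0)
    (hX : Bg T (fun i => p₀ i - ∑ l, a l * algebraMap K E (v l.castSucc i))
      (fun i => p₀ i - ∑ l, a l * algebraMap K E (v l.castSucc i))
      (fun i => p₀ i - ∑ l, a l * algebraMap K E (v l.castSucc i)) = 0) : False := by
  classical
  have hfd : FiniteDimensional (ratioField p₀) E := FiniteDimensional.of_finrank_pos hodd.pos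
  set c : Fin (n + 2) → E := cl E v with hc
  set W := Wl p₀ v a with hW
  set q : LF E := algebraMap (Polynomial E) (LF E) (Yl p₀ c 0) with hq
  have hq0 : q ≠ 0 := q_ne p₀ c hgen₀
  have hX0 : algebraMap (Polynomial E) (LF E) Polynomial.X ≠ 0 := X_ne
  have ha0' : algebraMap E (LF E) (a 0) ≠ 0 := (map_ne_zero _).2 ha0
  have hWW : Bg T W W W = 0 := by
    refine Bg_comb_zero hT (fun l i => algebraMap K (LF E) (v l i)) ?_ _ _ _
    intro i j k
    rw [Bg_alg, hPz, map_zero]
  have hXX := PWzero (T := T) p₀ v a hX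
  have hPWW : (fun i => Pl p₀ c i - (Pl p₀ c i - W i)) = W := by
    funext i
    ring
  -- the function
  set f : LF E := algebraMap (Polynomial E) (LF E) Polynomial.X / algebraMap E (LF E) (a 0)
    with hf
  have hf0 : f ≠ 0 := div_ne_zero hX0 ha0'
  have hord : (wc (0 : E)).ord f = 1 := by
    have e1 : (wc (0 : E)).ord (algebraMap (Polynomial E) (LF E) Polynomial.X) = 1 := by
      have := wc_ord_X (0 : E)
      rwa [Polynomial.C_0, sub_zero] at this
    have e2 : (wc (0 : E)).ord (algebraMap E (LF E) (a 0)) = 0 := by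
      rw [EL]
      refine wc_ord_of_eval ?_
      rw [Polynomial.eval_C]
      exact ha0
    rw [hf, Place.ord_div _ hX0 ha0', e1, e2, sub_zero]
  have hα0 : al p₀ v a 0 = algebraMap E (LF E) (a 0) / q := by
    have e1 : (0 : Fin (r + 2)) = (0 : Fin (r + 1)).castSucc := rfl
    unfold al
    rw [e1, Fin.snoc_castSucc]
  have hαl : al p₀ v a (Fin.last (r + 1)) = bl p₀ c := by
    unfold al
    rw [Fin.snoc_last]
  have hfβ : f = bl p₀ c / al p₀ v a 0 := by
    rw [hα0, hf, bl, ← hq]
    field_simp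
  have hβ0 : bl p₀ c ≠ 0 := div_ne_zero hX0 hq0
  have hα00 : al p₀ v a 0 ≠ 0 := by
    rw [hα0]
    exact div_ne_zero ha0' hq0
  refine skel p₀ hgen₀ hodd c f (by rw [hord]; norm_num) (by rw [hord]; exact odd_one) ?_
  intro w hne hPreg hPgen hPodd
  -- regularity
  have hreg1 : ∀ i, w.Reg (Pl p₀ c i - W i) := by
    by_contra hcon
    push Not at hcon
    rcases pole_alt hF hsm hT hFT w (Pl p₀ c) (fun i => Pl p₀ c i - W i) hPreg hPgen hXX hcon
      with e5 | ⟨e5, e6⟩
    · exact (Nat.not_even_iff_odd.2 hPodd) e5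
    · rw [hPWW, hWW, w.ord_zero] at e6
      exact lt_irrefl _ e6
  have hWreg : ∀ i, w.Reg (W i) := by
    intro i
    have e8 : W i = Pl p₀ c i - (Pl p₀ c i - W i) := by ring
    rw [e8, sub_eq_add_neg]
    exact w.reg_add (hPreg i) (w.reg_neg (hreg1 i))
  by_cases htrv : ∃ k : K, k ≠ 0 ∧ w.ord (algebraMap K (LF E) k) ≠ 0
  · -- not trivial on `K`
    exfalso
    obtain ⟨v', α', hv', hPz', hred⟩ := hRED (n + 2) T hT K (LF E) w (r + 2) v hv hPz
      (al p₀ v a) hWreg
    exact nontriv (K := K) w (Pl p₀ c) W hPreg hPgen hPodd hWreg hXX v'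
      (hNS (NT.kap K w) (hTD K (LF E) w ρ htr htrv) v' hv' hPz') α' hred
  · push Not at htrv
    have hKreg : ∀ k : K, w.Reg (algebraMap K (LF E) k) := by
      intro k
      by_cases hk : k = 0
      · rw [hk, map_zero]
        exact w.reg_zero
      · exact Or.inr (htrv k hk).ge
    have hαreg : ∀ l, w.Reg (al p₀ v a l) := fun l => reg_coef w hKreg v hv _ hWreg l
    have hβreg : w.Reg (bl p₀ c) := by
      rw [← hαl]
      exact hαreg _
    have o1 := (w.reg_iff hβ0).1 hβreg
    have o2 := (w.reg_iff hα00).1 (hαreg 0)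
    have o3 : w.ord f = w.ord (bl p₀ c) - w.ord (al p₀ v a 0) := by
      rw [hfβ, w.ord_div hβ0 hα00]
    rcases lt_trichotomy (w.ord f) 0 with hlt | heq | hgt
    · -- a pole
      exfalso
      have hα0red : w.red (al p₀ v a 0) = 0 :=
        (w.red_eq_zero_iff (hαreg 0)).2 (Or.inr (by omega))
      refine hGd w.RF (psi w hKreg) (fun i => w.red (Pl p₀ c i)) hPgen hPodd
        (fun l => w.red (al p₀ v a l.succ)) ?_
      have h5 := (red_Bg w T _ _ _ hreg1 hreg1 hreg1).2
      rw [hXX, w.red_zero] at h5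
      have hredW : ∀ i, w.red (W i) = ∑ l : Fin (r + 1), w.red (al p₀ v a l.succ) *
          psi w hKreg (v l.succ i) := by
        intro i
        have e1 : ∀ S : Finset (Fin (r + 2)), w.Reg (∑ l ∈ S, al p₀ v a l *
            algebraMap K (LF E) (v l i)) ∧ w.red (∑ l ∈ S, al p₀ v a l *
            algebraMap K (LF E) (v l i)) = ∑ l ∈ S, w.red (al p₀ v a l) *
            psi w hKreg (v l i) := by
          intro S
          induction S using Finset.induction_on with
          | empty =>
            rw [Finset.sum_empty, Finset.sum_empty]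
            exact ⟨w.reg_zero, w.red_zero⟩
          | insert b S hb ih =>
            rw [Finset.sum_insert hb, Finset.sum_insert hb]
            refine ⟨w.reg_add (w.reg_mul (hαreg _) (hKreg _)) ih.1, ?_⟩
            rw [w.red_add (w.reg_mul (hαreg _) (hKreg _)) ih.1, ih.2,
              w.red_mul (hαreg _) (hKreg _)]
            rfl
        have e2 := (e1 Finset.univ).2
        rw [Fin.sum_univ_succ (f := fun l => w.red (al p₀ v a l) * psi w hKreg (v l i)),
          hα0red, zero_mul, zero_add] at e2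
        exact e2
      have h6 : (fun i => w.red (Pl p₀ c i) - ∑ l : Fin (r + 1), w.red (al p₀ v a l.succ) *
          psi w hKreg (v l.succ i)) = fun i => w.red (Pl p₀ c i - W i) := by
        funext i
        rw [w.red_sub (hPreg i) (hWreg i), hredW i]
      rw [h6]
      exact h5.symm
    · rw [heq]
      exact Even.zero
    · -- a zero
      exfalso
      apply hne
      refine trv p₀ hgen₀ hfd c w hPreg hPgen (fun i => ?_) hβreg
        ((w.red_eq_zero_iff hβreg).2 (Or.inr (by omega)))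
      rw [hc]
      unfold cl
      rw [← IsScalarTower.algebraMap_apply K E (LF E)]
      exact hKreg _

end

end Pool.Agent.K9h4.RH
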