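import Mathlib
import Pool.Agent.K9h4.RH.Xch

/-! # Subspaces of the cubic which are defined over the complex numbers -/

set_option autoImplicit false

namespace Pool.Agent.K9h4.RH

open MvPolynomial Pool.Agent.TH314.PD Module FF IntermediateField Pool.Agent.Y201.C3
open Pool.Agent.R845.T2 Pool.Agent.R845.E3 Pool.Agent.N122

variable {n : ℕ} {F : MvPolynomial (Fin (n + 2)) ℂ}

theorem base (hsm : Sm F) {T : Fin (n + 2) → Fin (n + 2) → Fin (n + 2) → ℂ} (hT : SymG T)
    (hFT : F = Bg T X X X) {K : Type} [Field K] [Algebra ℂ K] {r : ℕ}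
    (hr : r + r * (r + 1) / 2 ≤ n + 1) (p : Fin r → Fin (n + 2) → ℂ) (hp : Pz T p) :
    Gd T K (fun l i => algebraMap ℂ K (p l i)) := by
  intro E _ _ φ x hgen hodd a hX
  set z : Fin (n + 2) → E := fun i => ∑ l, a l * algebraMap ℂ E (p l i) with hz
  have hsize := size_span p a
  obtain ⟨z0, ψ, b, b0, hψ, hc0, e1, e2, e3⟩ := exists_pt hT z (by
    rw [hz]
    omega)
  have hzzz : Bg T z z z = 0 := by
    rw [hz]
    refine Bg_comb_zero hT (fun l i => algebraMap ℂ E (p l i)) (fun i j k => ?_) a a a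
    have h1 := map_Bg (Algebra.ofId ℂ E) T (p i) (p j) (p k)
    rw [hp, map_zero] at h1
    exact h1.symm
  refine odd1 hsm hT hFT x hgen hodd z0 ψ b b0 hψ z hc0 hzzz e1 e2 e3 (-1) ?_
  have h6 : (fun i => x i + -1 * z i) =
      fun i => x i - ∑ l, a l * φ (algebraMap ℂ K (p l i)) := by
    funext i
    simp only [hz, AlgHom.commutes]
    ring
  rw [h6]
  conv_lhs => rw [hFT]
  rw [aeval_frmG]
  exact hX

theorem s_base : S_BASE := by
  intro n F _ hsm T hT hFT K _ _ r hr p hp
  exact base hsm hT hFT hr p hp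

theorem mem_range_of_trdeg {K : Type} [Field K] [Algebra ℂ K] (h : Algebra.trdeg ℂ K ≤ 0) (z : K) :
    ∃ u : ℂ, algebraMap ℂ K u = z := by
  have h0 : Algebra.trdeg ℂ K = 0 := le_antisymm h zero_le
  have halg : Algebra.IsAlgebraic ℂ K := trdeg_eq_zero_iff.1 h0
  have h1 := minpoly.irreducible (halg.isAlgebraic z).isIntegral
  have h2 := IsAlgClosed.degree_eq_one_of_irreducible ℂ h1
  exact minpoly.mem_range_of_degree_eq_one ℂ z h2

/-- points over the complex numbers -/
theorem ns_zero (hsm : Sm F) {T : Fin (n + 2) → Fin (n + 2) → Fin (n + 2) → ℂ} (hT : SymG T)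
    (hFT : F = Bg T X X X) {r : ℕ} (hr : r + r * (r + 1) / 2 ≤ n + 1) : NS T 0 r := by
  intro K _ _ htr v _ hPz
  have h1 : Algebra.trdeg ℂ K ≤ 0 := by
    simpa using htr
  choose p hp using fun l i => mem_range_of_trdeg h1 (v l i)
  have hv : v = fun l i => algebraMap ℂ K (p l i) := by
    funext l i
    exact (hp l i).symm
  rw [hv]
  refine base hsm hT hFT hr p fun i j k => ?_
  have h2 := hPz i j k
  rw [hv] at h2
  have h3 := map_Bg (Algebra.ofId ℂ K) T (p i) (p j) (p k)
  have h4 : algebraMap ℂ K (Bg T (p i) (p j) (p k)) = 0 := h3.trans h2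
  exact (map_eq_zero_iff _ (algebraMap ℂ K).injective).1 h4

end Pool.Agent.K9h4.RH
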