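import Mathlib
import Pool.Agent.K9h4.RH.Xch

/-! # The direct lemma, and the general step -/

set_option autoImplicit false

namespace Pool.Agent.K9h4.RH

open MvPolynomial Pool.Agent.TH314.PD Module FF IntermediateField Pool.Agent.Y201.C3
open Pool.Agent.R845.T2 Pool.Agent.R845.E3 Pool.Agent.N122

noncomputable section

variable {n : ℕ} {F : MvPolynomial (Fin (n + 2)) ℂ}

/-- **The direct lemma**: the cubic is the cube of a linear form on the span of `v`. -/
theorem dir (hTD : S_TD) (hRED3 : S_RED3) (hF : F.IsHomogeneous 3) (hsm : Sm F)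
    {T : Fin (n + 2) → Fin (n + 2) → Fin (n + 2) → ℂ} (hT : SymG T) (hFT : F = Bg T X X X)
    {K E : Type} [Field K] [Field E] [Algebra ℂ K] [Algebra K E] [Algebra ℂ E]
    [IsScalarTower ℂ K E] (ρ r : ℕ) (htr : Algebra.trdeg ℂ K ≤ ((ρ + 1 : ℕ) : Cardinal))
    (hNS1 : NS T ρ (r + 1)) (hNS2 : NS T ρ (r + 2)) (v : Fin (r + 2) → Fin (n + 2) → K)
    (hv : LinearIndependent K v) (g : K) (hg : g ≠ 0)
    (hPz : ∀ i j k, Bg T (v i) (v j) (v k) =
      if i = Fin.last (r + 1) ∧ j = Fin.last (r + 1) ∧ k = Fin.last (r + 1) then g else 0)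
    (p₀ : Fin (n + 2) → E) (hgen₀ : Gen p₀) (hodd : Odd (finrank (ratioField p₀) E))
    (a : Fin (r + 1) → E)
    (hX : Bg T (fun i => p₀ i - ∑ l, a l * algebraMap K E (v l.castSucc i))
      (fun i => p₀ i - ∑ l, a l * algebraMap K E (v l.castSucc i))
      (fun i => p₀ i - ∑ l, a l * algebraMap K E (v l.castSucc i)) = 0) : False := by
  classical
  have hfd : FiniteDimensional (ratioField p₀) E := FiniteDimensional.of_finrank_pos hodd.pos
  set c : Fin (n + 2) → E := cl E v with hc
  set W := Wl p₀ v a with hW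
  set q : LF E := algebraMap (Polynomial E) (LF E) (Yl p₀ c 0) with hq
  have hq0 : q ≠ 0 := q_ne p₀ c hgen₀
  have hX0 : algebraMap (Polynomial E) (LF E) Polynomial.X ≠ 0 := X_ne
  have hβ0 : bl p₀ c ≠ 0 := div_ne_zero hX0 hq0
  have hg' : algebraMap K (LF E) g ≠ 0 := (map_ne_zero _).2 hg
  have hαl : al p₀ v a (Fin.last (r + 1)) = bl p₀ c := by
    unfold al
    rw [Fin.snoc_last]
  set f : LF E := Bg T W W W with hf
  have hfe : f = bl p₀ c ^ 3 * algebraMap K (LF E) g := by
    rw [← hαl]
    refine Bg_comb_last hT (fun l i => algebraMap K (LF E) (v l i)) _ ?_ _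
    intro i j k
    rw [Bg_alg, hPz]
    split_ifs
    · rfl
    · rw [map_zero]
  have hf0 : f ≠ 0 := by
    rw [hfe]
    exact mul_ne_zero (pow_ne_zero _ hβ0) hg'
  have hXX := PWzero (T := T) p₀ v a hX
  have hPWW : (fun i => Pl p₀ c i - (Pl p₀ c i - W i)) = W := by
    funext i
    ring
  have hord : (wc (0 : E)).ord f = 3 := by
    have e1 : (wc (0 : E)).ord (algebraMap (Polynomial E) (LF E) Polynomial.X) = 1 := by
      have := wc_ord_X (0 : E)
      rwa [Polynomial.C_0, sub_zero] at this
    have hY0 : (Yl p₀ c 0).eval 0 ≠ 0 := by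
      have e2 : (Yl p₀ c 0).eval 0 = p₀ 0 := by
        change Polynomial.eval 0 (Polynomial.C (p₀ 0) + Polynomial.X * Polynomial.C (c 0)) = _
        rw [Polynomial.eval_add, Polynomial.eval_mul, Polynomial.eval_C, Polynomial.eval_X,
          zero_mul, add_zero]
      rw [e2]
      exact gen_ne hgen₀ 0
    have e2 : (wc (0 : E)).ord q = 0 := wc_ord_of_eval hY0
    have e3 : (wc (0 : E)).ord (algebraMap K (LF E) g) = 0 := by
      rw [IsScalarTower.algebraMap_apply K E (LF E), EL]
      refine wc_ord_of_eval ?_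
      rw [Polynomial.eval_C]
      exact (map_ne_zero _).2 hg
    have e4 : (wc (0 : E)).ord (bl p₀ c) = 1 := by
      have e5 : bl p₀ c = algebraMap (Polynomial E) (LF E) Polynomial.X / q := rfl
      rw [e5, Place.ord_div _ hX0 hq0, e1, e2, sub_zero]
    rw [hfe, Place.ord_mul _ (pow_ne_zero _ hβ0) hg', Place.ord_pow, e3, e4]
    norm_num
  refine skel p₀ hgen₀ hodd c f (by rw [hord]; norm_num) (by rw [hord]; decide) ?_
  intro w hne hPreg hPgen hPodd
  by_cases hreg1 : ∀ i, w.Reg (Pl p₀ c i - W i)
  · have hWreg : ∀ i, w.Reg (W i) := by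
      intro i
      have e8 : W i = Pl p₀ c i - (Pl p₀ c i - W i) := by ring
      rw [e8, sub_eq_add_neg]
      exact w.reg_add (hPreg i) (w.reg_neg (hreg1 i))
    have hfreg := (red_Bg w T W W W hWreg hWreg hWreg).1
    have o1 := (w.reg_iff hf0).1 hfreg
    rcases o1.eq_or_lt with heq | hgt
    · rw [← heq]
      exact Even.zero
    · exfalso
      have hfred : w.red (Bg T W W W) = 0 := (w.red_eq_zero_iff hfreg).2 (Or.inr hgt)
      by_cases htrv : ∃ k : K, k ≠ 0 ∧ w.ord (algebraMap K (LF E) k) ≠ 0
      · obtain ⟨s', hs', v', α', hv', hPz', hred⟩ := hRED3 (n + 2) T hT K (LF E) w (r + 1) v g hv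
          hPz (al p₀ v a) hWreg hfred
        have hgd : Gd T (NT.kap K w) v' := by
          rcases hs' with rfl | rfl
          · exact hNS1 (NT.kap K w) (hTD K (LF E) w ρ htr htrv) v' hv' hPz'
          · exact hNS2 (NT.kap K w) (hTD K (LF E) w ρ htr htrv) v' hv' hPz'
        exact nontriv (K := K) w (Pl p₀ c) W hPreg hPgen hPodd hWreg hXX v' hgd α' hred
      · push Not at htrv
        have hKreg : ∀ k : K, w.Reg (algebraMap K (LF E) k) := by
          intro k
          by_cases hk : k = 0
          · rw [hk, map_zero]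
            exact w.reg_zero
          · exact Or.inr (htrv k hk).ge
        have hβreg : w.Reg (bl p₀ c) := by
          rw [← hαl]
          exact reg_coef w hKreg v hv _ hWreg _
        have hβord : 0 < w.ord (bl p₀ c) := by
          have e1 : w.ord f = 3 * w.ord (bl p₀ c) := by
            rw [hfe, w.ord_mul (pow_ne_zero _ hβ0) hg', w.ord_pow, htrv g hg]
            push_cast
            ring
          omega
        apply hne
        refine trv p₀ hgen₀ hfd c w hPreg hPgen (fun i => ?_) hβreg
          ((w.red_eq_zero_iff hβreg).2 (Or.inr hβord))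
        rw [hc]
        unfold cl
        rw [← IsScalarTower.algebraMap_apply K E (LF E)]
        exact hKreg _
  · push Not at hreg1
    rcases pole_alt hF hsm hT hFT w (Pl p₀ c) (fun i => Pl p₀ c i - W i) hPreg hPgen hXX hreg1
      with e5 | ⟨e5, e6⟩
    · exact absurd e5 (Nat.not_even_iff_odd.2 hPodd)
    · rw [hPWW] at e5
      exact e5

/-- **The general step**: `v` is a family of `r + 2` independent vectors, its last vector `c` has the
property `F(d + s c) = s ^ 3 F(c)` for `d` in the span of the others, which is contained in the cubic. If the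
family without its first vector is good in case that it is also contained in the cubic, then the
family without its last vector is good. -/
theorem step (hTD : S_TD) (hRED : S_RED) (hRED3 : S_RED3) (hF : F.IsHomogeneous 3) (hsm : Sm F)
    {T : Fin (n + 2) → Fin (n + 2) → Fin (n + 2) → ℂ} (hT : SymG T) (hFT : F = Bg T X X X)
    {K : Type} [Field K] [Algebra ℂ K] (ρ r : ℕ)
    (htr : Algebra.trdeg ℂ K ≤ ((ρ + 1 : ℕ) : Cardinal))
    (hNS1 : NS T ρ (r + 1)) (hNS2 : NS T ρ (r + 2)) (v : Fin (r + 2) → Fin (n + 2) → K)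
    (hv : LinearIndependent K v)
    (hPz : ∀ i j k, ¬ (i = Fin.last (r + 1) ∧ j = Fin.last (r + 1) ∧ k = Fin.last (r + 1)) →
      Bg T (v i) (v j) (v k) = 0)
    (hGd : Pz T v → Gd T K (fun l : Fin (r + 1) => v l.succ)) :
    Gd T K (fun l : Fin (r + 1) => v l.castSucc) := by
  classical
  intro E _ _ φ p hgen hodd a hX
  letI : Algebra K E := φ.toRingHom.toAlgebra
  haveI : IsScalarTower ℂ K E := IsScalarTower.of_algebraMap_eq fun x => (φ.commutes x).symm
  have hφ : ∀ k, algebraMap K E k = φ k := fun _ => rfl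
  set L := Fin.last (r + 1) with hL
  by_cases hg : Bg T (v L) (v L) (v L) = 0
  · have hPz' : Pz T v := by
      intro i j k
      by_cases h : i = L ∧ j = L ∧ k = L
      · obtain ⟨rfl, rfl, rfl⟩ := h
        exact hg
      · exact hPz i j k h
    have hGd' := hGd hPz'
    by_cases ha0 : a 0 = 0
    · -- the vector is in the span of the others
      refine hGd' E φ p hgen hodd (Fin.snoc (α := fun _ => E) (fun l : Fin r => a l.succ) 0) ?_
      have e1 : (fun i => p i - ∑ l : Fin (r + 1),
          Fin.snoc (α := fun _ => E) (fun l : Fin r => a l.succ) 0 l * φ (v l.succ i)) =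
          fun i => p i - ∑ l : Fin (r + 1), a l * φ (v l.castSucc i) := by
        funext i
        rw [Fin.sum_univ_castSucc, Fin.sum_univ_succ (f := fun l => a l * φ (v l.castSucc i)), ha0,
          zero_mul, zero_add]
        simp only [Fin.snoc_castSucc, Fin.snoc_last, zero_mul, add_zero]
        congr 1
      rw [e1]
      exact hX
    · exact xch hTD hRED hF hsm hT hFT ρ r htr hNS2 v hv hPz' hGd' p hgen hodd a ha0 hX
  · refine dir hTD hRED3 hF hsm hT hFT ρ r htr hNS1 hNS2 v hv _ hg ?_ p hgen hodd a hX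
    intro i j k
    split_ifs with h
    · obtain ⟨rfl, rfl, rfl⟩ := h
      rfl
    · exact hPz i j k h

end

end Pool.Agent.K9h4.RH
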