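import Mathlib
import Pool.Agent.N122.Lang
import Pool.Agent.K9h4.RH.Stm

/-! # Systems of forms over function fields (Lang, Nagata) -/

set_option autoImplicit false

namespace Pool.Agent.K9h4.RH

open MvPolynomial

/-- Systems of forms over a field of transcendence degree `r` (adapted from `N230.FC.quad_zero`). -/
theorem sys_zero {k F : Type} [Field k] [IsAlgClosed k] [Field F] [Algebra k F] (r : ℕ)
    (h : Algebra.trdeg k F ≤ r) {I Q : Type} [Fintype I] [Fintype Q] (e : Q → ℕ)
    (he : ∀ q, 1 ≤ e q) (φ : Q → MvPolynomial I F) (hφ : ∀ q, (φ q).IsHomogeneous (e q))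
    (hcard : ∑ q, e q ^ r < Fintype.card I) : ∃ a : I → F, a ≠ 0 ∧ ∀ q, eval a (φ q) = 0 := by
  classical
  obtain ⟨ι, b, hb⟩ := exists_isTranscendenceBasis' k F
  have hc := hb.cardinalMk_eq_trdeg
  rw [← hc] at h
  have hfin : Finite ι := by
    rw [← Cardinal.lt_aleph0_iff_finite]
    exact h.trans_lt (Cardinal.natCast_lt_aleph0 (n := r))
  obtain ⟨m, ⟨en⟩⟩ := Finite.exists_equiv_fin ι
  have hm : m ≤ r := by
    have h1 : Cardinal.mk ι = m := by
      rw [Cardinal.mk_congr en, Cardinal.mk_fin]
    rw [h1] at h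
    exact_mod_cast h
  obtain ⟨t, ht⟩ : ∃ t : Fin m → F, t = b ∘ en.symm := ⟨_, rfl⟩
  have htI : AlgebraicIndependent k t := by
    rw [ht]
    exact hb.1.comp _ en.symm.injective
  have hrange : Set.range t = Set.range b := by
    rw [ht, Set.range_comp, en.symm.surjective.range_eq, Set.image_univ]
  have halg := hb.isAlgebraic_field
  rw [← hrange] at halg
  let E := IntermediateField.adjoin k (Set.range t)
  let L := IntermediateField.adjoin E (((Finset.univ : Finset Q).biUnion fun q =>
    (φ q).support.image (φ q).coeff : Finset F) : Set F)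
  have hfd : FiniteDimensional E L :=
    IntermediateField.finiteDimensional_adjoin fun c _ => (Algebra.IsAlgebraic.isAlgebraic c).isIntegral
  have htower : IsScalarTower k L F := IsScalarTower.of_algebraMap_eq fun _ => rfl
  let ω := Module.finBasis E L
  have hE : ∀ c : E, ∃ p q : MvPolynomial (Fin m) k, aeval t q ≠ 0 ∧ (c : F) * aeval t q = aeval t p := by
    intro c
    obtain ⟨p, q, hpq⟩ := (IntermediateField.mem_adjoin_range_iff k t (c : F)).1 c.2
    by_cases hq : aeval t q = 0
    · rw [hq, div_zero] at hpq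
      refine ⟨0, 1, ?_, ?_⟩
      · rw [map_one]
        exact one_ne_zero
      · rw [map_one, mul_one, map_zero, hpq]
    · exact ⟨p, q, hq, by rw [hpq, div_mul_cancel₀ _ hq]⟩
  have htE : ∀ i, t i ∈ E := fun i => IntermediateField.subset_adjoin _ _ ⟨i, rfl⟩
  obtain ⟨tL, htL⟩ : ∃ tL : Fin m → L, ∀ i, (tL i : F) = t i :=
    ⟨fun i => algebraMap E L ⟨t i, htE i⟩, fun i => rfl⟩
  have hval : ∀ p : MvPolynomial (Fin m) k, ((aeval tL p : L) : F) = aeval t p := by
    intro p
    have h1 : t = fun i => algebraMap L F (tL i) := by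
      funext i
      exact (htL i).symm
    rw [h1]
    exact (MvPolynomial.aeval_algebraMap_apply F tL p).symm
  have htLI : AlgebraicIndependent k tL := by
    rw [algebraicIndependent_iff]
    intro p hp
    refine (algebraicIndependent_iff.1 htI) p ?_
    rw [← hval, hp]
    rfl
  have hcd : ∀ (c : Fin (Module.finrank E L) → E), ∃ h : MvPolynomial (Fin m) k, aeval t h ≠ 0 ∧
      ∃ p : Fin (Module.finrank E L) → MvPolynomial (Fin m) k, ∀ j, aeval t h * (c j : F) =
        aeval t (p j) := by
    intro c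
    choose p q hq hpq using fun j => hE (c j)
    refine ⟨∏ j, q j, ?_, fun j => p j * ∏ i ∈ Finset.univ.erase j, q i, ?_⟩
    · rw [map_prod]
      exact Finset.prod_ne_zero_iff.2 fun j _ => hq j
    · intro j
      rw [map_mul, ← hpq j, ← Finset.mul_prod_erase Finset.univ q (Finset.mem_univ j), map_mul]
      ring
  have hspan : ∀ z : L, ∃ h : MvPolynomial (Fin m) k, h ≠ 0 ∧
      ∃ p : Fin (Module.finrank E L) → MvPolynomial (Fin m) k,
      aeval tL h * z = ∑ j, aeval tL (p j) * ω j := by
    intro z
    obtain ⟨h, hh, p, hp⟩ := hcd (fun j => ω.repr z j)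
    refine ⟨h, ?_, p, ?_⟩
    · rintro rfl
      exact hh (map_zero _)
    · conv_lhs => rw [← ω.sum_repr z]
      rw [Finset.mul_sum]
      refine Finset.sum_congr rfl fun j _ => ?_
      have h1 : aeval tL (p j) = aeval tL h * algebraMap E L (ω.repr z j) := by
        apply Subtype.ext
        rw [hval, ← hp j]
        change _ = ((aeval tL h : L) : F) * _
        rw [hval]
        rfl
      rw [h1, Algebra.smul_def, mul_assoc]
  have hlin : ∀ p : Fin (Module.finrank E L) → MvPolynomial (Fin m) k,
      ∑ j, aeval tL (p j) * ω j = 0 → ∀ j, p j = 0 := by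
    intro p hp j
    have hmem : ∀ g : MvPolynomial (Fin m) k, aeval t g ∈ E := fun g =>
      (IntermediateField.mem_adjoin_range_iff k t _).2 ⟨g, 1, by rw [map_one, div_one]⟩
    have h1 : ∑ j, (⟨aeval t (p j), hmem _⟩ : E) • ω j = 0 := by
      rw [← hp]
      refine Finset.sum_congr rfl fun j _ => ?_
      rw [Algebra.smul_def]
      congr 1
      apply Subtype.ext
      rw [hval]
      rfl
    have h2 := (Fintype.linearIndependent_iff.1 ω.linearIndependent) _ h1 j
    exact (algebraicIndependent_iff.1 htI) _ (congrArg Subtype.val h2)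
  -- the forms over `L`
  have hcoef : ∀ q d, (φ q).coeff d ∈ L := by
    intro q d
    by_cases hd : d ∈ (φ q).support
    · refine IntermediateField.subset_adjoin _ _ (Finset.mem_coe.2 ?_)
      exact Finset.mem_biUnion.2 ⟨q, Finset.mem_univ _, Finset.mem_image_of_mem _ hd⟩
    · rw [notMem_support_iff.1 hd]
      exact zero_mem _
  have hφL : ∀ q, ∃ φL : MvPolynomial I L, map (algebraMap L F) φL = φ q := by
    intro q
    refine ⟨∑ d ∈ (φ q).support, monomial d ⟨(φ q).coeff d, hcoef q d⟩, ?_⟩
    rw [map_sum]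
    conv_rhs => rw [(φ q).as_sum]
    refine Finset.sum_congr rfl fun d _ => ?_
    rw [map_monomial]
    rfl
  choose φL hφL using hφL
  have hφL2 : ∀ q, IsWeightedHomogeneous (1 : I → ℕ) (φL q) (e q) := by
    intro q d hd
    refine hφ q ?_
    rw [← hφL q, coeff_map]
    intro h0
    exact hd ((algebraMap L F).injective (by rw [h0, map_zero]))
  obtain ⟨a, ha, ha0⟩ := Pool.Agent.N122.Lang.lang (m := m) tL ω htLI hspan hlin (Q := Q) (1 : I → ℕ)
    (fun _ => le_refl 1) e he φL hφL2 (by
      simp only [Pi.one_apply, one_pow, Finset.sum_const, smul_eq_mul, mul_one]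
      rw [Finset.card_univ]
      refine lt_of_le_of_lt (Finset.sum_le_sum fun q _ => ?_) hcard
      exact Nat.pow_le_pow_right (he q) hm)
  refine ⟨fun i => (a i : F), ?_, ?_⟩
  · intro h0
    apply ha
    funext i
    exact Subtype.ext (congrFun h0 i)
  · intro q
    have h1 := congrArg (algebraMap L F) (ha0 q)
    rw [map_zero] at h1
    rw [← hφL q, eval_map, ← h1]
    exact (eval₂_comp _ _ _).symm

theorem s_lang : S_LANG := by
  intro K _ _ ρ h I Q _ _ e he Ψ hΨ hcard
  exact sys_zero (k := ℂ) ρ h e he Ψ hΨ hcard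

end Pool.Agent.K9h4.RH
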