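import Mathlib
import Pool.Agent.K9h4.LemC
import Pool.Agent.K9h4.RH.Lang

/-! # New vectors by systems of linear, quadratic and cubic forms -/

set_option autoImplicit false

namespace Pool.Agent.K9h4.RH

open MvPolynomial Pool.Agent.TH314.PD Module Pool.Agent.Y201.C3
open Pool.Agent.R845.T2 Pool.Agent.R845.E3

/-- the linear forms of the pairs -/
def L2 {N : ℕ} {T : Fin N → Fin N → Fin N → ℂ} (hT : SymG T) {K : Type} [Field K] [Algebra ℂ K]
    {ι : Type} (s : ι → Fin N → K) (z : Sym2 ι) : (Fin N → K) →ₗ[K] K :=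
  Sym2.lift ⟨fun i j => lf T (s i) (s j), fun i j => by
    ext v
    simp only [LinearMap.comp_apply, LinearMap.single_apply, lf_apply]
    exact Bg_swap12 hT _ _ _⟩ z

/-- a new vector, with `b = 1` on the cubic -/
theorem q_gen {N : ℕ} {T : Fin N → Fin N → Fin N → ℂ} (hT : SymG T) {K : Type} [Field K]
    [Algebra ℂ K] (ρ b : ℕ) (htr : Algebra.trdeg ℂ K ≤ (ρ : Cardinal)) {ι : Type} [Fintype ι]
    (s : ι → Fin N → K) (hnum : Fintype.card ι * (Fintype.card ι + 1) / 2 + Fintype.card ι +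
      Fintype.card ι * 2 ^ ρ + b * 3 ^ ρ < N) :
    ∃ q : Fin N → K, q ∉ Submodule.span K (Set.range s) ∧
      (∀ i j, Bg T (s i) (s j) q = 0) ∧ (∀ i, Bg T (s i) q q = 0) ∧
      (∀ _ : Fin b, Bg T q q q = 0) := by
  classical
  set m := Fintype.card ι with hm
  let Φ : (Fin N → K) →ₗ[K] (Sym2 ι → K) := LinearMap.pi fun z => L2 hT s z
  set U := Submodule.span K (Set.range s) with hU
  obtain ⟨W, hUW⟩ := Submodule.exists_isCompl U
  set V := LinearMap.ker Φ ⊓ W with hV
  have d1 : finrank K (LinearMap.ker Φ) + m * (m + 1) / 2 ≥ N := by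
    have h1 := LinearMap.finrank_range_add_finrank_ker Φ
    have h2 : finrank K (LinearMap.range Φ) ≤ m * (m + 1) / 2 := by
      refine (Submodule.finrank_le (LinearMap.range Φ)).trans ?_
      rw [Module.finrank_fintype_fun_eq_card, Sym2.card, Nat.choose_two_right]
      simp only [Nat.add_sub_cancel]
      rw [Nat.mul_comm, ← hm]
    rw [Module.finrank_fin_fun] at h1
    omega
  have d2 : finrank K U ≤ m := finrank_range_le_card s
  have d3 : finrank K U + finrank K W = N := by
    rw [Submodule.finrank_add_eq_of_isCompl hUW, Module.finrank_fin_fun]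
  have d4 : N ≤ finrank K V + m * (m + 1) / 2 + m := by
    have h1 := Submodule.finrank_sup_add_finrank_inf_eq (LinearMap.ker Φ) W
    have h2 := Submodule.finrank_le (LinearMap.ker Φ ⊔ W)
    rw [Module.finrank_fin_fun] at h2
    rw [hV]
    omega
  let B := Module.finBasis K V
  let v : Fin (finrank K V) → Fin N → K := fun j => (B j : Fin N → K)
  let e : ι ⊕ Fin b → ℕ := Sum.elim (fun _ => 2) fun _ => 3
  let A := MvPolynomial (Fin (finrank K V)) K
  let Ψ : ι ⊕ Fin b → A := Sum.elim (fun i => Bg T (fun l => (C (s i l) : A)) (gv v) (gv v))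
    fun _ => Bg T (gv v) (gv v) (gv v)
  have hΨ : ∀ q, (Ψ q).IsHomogeneous (e q) := by
    rintro (i | i)
    · exact Bg_hom T _ _ _ 0 1 1 (fun l => isHomogeneous_C _ _) (gv_hom v) (gv_hom v)
    · exact Bg_hom T _ _ _ 1 1 1 (gv_hom v) (gv_hom v) (gv_hom v)
  obtain ⟨a, ha, ha0⟩ := sys_zero (k := ℂ) ρ htr e (by
    rintro (i | i)
    · exact (by norm_num : (1 : ℕ) ≤ 2)
    · exact (by norm_num : (1 : ℕ) ≤ 3)) Ψ hΨ (by
    rw [Fintype.sum_sum_type, Fintype.card_fin]
    simp only [e, Sum.elim_inl, Sum.elim_inr, Finset.sum_const, Finset.card_univ, smul_eq_mul,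
      Fintype.card_fin]
    rw [← hm]
    omega)
  set q : Fin N → K := fun i => ∑ j, a j * v j i with hq
  have hq1 : q = ((∑ j, a j • B j : V) : Fin N → K) := by
    funext i
    rw [hq, AddSubmonoidClass.coe_finset_sum, Finset.sum_apply]
    rfl
  have hqV : q ∈ V := by
    rw [hq1]
    exact Subtype.coe_prop _
  have hq0 : q ≠ 0 := by
    intro h0
    apply ha
    rw [hq1] at h0
    have h1 : ∑ j, a j • B j = 0 := Subtype.ext h0
    funext j
    exact (Fintype.linearIndependent_iff.1 B.linearIndependent) a h1 j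
  have hgvq : (fun i => eval a (gv v i)) = q := by
    funext i
    exact eval_gv v a i
  refine ⟨q, ?_, ?_, ?_, ?_⟩
  · intro hqU
    apply hq0
    exact (Submodule.disjoint_def.1 hUW.disjoint) q hqU hqV.2
  · intro i j
    have h1 := LinearMap.mem_ker.1 hqV.1
    exact congrFun h1 s(i, j)
  · intro i
    have h1 := ha0 (Sum.inl i)
    have h2 : eval a (Ψ (Sum.inl i)) = Bg T (s i) q q := by
      refine (eval_Bg T a _ _ _).trans ?_
      rw [hgvq]
      congr 1
      funext l
      exact eval_C _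
    rw [← h2, h1]
  · intro i
    have h1 := ha0 (Sum.inr i)
    have h2 : eval a (Ψ (Sum.inr i)) = Bg T q q q := by
      refine (eval_Bg T a _ _ _).trans ?_
      rw [hgvq]
    rw [← h2, h1]

theorem s_q : S_Q := by
  intro N T hT K _ _ ρ htr ι _ s hnum
  obtain ⟨q, h1, h2, h3, -⟩ := q_gen hT ρ 0 htr s (by omega)
  exact ⟨q, h1, h2, h3⟩

end Pool.Agent.K9h4.RH
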