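import Mathlib
import Pool.Agent.K9h4.RH.Dir
import Pool.Agent.K9h4.RH.Q
import Pool.Agent.K9h4.RH.Base

/-! # Chains of windows -/

set_option autoImplicit false

namespace Pool.Agent.K9h4.RH

open MvPolynomial Pool.Agent.TH314.PD Module FF IntermediateField Pool.Agent.Y201.C3
open Pool.Agent.R845.T2 Pool.Agent.R845.E3 Pool.Agent.N122

variable {n : ℕ} {F : MvPolynomial (Fin (n + 2)) ℂ}

/-- the chain of windows of a sequence of vectors -/
theorem chain (hTD : S_TD) (hRED : S_RED) (hRED3 : S_RED3) (hF : F.IsHomogeneous 3) (hsm : Sm F)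
    {T : Fin (n + 2) → Fin (n + 2) → Fin (n + 2) → ℂ} (hT : SymG T) (hFT : F = Bg T X X X)
    {K : Type} [Field K] [Algebra ℂ K] (ρ r : ℕ)
    (htr : Algebra.trdeg ℂ K ≤ ((ρ + 1 : ℕ) : Cardinal))
    (hNS1 : NS T ρ (r + 1)) (hNS2 : NS T ρ (r + 2)) (N : ℕ) (s : ℕ → Fin (n + 2) → K)
    (hind : ∀ k < N, LinearIndependent K (fun l : Fin (r + 2) => s (k + l)))
    (hpol : ∀ k < N, (∀ i < k + r + 1, Bg T (s i) (s i) (s i) = 0) → ∀ i j l : Fin (r + 2),
      ¬ (i = Fin.last (r + 1) ∧ j = Fin.last (r + 1) ∧ l = Fin.last (r + 1)) →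
      Bg T (s (k + i)) (s (k + j)) (s (k + l)) = 0)
    (hend : (∀ i < N + r + 1, Bg T (s i) (s i) (s i) = 0) →
      Gd T K (fun l : Fin (r + 1) => s (N + l)))
    (h0 : ∀ i < r + 1, Bg T (s i) (s i) (s i) = 0) : Gd T K (fun l : Fin (r + 1) => s l) := by
  have key : ∀ j k : ℕ, k + j = N → (∀ i < k + r + 1, Bg T (s i) (s i) (s i) = 0) →
      Gd T K (fun l : Fin (r + 1) => s (k + l)) := by
    intro j
    induction j with
    | zero =>
      intro k hk h
      have hk' : k = N := by omega
      subst hk'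
      exact hend h
    | succ j ih =>
      intro k hk h
      have h1 := step hTD hRED hRED3 hF hsm hT hFT ρ r htr hNS1 hNS2
        (fun l : Fin (r + 2) => s (k + l)) (hind k (by omega)) (hpol k (by omega) h) (by
          intro hPz
          have h2 := ih (k + 1) (by omega) (by
            intro i hi
            by_cases hi' : i < k + r + 1
            · exact h i hi'
            · have hi2 : i = k + (r + 1) := by omega
              have h3 := hPz (Fin.last (r + 1)) (Fin.last (r + 1)) (Fin.last (r + 1))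
              rw [hi2]
              exact h3)
          have e1 : (fun l : Fin (r + 1) => s (k + 1 + l)) =
              fun l : Fin (r + 1) => s (k + (l.succ : Fin (r + 2))) := by
            funext l
            rw [Fin.val_succ]
            congr 1
            omega
          rw [e1] at h2
          exact h2)
      exact h1
  have h1 := key N 0 (by omega) (by
    intro i hi
    exact h0 i (by omega))
  have e1 : (fun l : Fin (r + 1) => s (0 + l)) = fun l : Fin (r + 1) => s l := by
    funext l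
    rw [Nat.zero_add]
  rw [e1] at h1
  exact h1

/-- polar values of a sequence of vectors -/
theorem pol0 {N : ℕ} {T : Fin N → Fin N → Fin N → ℂ} (hT : SymG T) {K : Type} [Field K]
    [Algebra ℂ K] (S₀ : Set (Fin N → K))
    (hS : ∀ x ∈ S₀, ∀ y ∈ S₀, ∀ z ∈ S₀, Bg T x y z = 0) (q : ℕ → Fin N → K) (m : ℕ)
    (hq2 : ∀ k < m, ∀ x ∈ S₀ ∪ q '' Set.Iio k, ∀ y ∈ S₀ ∪ q '' Set.Iio k, Bg T x y (q k) = 0)
    (hq3 : ∀ k < m, ∀ x ∈ S₀ ∪ q '' Set.Iio k, Bg T x (q k) (q k) = 0) :
    ∀ k ≤ m, (∀ j < k, Bg T (q j) (q j) (q j) = 0) → ∀ x ∈ S₀ ∪ q '' Set.Iio k,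
      ∀ y ∈ S₀ ∪ q '' Set.Iio k, ∀ z ∈ S₀ ∪ q '' Set.Iio k, Bg T x y z = 0 := by
  intro k
  induction k with
  | zero =>
    intro _ _ x hx y hy z hz
    have h1 : S₀ ∪ q '' Set.Iio 0 = S₀ := by
      simp
    rw [h1] at hx hy hz
    exact hS x hx y hy z hz
  | succ k ih =>
    intro hk hc x hx y hy z hz
    have h1 : S₀ ∪ q '' Set.Iio (k + 1) = insert (q k) (S₀ ∪ q '' Set.Iio k) := by
      have h2 : Set.Iio (k + 1) = insert k (Set.Iio k) := by
        ext i
        simp only [Set.mem_Iio, Set.mem_insert_iff]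
        omega
      rw [h2, Set.image_insert_eq, Set.union_insert]
    rw [h1] at hx hy hz
    have ih' := ih (by omega) (fun j hj => hc j (by omega))
    have h2 := hq2 k (by omega)
    have h3 := hq3 k (by omega)
    rcases hx with rfl | hx <;> rcases hy with rfl | hy <;> rcases hz with rfl | hz
    · exact hc k (by omega)
    · rw [Bg_swap23 hT, Bg_swap12 hT]
      exact h3 z hz
    · rw [Bg_swap12 hT]
      exact h3 y hy
    · rw [Bg_swap12 hT, Bg_swap23 hT]
      exact h2 y hy z hz
    · exact h3 x hx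
    · rw [Bg_swap23 hT]
      exact h2 x hx z hz
    · exact h2 x hx y hy
    · exact ih' x hx y hy z hz

/-- independence of a sequence of vectors -/
theorem ind0 {N : ℕ} {K : Type} [Field K] (a : ℕ) (t : ℕ → Fin N → K)
    (h0 : LinearIndepOn K t (Set.Iio a)) (m : ℕ)
    (h : ∀ k < m, t (a + k) ∉ Submodule.span K (t '' Set.Iio (a + k))) :
    LinearIndepOn K t (Set.Iio (a + m)) := by
  induction m with
  | zero => exact h0
  | succ m ih =>
    have h1 : Set.Iio (a + (m + 1)) = insert (a + m) (Set.Iio (a + m)) := by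
      ext i
      simp only [Set.mem_Iio, Set.mem_insert_iff]
      omega
    rw [h1, linearIndepOn_insert (by simp)]
    exact ⟨ih fun k hk => h k (by omega), h m (by omega)⟩

/-- the sequence of new vectors -/
theorem exists_q {N : ℕ} {T : Fin N → Fin N → Fin N → ℂ} (hT : SymG T) {K : Type} [Field K]
    [Algebra ℂ K] (ρ b : ℕ) (htr : Algebra.trdeg ℂ K ≤ (ρ : Cardinal)) (c : ℕ) {ι : Type}
    [Fintype ι] (hc : Fintype.card ι = c) (s : ι → Fin N → K) (m : ℕ) (hnum : (c + m) * (c + m + 1) / 2 + (c + m) +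
      (c + m) * 2 ^ ρ + b * 3 ^ ρ < N) :
    ∃ q : ℕ → Fin N → K, ∀ k < m + 1, q k ∉ Submodule.span K (Set.range s ∪ q '' Set.Iio k) ∧
      (∀ x ∈ Set.range s ∪ q '' Set.Iio k, ∀ y ∈ Set.range s ∪ q '' Set.Iio k,
        Bg T x y (q k) = 0) ∧
      (∀ x ∈ Set.range s ∪ q '' Set.Iio k, Bg T x (q k) (q k) = 0) ∧
      (∀ _ : Fin b, Bg T (q k) (q k) (q k) = 0) := by
  classical
  have key : ∀ j ≤ m + 1, ∃ q : ℕ → Fin N → K, ∀ k < j,
      q k ∉ Submodule.span K (Set.range s ∪ q '' Set.Iio k) ∧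
      (∀ x ∈ Set.range s ∪ q '' Set.Iio k, ∀ y ∈ Set.range s ∪ q '' Set.Iio k,
        Bg T x y (q k) = 0) ∧
      (∀ x ∈ Set.range s ∪ q '' Set.Iio k, Bg T x (q k) (q k) = 0) ∧
      (∀ _ : Fin b, Bg T (q k) (q k) (q k) = 0) := by
    intro j
    induction j with
    | zero =>
      intro _
      exact ⟨fun _ => 0, fun k hk => absurd hk (by omega)⟩
    | succ j ih =>
      intro hj
      obtain ⟨q, hq⟩ := ih (by omega)
      have hr : Set.range (Sum.elim s fun l : Fin j => q l) = Set.range s ∪ q '' Set.Iio j := by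
        rw [Set.Sum.elim_range]
        congr 1
        ext x
        constructor
        · rintro ⟨l, rfl⟩
          exact ⟨l, l.2, rfl⟩
        · rintro ⟨l, hl, rfl⟩
          exact ⟨⟨l, hl⟩, rfl⟩
      have hle : c + j ≤ c + m := by omega
      have hcard : Fintype.card (ι ⊕ Fin j) = c + j := by
        rw [Fintype.card_sum, Fintype.card_fin, hc]
      obtain ⟨u, hu1, hu2, hu3, hu4⟩ := q_gen hT ρ b htr (Sum.elim s fun l : Fin j => q l) (by
        rw [hcard]
        have g1 : (c + j) * (c + j + 1) / 2 ≤ (c + m) * (c + m + 1) / 2 :=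
          Nat.div_le_div_right (Nat.mul_le_mul hle (by omega))
        have g2 : (c + j) * 2 ^ ρ ≤ (c + m) * 2 ^ ρ := Nat.mul_le_mul_right _ hle
        omega)
      rw [hr] at hu1
      have hu2' : ∀ x ∈ Set.range s ∪ q '' Set.Iio j, ∀ y ∈ Set.range s ∪ q '' Set.Iio j,
          Bg T x y u = 0 := by
        rw [← hr]
        rintro _ ⟨i, rfl⟩ _ ⟨l, rfl⟩
        exact hu2 i l
      have hu3' : ∀ x ∈ Set.range s ∪ q '' Set.Iio j, Bg T x u u = 0 := by
        rw [← hr]
        rintro _ ⟨i, rfl⟩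
        exact hu3 i
      have himg : ∀ k ≤ j, Function.update q j u '' Set.Iio k = q '' Set.Iio k := by
        intro k hk
        refine Set.image_congr fun i hi => ?_
        rw [Function.update_of_ne]
        have : i < k := hi
        omega
      refine ⟨Function.update q j u, fun k hk => ?_⟩
      rw [himg k (by omega)]
      by_cases hkj : k = j
      · subst hkj
        rw [Function.update_self]
        exact ⟨hu1, hu2', hu3', hu4⟩
      · rw [Function.update_of_ne hkj]
        exact hq k (by omega)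
  exact key (m + 1) le_rfl

end Pool.Agent.K9h4.RH
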