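import Mathlib
import Pool.Agent.K9h4.RH.Chn

/-! # Points of subvarieties of any dimension: the induction -/

set_option autoImplicit false

namespace Pool.Agent.K9h4.RH

open MvPolynomial Pool.Agent.TH314.PD Module FF IntermediateField Pool.Agent.Y201.C3
open Pool.Agent.R845.T2 Pool.Agent.R845.E3 Pool.Agent.N122

variable {n : ℕ} {F : MvPolynomial (Fin (n + 2)) ℂ}

/-- a subspace of dimension `r + 1` over the complex numbers, contained in the cubic -/
theorem exists_const {T : Fin (n + 2) → Fin (n + 2) → Fin (n + 2) → ℂ} (hT : SymG T) (r : ℕ)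
    (hnum : r * (r + 1) / 2 + r + r + 1 < n + 2) :
    ∃ P : ℕ → Fin (n + 2) → ℂ, LinearIndependent ℂ (fun l : Fin (r + 1) => P l) ∧
      Pz T (fun l : Fin (r + 1) => P l) := by
  obtain ⟨P, hP⟩ := exists_q (N := n + 2) hT (K := ℂ) 0 1 (by
    rw [trdeg_eq_zero_iff.2 inferInstance]
    simp) 0 (ι := Fin 0) (by simp) Fin.elim0 r (by
    simp only [Nat.zero_add, pow_zero, Nat.mul_one]
    exact hnum)
  have hr : ∀ k, Set.range (Fin.elim0 : Fin 0 → Fin (n + 2) → ℂ) ∪ P '' Set.Iio k =
      P '' Set.Iio k := by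
    intro k
    have h1 : Set.range (Fin.elim0 : Fin 0 → Fin (n + 2) → ℂ) = ∅ := Set.range_eq_empty _
    rw [h1, Set.empty_union]
  have hmem : ∀ l : Fin (r + 1), P l ∈ (∅ : Set (Fin (n + 2) → ℂ)) ∪ P '' Set.Iio (r + 1) :=
    fun l => Or.inr ⟨l, l.2, rfl⟩
  refine ⟨P, ?_, ?_⟩
  · have h1 := ind0 (K := ℂ) 0 P (by
      have h2 : Set.Iio 0 = (∅ : Set ℕ) := by simp
      rw [h2]
      exact linearIndepOn_empty ℂ P) (r + 1) (by
      intro k hk
      rw [Nat.zero_add]
      have h2 := (hP k hk).1
      rwa [hr] at h2)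
    have h2 := h1.linearIndependent.comp (fun l : Fin (r + 1) =>
      (⟨l, by
        have := l.2
        simp only [Set.mem_Iio]
        omega⟩ : Set.Iio (0 + (r + 1)))) (by
      intro i j hij
      have h3 := congrArg Subtype.val hij
      exact Fin.ext h3)
    exact h2
  · intro i j k
    refine pol0 hT (∅ : Set (Fin (n + 2) → ℂ)) ?_ P (r + 1) ?_ ?_ (r + 1) le_rfl ?_ _ (hmem i) _
      (hmem j) _ (hmem k)
    · rintro x ⟨⟩
    · intro k hk x hx y hy
      rw [Set.empty_union, ← hr] at hx hy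
      exact (hP k hk).2.1 x hx y hy
    · intro k hk x hx
      rw [Set.empty_union, ← hr] at hx
      exact (hP k hk).2.2.1 x hx
    · intro j hj
      exact (hP j hj).2.2.2 0

/-- independence of windows -/
theorem ind_win {N : ℕ} {K : Type} [Field K] (t : ℕ → Fin N → K) (A : ℕ)
    (h : LinearIndepOn K t (Set.Iio A)) {m : ℕ} (s : Fin m → Fin N → K) (g : Fin m → ℕ)
    (hg : Function.Injective g) (hgA : ∀ l, g l < A) (hs : ∀ l, s l = t (g l)) :
    LinearIndependent K s := by
  have h2 := h.linearIndependent.comp (fun l : Fin m => (⟨g l, hgA l⟩ : Set.Iio A)) (by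
    intro i j hij
    exact hg (congrArg Subtype.val hij))
  have h3 : s = (fun x : Set.Iio A => t x) ∘ fun l : Fin m => (⟨g l, hgA l⟩ : Set.Iio A) := by
    funext l
    exact hs l
  rw [h3]
  exact h2

/-- **The induction step.** -/
theorem ns_step (hTD : S_TD) (hRED : S_RED) (hRED3 : S_RED3) (hF : F.IsHomogeneous 3)
    (hsm : Sm F) {T : Fin (n + 2) → Fin (n + 2) → Fin (n + 2) → ℂ} (hT : SymG T)
    (hFT : F = Bg T X X X) (ρ r : ℕ) (hN1 : NS T ρ (r + 1)) (hN2 : NS T ρ (r + 2))
    (hnum : (3 * r + 2) * (3 * r + 3) / 2 + (3 * r + 2) + (3 * r + 2) * 2 ^ (ρ + 1) < n + 2) :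
    NS T (ρ + 1) (r + 1) := by
  classical
  intro K _ _ htr v hv hPz
  have g1 : r * (r + 1) / 2 ≤ (3 * r + 2) * (3 * r + 3) / 2 :=
    Nat.div_le_div_right (Nat.mul_le_mul (by omega) (by omega))
  have g2 : (r + 1) * (r + 1 + 1) / 2 ≤ (3 * r + 2) * (3 * r + 3) / 2 :=
    Nat.div_le_div_right (Nat.mul_le_mul (by omega) (by omega))
  obtain ⟨P, hPi, hPP⟩ := exists_const hT r (by omega)
  set w : ℕ → Fin (n + 2) → K := fun i l => algebraMap ℂ K (P i l) with hw
  have hwi : LinearIndependent K (fun l : Fin (r + 1) => w l) := by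
    rw [Fintype.linearIndependent_iff]
    intro z hz
    have h1 := indep_ext (fun l : Fin (r + 1) => P l) hPi z (by
      intro i
      have h2 := congrFun hz i
      rw [Finset.sum_apply] at h2
      exact h2)
    intro i
    rw [h1]
    rfl
  have hwP : Pz T (fun l : Fin (r + 1) => w l) := by
    intro i j k
    have h1 := map_Bg (Algebra.ofId ℂ K) T (P i) (P j) (P k)
    have h2 := hPP i j k
    simp only at h2
    rw [h2, map_zero] at h1
    exact h1.symm
  obtain ⟨q, hq⟩ := exists_q hT (ρ + 1) 0 htr (2 * (r + 1)) (ι := Fin (r + 1) ⊕ Fin (r + 1))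
    (by rw [Fintype.card_sum, Fintype.card_fin]; omega)
    (Sum.elim v fun l : Fin (r + 1) => w l) r (by
      have e1 : 2 * (r + 1) + r = 3 * r + 2 := by omega
      rw [e1]
      simpa using hnum)
  rw [Set.Sum.elim_range] at hq
  -- the two halves
  have hsub1 : ∀ k, Set.range v ∪ q '' Set.Iio k ⊆
      Set.range v ∪ Set.range (fun l : Fin (r + 1) => w l) ∪ q '' Set.Iio k := by
    rintro k x (hx | hx)
    · exact Or.inl (Or.inl hx)
    · exact Or.inr hx
  have hsub2 : ∀ k, Set.range (fun l : Fin (r + 1) => w l) ∪ q '' Set.Iio k ⊆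
      Set.range v ∪ Set.range (fun l : Fin (r + 1) => w l) ∪ q '' Set.Iio k := by
    rintro k x (hx | hx)
    · exact Or.inl (Or.inr hx)
    · exact Or.inr hx
  -- independence
  have hI : ∀ u : Fin (r + 1) → Fin (n + 2) → K, LinearIndependent K u →
      (∀ k, Set.range u ∪ q '' Set.Iio k ⊆
        Set.range v ∪ Set.range (fun l : Fin (r + 1) => w l) ∪ q '' Set.Iio k) →
      LinearIndepOn K (fun i => if h : i < r + 1 then u ⟨i, h⟩ else q (i - (r + 1)))
        (Set.Iio (r + 1 + (r + 1))) := by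
    intro u hu hsub
    refine ind0 (r + 1) _ ?_ (r + 1) ?_
    · have h1 := hu.comp (fun x : Set.Iio (r + 1) => (⟨x, x.2⟩ : Fin (r + 1))) (by
        intro a b hab
        exact Subtype.ext (congrArg Fin.val hab))
      have h2 : (u ∘ fun x : Set.Iio (r + 1) => (⟨x, x.2⟩ : Fin (r + 1))) =
          fun x : Set.Iio (r + 1) => (fun i => if h : i < r + 1 then u ⟨i, h⟩
            else q (i - (r + 1))) (x : ℕ) := by
        funext x
        simp only [Function.comp_apply]
        rw [dif_pos (show (x : ℕ) < r + 1 from x.2)]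
      rw [h2] at h1
      exact h1
    · intro k hk
      have h1 := (hq k hk).1
      rw [dif_neg (by omega)]
      have e1 : r + 1 + k - (r + 1) = k := by omega
      rw [e1]
      intro hmem
      apply h1
      refine Submodule.span_mono ?_ hmem
      rintro x ⟨i, hi, rfl⟩
      have hi' : i < r + 1 + k := hi
      apply hsub k
      simp only
      by_cases h : i < r + 1
      · rw [dif_pos h]
        exact Or.inl ⟨_, rfl⟩
      · rw [dif_neg h]
        exact Or.inr ⟨i - (r + 1), by
          simp only [Set.mem_Iio]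
          omega, rfl⟩
  have hI1 := hI v hv hsub1
  have hI2 := hI (fun l : Fin (r + 1) => w l) hwi hsub2
  -- polar values
  have hQ1 := pol0 hT (Set.range v) (by
    rintro _ ⟨i, rfl⟩ _ ⟨j, rfl⟩ _ ⟨k, rfl⟩
    exact hPz i j k) q (r + 1)
    (fun k hk x hx y hy => (hq k hk).2.1 x (hsub1 k hx) y (hsub1 k hy))
    (fun k hk x hx => (hq k hk).2.2.1 x (hsub1 k hx))
  have hQ2 := pol0 hT (Set.range (fun l : Fin (r + 1) => w l)) (by
    rintro _ ⟨i, rfl⟩ _ ⟨j, rfl⟩ _ ⟨k, rfl⟩
    exact hwP i j k) q (r + 1)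
    (fun k hk x hx y hy => (hq k hk).2.1 x (hsub2 k hx) y (hsub2 k hy))
    (fun k hk x hx => (hq k hk).2.2.1 x (hsub2 k hx))
  -- the sequence
  set s : ℕ → Fin (n + 2) → K := fun i => if h : i < r + 1 then v ⟨i, h⟩ else
    if i < 2 * (r + 1) then q (i - (r + 1)) else w (i - 2 * (r + 1)) with hs
  have s1 : ∀ i (h : i < r + 1), s i = v ⟨i, h⟩ := by
    intro i h
    rw [hs]
    simp only
    rw [dif_pos h]
  have s2 : ∀ j < r + 1, s (r + 1 + j) = q j := by
    intro j hj
    rw [hs]
    simp only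
    rw [dif_neg (by omega), if_pos (by omega)]
    congr 1
    omega
  have s3 : ∀ j, s (2 * (r + 1) + j) = w j := by
    intro j
    rw [hs]
    simp only
    rw [dif_neg (by omega), if_neg (by omega)]
    congr 1
    omega
  have h1 := chain hTD hRED hRED3 hF hsm hT hFT ρ r htr hN1 hN2 (2 * (r + 1)) s ?_ ?_ ?_ ?_
  · have e1 : (fun l : Fin (r + 1) => s l) = v := by
      funext l
      exact s1 l l.2
    rw [e1] at h1
    exact h1
  · -- independence of the windows
    intro k hk
    by_cases hkr : k < r + 1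
    · refine ind_win _ _ hI1 _ (fun l : Fin (r + 2) => k + l) ?_ ?_ ?_
      · intro a b hab
        exact Fin.ext (by simpa using hab)
      · intro l
        have := l.2
        omega
      · intro l
        have hl := l.2
        by_cases h : k + (l : ℕ) < r + 1
        · rw [dif_pos h]
          exact s1 _ h
        · rw [dif_neg h]
          have h2 := s2 (k + l - (r + 1)) (by omega)
          have e1 : r + 1 + (k + l - (r + 1)) = k + l := by omega
          rw [e1] at h2
          exact h2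
    · refine ind_win _ _ hI2 _ (fun l : Fin (r + 2) =>
        if k + (l : ℕ) < 2 * (r + 1) then k + l else k + l - 2 * (r + 1)) ?_ ?_ ?_
      · intro a b hab
        have ha := a.2
        have hb := b.2
        simp only at hab
        apply Fin.ext
        split_ifs at hab <;> omega
      · intro l
        have := l.2
        split_ifs <;> omega
      · intro l
        have hl := l.2
        by_cases h : k + (l : ℕ) < 2 * (r + 1)
        · rw [if_pos h, dif_neg (by omega)]
          have h2 := s2 (k + l - (r + 1)) (by omega)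
          have e1 : r + 1 + (k + l - (r + 1)) = k + l := by omega
          rw [e1] at h2
          exact h2
        · rw [if_neg h, dif_pos (by omega)]
          have h2 := s3 (k + l - 2 * (r + 1))
          have e1 : 2 * (r + 1) + (k + l - 2 * (r + 1)) = k + l := by omega
          rw [e1] at h2
          exact h2
  · -- polar values of the windows
    intro k hk hc i j l hne
    by_cases hkr : k < r + 1
    · have hc' : ∀ j < k, Bg T (q j) (q j) (q j) = 0 := by
        intro j hj
        rw [← s2 j (by omega)]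
        exact hc _ (by omega)
      have hlast : s (k + (Fin.last (r + 1) : Fin (r + 2))) = q k := by
        have h2 := s2 k hkr
        rw [Fin.val_last, Nat.add_comm k]
        exact h2
      have hm : ∀ i : Fin (r + 2), i ≠ Fin.last (r + 1) →
          s (k + i) ∈ Set.range v ∪ q '' Set.Iio k := by
        intro i hi
        have hi' : (i : ℕ) < r + 1 := by
          have h3 := i.2
          have h4 : (i : ℕ) ≠ r + 1 := fun h => hi (Fin.ext h)
          omega
        by_cases h : k + (i : ℕ) < r + 1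
        · rw [s1 _ h]
          exact Or.inl ⟨_, rfl⟩
        · have h2 := s2 (k + i - (r + 1)) (by omega)
          have e1 : r + 1 + (k + i - (r + 1)) = k + i := by omega
          rw [e1] at h2
          rw [h2]
          exact Or.inr ⟨k + i - (r + 1), by
            simp only [Set.mem_Iio]
            omega, rfl⟩
      have hQ := hQ1 k (by omega) hc'
      have h2 := fun x hx y hy => (hq k hkr).2.1 x (hsub1 k hx) y (hsub1 k hy)
      have h3 := fun x hx => (hq k hkr).2.2.1 x (hsub1 k hx)
      by_cases hi : i = Fin.last (r + 1) <;> by_cases hj : j = Fin.last (r + 1) <;>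
        by_cases hl : l = Fin.last (r + 1)
      · exact absurd ⟨hi, hj, hl⟩ hne
      · rw [hi, hj, hlast, Bg_swap23 hT, Bg_swap12 hT]
        exact h3 _ (hm l hl)
      · rw [hi, hl, hlast, Bg_swap12 hT]
        exact h3 _ (hm j hj)
      · rw [hi, hlast, Bg_swap12 hT, Bg_swap23 hT]
        exact h2 _ (hm j hj) _ (hm l hl)
      · rw [hj, hl, hlast]
        exact h3 _ (hm i hi)
      · rw [hj, hlast, Bg_swap23 hT]
        exact h2 _ (hm i hi) _ (hm l hl)
      · rw [hl, hlast]
        exact h2 _ (hm i hi) _ (hm j hj)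
      · exact hQ _ (hm i hi) _ (hm j hj) _ (hm l hl)
    · have hc' : ∀ j < r + 1, Bg T (q j) (q j) (q j) = 0 := by
        intro j hj
        rw [← s2 j hj]
        exact hc _ (by omega)
      have hm : ∀ i : Fin (r + 2),
          s (k + i) ∈ Set.range (fun l : Fin (r + 1) => w l) ∪ q '' Set.Iio (r + 1) := by
        intro i
        have hi' := i.2
        by_cases h : k + (i : ℕ) < 2 * (r + 1)
        · have h2 := s2 (k + i - (r + 1)) (by omega)
          have e1 : r + 1 + (k + i - (r + 1)) = k + i := by omega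
          rw [e1] at h2
          rw [h2]
          exact Or.inr ⟨k + i - (r + 1), by
            simp only [Set.mem_Iio]
            omega, rfl⟩
        · have h2 := s3 (k + i - 2 * (r + 1))
          have e1 : 2 * (r + 1) + (k + i - 2 * (r + 1)) = k + i := by omega
          rw [e1] at h2
          rw [h2]
          exact Or.inl ⟨⟨k + i - 2 * (r + 1), by omega⟩, rfl⟩
      exact hQ2 (r + 1) le_rfl hc' _ (hm i) _ (hm j) _ (hm l)
  · -- the end
    intro _
    have h2 := base hsm hT hFT (K := K) (r := r + 1) (by omega) (fun l : Fin (r + 1) => P l) hPP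
    have e1 : (fun l : Fin (r + 1) => s (2 * (r + 1) + l)) =
        fun (l : Fin (r + 1)) i => algebraMap ℂ K (P l i) := by
      funext l
      exact s3 l
    rw [e1]
    exact h2
  · intro i hi
    rw [s1 i hi]
    exact hPz _ _ _

/-- **Points of subvarieties**: all values of the parameters. -/
theorem ns_all (hTD : S_TD) (hRED : S_RED) (hRED3 : S_RED3) (hF : F.IsHomogeneous 3)
    (hsm : Sm F) {T : Fin (n + 2) → Fin (n + 2) → Fin (n + 2) → ℂ} (hT : SymG T)
    (hFT : F = Bg T X X X) (ρ : ℕ) : ∀ r : ℕ,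
    (∀ j < ρ, (3 * (r + j) + 2) * (3 * (r + j) + 3) / 2 + (3 * (r + j) + 2) +
      (3 * (r + j) + 2) * 2 ^ (ρ - j) < n + 2) →
    (ρ + r + 1) + (ρ + r + 1) * (ρ + r + 2) / 2 ≤ n + 1 → NS T ρ (r + 1) := by
  induction ρ with
  | zero =>
    intro r _ h
    refine ns_zero hsm hT hFT ?_
    simpa using h
  | succ ρ ih =>
    intro r h1 h2
    refine ns_step hTD hRED hRED3 hF hsm hT hFT ρ r (ih r ?_ ?_) (ih (r + 1) ?_ ?_) ?_
    · intro j hj
      have h3 := h1 j (by omega)
      have h4 : (3 * (r + j) + 2) * 2 ^ (ρ - j) ≤ (3 * (r + j) + 2) * 2 ^ (ρ + 1 - j) :=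
        Nat.mul_le_mul_left _ (Nat.pow_le_pow_right (by norm_num) (by omega))
      omega
    · have h3 : (ρ + r + 1) * (ρ + r + 2) / 2 ≤ (ρ + 1 + r + 1) * (ρ + 1 + r + 2) / 2 :=
        Nat.div_le_div_right (Nat.mul_le_mul (by omega) (by omega))
      omega
    · intro j hj
      have h3 := h1 (j + 1) (by omega)
      have e1 : r + (j + 1) = r + 1 + j := by omega
      have e2 : ρ + 1 - (j + 1) = ρ - j := by omega
      rw [e1, e2] at h3
      exact h3
    · have e1 : ρ + (r + 1) + 1 = ρ + 1 + r + 1 := by omega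
      have e2 : ρ + (r + 1) + 2 = ρ + 1 + r + 2 := by omega
      rw [e1, e2]
      exact h2
    · have h3 := h1 0 (by omega)
      simpa using h3

theorem three_pow (j : ℕ) : 3 * j + 2 ≤ 3 * 2 ^ j := by
  induction j with
  | zero => norm_num
  | succ j ih =>
    rw [pow_succ]
    have h1 : 1 ≤ 2 ^ j := Nat.one_le_two_pow
    by_cases hj : j = 0
    · subst hj
      norm_num
    · have h2 : 2 ≤ 2 ^ j := by
        calc 2 = 2 ^ 1 := by norm_num
          _ ≤ 2 ^ j := Nat.pow_le_pow_right (by norm_num) (by omega)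
      omega

/-- a closed form -/
theorem ns_main (hTD : S_TD) (hRED : S_RED) (hRED3 : S_RED3) (hF : F.IsHomogeneous 3)
    (hsm : Sm F) {T : Fin (n + 2) → Fin (n + 2) → Fin (n + 2) → ℂ} (hT : SymG T)
    (hFT : F = Bg T X X X) (ρ : ℕ) (hn : 3 * 2 ^ ρ + 5 * ρ ^ 2 ≤ n) : NS T ρ 1 := by
  refine ns_all hTD hRED hRED3 hF hsm hT hFT ρ 0 ?_ ?_
  · intro j hj
    rw [Nat.zero_add]
    have h1 : (3 * j + 2) * 2 ^ (ρ - j) ≤ 3 * 2 ^ ρ := by
      have e1 : 2 ^ ρ = 2 ^ j * 2 ^ (ρ - j) := by
        rw [← pow_add]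
        congr 1
        omega
      rw [e1, ← Nat.mul_assoc]
      exact Nat.mul_le_mul_right _ (three_pow j)
    obtain ⟨i, rfl⟩ : ∃ i, ρ = j + 1 + i := ⟨ρ - j - 1, by omega⟩
    have h2 : (3 * j + 2) * (3 * j + 3) / 2 + (3 * j + 2) < 5 * (j + 1 + i) ^ 2 + 2 := by
      have h3 : (3 * j + 2) * (3 * j + 3) / 2 * 2 ≤ (3 * j + 2) * (3 * j + 3) :=
        Nat.div_mul_le_self _ _
      nlinarith [Nat.zero_le (j * i), Nat.zero_le (i * i), Nat.zero_le (j * j)]
    omega
  · have h1 : ρ ≤ ρ ^ 2 := Nat.le_self_pow (by norm_num) ρ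
    have h3 : (ρ + 0 + 1) * (ρ + 0 + 2) / 2 * 2 ≤ (ρ + 0 + 1) * (ρ + 0 + 2) :=
      Nat.div_mul_le_self _ _
    have h4 : 1 ≤ 2 ^ ρ := Nat.one_le_two_pow
    nlinarith

end Pool.Agent.K9h4.RH
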