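import Mathlib
import Pool.Agent.K9h4.RH.Asm

/-! # The induction step with fewer conditions -/

set_option autoImplicit false

namespace Pool.Agent.K9h4.RH

open MvPolynomial Pool.Agent.TH314.PD Module FF IntermediateField Pool.Agent.Y201.C3
open Pool.Agent.R845.T2 Pool.Agent.R845.E3 Pool.Agent.N122

/-- a new vector: linear conditions `L` and quadratic conditions `s` -/
theorem q_gen2 {N : ℕ} {T : Fin N → Fin N → Fin N → ℂ} {K : Type} [Field K]
    [Algebra ℂ K] (ρ : ℕ) (htr : Algebra.trdeg ℂ K ≤ (ρ : Cardinal)) {ι κ : Type} [Fintype ι]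
    [Fintype κ] (s : ι → Fin N → K) (L : κ → (Fin N → K) →ₗ[K] K)
    (hnum : Fintype.card κ + Fintype.card ι + Fintype.card ι * 2 ^ ρ < N) :
    ∃ q : Fin N → K, q ∉ Submodule.span K (Set.range s) ∧ (∀ k, L k q = 0) ∧
      (∀ i, Bg T (s i) q q = 0) := by
  classical
  set m := Fintype.card ι with hm
  let Φ : (Fin N → K) →ₗ[K] (κ → K) := LinearMap.pi L
  set U := Submodule.span K (Set.range s) with hU
  obtain ⟨W, hUW⟩ := Submodule.exists_isCompl U
  set V := LinearMap.ker Φ ⊓ W with hV
  have d1 : finrank K (LinearMap.ker Φ) + Fintype.card κ ≥ N := by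
    have h1 := LinearMap.finrank_range_add_finrank_ker Φ
    have h2 : finrank K (LinearMap.range Φ) ≤ Fintype.card κ := by
      refine (Submodule.finrank_le (LinearMap.range Φ)).trans ?_
      rw [Module.finrank_fintype_fun_eq_card]
    rw [Module.finrank_fin_fun] at h1
    omega
  have d2 : finrank K U ≤ m := finrank_range_le_card s
  have d3 : finrank K U + finrank K W = N := by
    rw [Submodule.finrank_add_eq_of_isCompl hUW, Module.finrank_fin_fun]
  have d4 : N ≤ finrank K V + Fintype.card κ + m := by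
    have h1 := Submodule.finrank_sup_add_finrank_inf_eq (LinearMap.ker Φ) W
    have h2 := Submodule.finrank_le (LinearMap.ker Φ ⊔ W)
    rw [Module.finrank_fin_fun] at h2
    rw [hV]
    omega
  let B := Module.finBasis K V
  let v : Fin (finrank K V) → Fin N → K := fun j => (B j : Fin N → K)
  let A := MvPolynomial (Fin (finrank K V)) K
  let Ψ : ι → A := fun i => Bg T (fun l => (C (s i l) : A)) (gv v) (gv v)
  have hΨ : ∀ q, (Ψ q).IsHomogeneous 2 := fun i =>
    Bg_hom T _ _ _ 0 1 1 (fun l => isHomogeneous_C _ _) (gv_hom v) (gv_hom v)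
  obtain ⟨a, ha, ha0⟩ := sys_zero (k := ℂ) ρ htr (fun _ : ι => 2) (fun _ => by norm_num) Ψ hΨ (by
    rw [Fintype.card_fin]
    simp only [Finset.sum_const, Finset.card_univ, smul_eq_mul]
    rw [← hm]
    omega)
  set q : Fin N → K := fun i => ∑ j, a j * v j i with hq
  have hq1 : q = ((∑ j, a j • B j : V) : Fin N → K) := by
    funext i
    rw [hq, AddSubmonoidClass.coe_finsetSum, Finset.sum_apply]
    rfl
  have hqV : q ∈ V := by
    rw [hq1]
    exact Subtype.coe_prop _
  have hq0 : q ≠ 0 := by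
    intro h0
    apply ha
    rw [hq1] at h0
    have h1 : ∑ j, a j • B j = 0 := Subtype.ext h0
    funext j
    exact (Fintype.linearIndependent_iff.1 B.linearIndependent) a h1 j
  have hgvq : (fun i => eval a (gv v i)) = q := by
    funext i
    exact eval_gv v a i
  refine ⟨q, ?_, ?_, ?_⟩
  · intro hqU
    apply hq0
    exact (Submodule.disjoint_def.1 hUW.disjoint) q hqU hqV.2
  · intro k
    have h1 := LinearMap.mem_ker.1 hqV.1
    exact congrFun h1 k
  · intro i
    have h1 := ha0 i
    have h2 : eval a (Ψ i) = Bg T (s i) q q := by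
      refine (eval_Bg T a _ _ _).trans ?_
      rw [hgvq]
      congr 1
      funext l
      exact eval_C _
    rw [← h2, h1]

/-- the vectors `v 0, …, v r, q 0, q 1, …` -/
def sq {N r : ℕ} {K : Type} (v : Fin (r + 1) → Fin N → K) (q : ℕ → Fin N → K) (i : ℕ) :
    Fin N → K := if h : i < r + 1 then v ⟨i, h⟩ else q (i - (r + 1))

theorem sq_v {N r : ℕ} {K : Type} (v : Fin (r + 1) → Fin N → K) (q : ℕ → Fin N → K) (i : ℕ)
    (h : i < r + 1) : sq v q i = v ⟨i, h⟩ := dif_pos h

theorem sq_q {N r : ℕ} {K : Type} (v : Fin (r + 1) → Fin N → K) (q : ℕ → Fin N → K) (i : ℕ)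
    (h : r + 1 ≤ i) : sq v q i = q (i - (r + 1)) := dif_neg (by omega)

/-- the sequence of new vectors -/
theorem exists_q2 {N : ℕ} {T : Fin N → Fin N → Fin N → ℂ} (hT : SymG T) {K : Type} [Field K]
    [Algebra ℂ K] (ρ : ℕ) (htr : Algebra.trdeg ℂ K ≤ (ρ : Cardinal)) (r : ℕ)
    (v : Fin (r + 1) → Fin N → K) (w : ℕ → Fin N → K)
    (hnum : (r + 1) * (r + 2) / 2 + (r + 1) * (r + 1) + 2 * (r + 1) + 2 * (r + 1) * 2 ^ ρ < N) :
    ∃ q : ℕ → Fin N → K, ∀ k < r + 1,
      q k ∉ Submodule.span K (sq v q '' Set.Ico k (k + r + 1) ∪ w '' Set.Iic k) ∧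
      (∀ i ∈ Set.Ico k (k + r + 1), ∀ j ∈ Set.Ico k (k + r + 1),
        Bg T (sq v q i) (sq v q j) (q k) = 0) ∧
      (∀ a ≤ k, ∀ b ≤ k, Bg T (w a) (w b) (q k) = 0) ∧
      (∀ b < k, ∀ a ≤ b, Bg T (w a) (q b) (q k) = 0) ∧
      (∀ i ∈ Set.Ico k (k + r + 1), Bg T (sq v q i) (q k) (q k) = 0) ∧
      (∀ a ≤ k, Bg T (w a) (q k) (q k) = 0) := by
  classical
  have key : ∀ m ≤ r + 1, ∃ q : ℕ → Fin N → K, ∀ k < m,
      q k ∉ Submodule.span K (sq v q '' Set.Ico k (k + r + 1) ∪ w '' Set.Iic k) ∧
      (∀ i ∈ Set.Ico k (k + r + 1), ∀ j ∈ Set.Ico k (k + r + 1),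
        Bg T (sq v q i) (sq v q j) (q k) = 0) ∧
      (∀ a ≤ k, ∀ b ≤ k, Bg T (w a) (w b) (q k) = 0) ∧
      (∀ b < k, ∀ a ≤ b, Bg T (w a) (q b) (q k) = 0) ∧
      (∀ i ∈ Set.Ico k (k + r + 1), Bg T (sq v q i) (q k) (q k) = 0) ∧
      (∀ a ≤ k, Bg T (w a) (q k) (q k) = 0) := by
    intro m
    induction m with
    | zero =>
      intro _
      exact ⟨fun _ => 0, fun k hk => absurd hk (by omega)⟩
    | succ m ih =>
      intro hm
      obtain ⟨q, hq⟩ := ih (by omega)
      let s : Fin (r + 1) ⊕ Fin (m + 1) → Fin N → K :=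
        Sum.elim (fun l : Fin (r + 1) => sq v q (m + l)) fun a : Fin (m + 1) => w a
      let L : Sym2 (Fin (r + 1)) ⊕ (Fin (m + 1) × Fin (m + 1)) → (Fin N → K) →ₗ[K] K :=
        Sum.elim (L2 hT fun l : Fin (r + 1) => sq v q (m + l)) fun p =>
          if (p.1 : ℕ) ≤ p.2 then lf T (w p.1) (w p.2) else lf T (w p.2) (q (p.1 - 1))
      have hcι : Fintype.card (Fin (r + 1) ⊕ Fin (m + 1)) = r + 1 + (m + 1) := by
        rw [Fintype.card_sum, Fintype.card_fin, Fintype.card_fin]
      have hcκ : Fintype.card (Sym2 (Fin (r + 1)) ⊕ (Fin (m + 1) × Fin (m + 1))) =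
          (r + 1) * (r + 2) / 2 + (m + 1) * (m + 1) := by
        rw [Fintype.card_sum, Fintype.card_prod, Sym2.card, Nat.choose_two_right,
          Fintype.card_fin, Fintype.card_fin]
        congr 2
        rw [Nat.mul_comm]
        rfl
      obtain ⟨u, hu1, hu2, hu3⟩ := q_gen2 (T := T) ρ htr s L (by
        rw [hcι, hcκ]
        have g1 : (m + 1) * (m + 1) ≤ (r + 1) * (r + 1) := Nat.mul_le_mul hm hm
        have g2 : (r + 1 + (m + 1)) * 2 ^ ρ ≤ 2 * (r + 1) * 2 ^ ρ :=
          Nat.mul_le_mul_right _ (by omega)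
        omega)
      have hr : Set.range s = sq v q '' Set.Ico m (m + r + 1) ∪ w '' Set.Iic m := by
        rw [Set.Sum.elim_range]
        congr 1
        · ext x
          constructor
          · rintro ⟨l, rfl⟩
            have := l.2
            exact ⟨m + l, ⟨by omega, by omega⟩, rfl⟩
          · rintro ⟨i, ⟨h1, h2⟩, rfl⟩
            refine ⟨⟨i - m, by omega⟩, ?_⟩
            have e1 : m + (i - m) = i := by omega
            simp only [e1]
        · ext x
          constructor
          · rintro ⟨l, rfl⟩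
            exact ⟨l, Nat.lt_succ_iff.1 l.2, rfl⟩
          · rintro ⟨i, h1, rfl⟩
            exact ⟨⟨i, Nat.lt_succ_iff.2 h1⟩, rfl⟩
      have hupd : ∀ i < m, Function.update q m u i = q i := by
        intro i hi
        rw [Function.update_of_ne]
        omega
      have hsq : ∀ i < m + r + 1, sq v (Function.update q m u) i = sq v q i := by
        intro i hi
        by_cases h : i < r + 1
        · rw [sq_v _ _ _ h, sq_v _ _ _ h]
        · rw [sq_q _ _ _ (by omega), sq_q _ _ _ (by omega)]
          exact hupd _ (by omega)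
      have himg : ∀ k ≤ m, sq v (Function.update q m u) '' Set.Ico k (k + r + 1) =
          sq v q '' Set.Ico k (k + r + 1) := by
        intro k hk
        refine Set.image_congr fun i hi => hsq i ?_
        have := hi.2
        omega
      have hmem : ∀ i ∈ Set.Ico m (m + r + 1), ∃ l : Fin (r + 1), i = m + l := by
        rintro i ⟨h1, h2⟩
        exact ⟨⟨i - m, by omega⟩, by simp only; omega⟩
      refine ⟨Function.update q m u, fun k hk => ?_⟩
      rw [himg k (by omega)]
      by_cases hkm : k = m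
      · subst hkm
        rw [Function.update_self]
        refine ⟨?_, ?_, ?_, ?_, ?_, ?_⟩
        · rw [← hr]
          exact hu1
        · intro i hi j hj
          rw [hsq i hi.2, hsq j hj.2]
          obtain ⟨a, rfl⟩ := hmem i hi
          obtain ⟨b, rfl⟩ := hmem j hj
          exact hu2 (Sum.inl s(a, b))
        · have h1 : ∀ a ≤ k, ∀ b ≤ k, a ≤ b → Bg T (w a) (w b) u = 0 := by
            intro a ha b hb hab
            have h2 := hu2 (Sum.inr (⟨a, by omega⟩, ⟨b, by omega⟩))
            simp only [L, Sum.elim_inr] at h2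
            rw [if_pos hab] at h2
            exact h2
          intro a ha b hb
          rcases le_total a b with hab | hab
          · exact h1 a ha b hb hab
          · rw [Bg_swap12 hT]
            exact h1 b hb a ha hab
        · intro b hb a ha
          have h2 := hu2 (Sum.inr (⟨b + 1, by omega⟩, ⟨a, by omega⟩))
          simp only [L, Sum.elim_inr] at h2
          rw [if_neg (by omega)] at h2
          rw [hupd b hb]
          exact h2
        · intro i hi
          rw [hsq i hi.2]
          obtain ⟨a, rfl⟩ := hmem i hi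
          exact hu3 (Sum.inl a)
        · intro a ha
          exact hu3 (Sum.inr ⟨a, by omega⟩)
      · have hkm' : k < m := by omega
        obtain ⟨h1, h2, h3, h4, h5, h6⟩ := hq k hkm'
        rw [Function.update_of_ne hkm]
        refine ⟨h1, ?_, h3, ?_, ?_, h6⟩
        · intro i hi j hj
          rw [hsq i (by have := hi.2; omega), hsq j (by have := hj.2; omega)]
          exact h2 i hi j hj
        · intro b hb a ha
          rw [hupd b (by omega)]
          exact h4 b hb a ha
        · intro i hi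
          rw [hsq i (by have := hi.2; omega)]
          exact h5 i hi
  exact key (r + 1) le_rfl

/-- polar values of a sequence of vectors -/
theorem pol1 {N : ℕ} {T : Fin N → Fin N → Fin N → ℂ} (hT : SymG T) {K : Type} [Field K]
    [Algebra ℂ K] (W : ℕ → Set (Fin N → K)) (q : ℕ → Fin N → K) (m : ℕ)
    (hW0 : ∀ x ∈ W 0, ∀ y ∈ W 0, ∀ z ∈ W 0, Bg T x y z = 0)
    (hW : ∀ k < m, W (k + 1) ⊆ insert (q k) (W k))
    (hq2 : ∀ k < m, ∀ x ∈ W k, ∀ y ∈ W k, Bg T x y (q k) = 0)
    (hq3 : ∀ k < m, ∀ x ∈ W k, Bg T x (q k) (q k) = 0) :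
    ∀ k ≤ m, (∀ j < k, Bg T (q j) (q j) (q j) = 0) → ∀ x ∈ W k,
      ∀ y ∈ W k, ∀ z ∈ W k, Bg T x y z = 0 := by
  intro k
  induction k with
  | zero =>
    intro _ _
    exact hW0
  | succ k ih =>
    intro hk hc x hx y hy z hz
    have h1 := hW k (by omega)
    have ih' := ih (by omega) (fun j hj => hc j (by omega))
    have h2 := hq2 k (by omega)
    have h3 := hq3 k (by omega)
    rcases h1 hx with rfl | hx <;> rcases h1 hy with rfl | hy <;> rcases h1 hz with rfl | hz
    · exact hc k (by omega)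
    · rw [Bg_swap23 hT, Bg_swap12 hT]
      exact h3 z hz
    · rw [Bg_swap12 hT]
      exact h3 y hy
    · rw [Bg_swap12 hT, Bg_swap23 hT]
      exact h2 y hy z hz
    · exact h3 x hx
    · rw [Bg_swap23 hT]
      exact h2 x hx z hz
    · exact h2 x hx y hy
    · exact ih' x hx y hy z hz

end Pool.Agent.K9h4.RH
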