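import Mathlib
import Pool.Agent.K9h4.RH.As2

/-! # The induction step with fewer conditions: conclusion -/

set_option autoImplicit false

namespace Pool.Agent.K9h4.RH

open MvPolynomial Pool.Agent.TH314.PD Module FF IntermediateField Pool.Agent.Y201.C3
open Pool.Agent.R845.T2 Pool.Agent.R845.E3 Pool.Agent.N122

variable {n : ℕ} {F : MvPolynomial (Fin (n + 2)) ℂ}

/-- **The induction step.** -/
theorem ns_step2 (hTD : S_TD) (hRED : S_RED) (hRED3 : S_RED3) (hF : F.IsHomogeneous 3)
    (hsm : Sm F) {T : Fin (n + 2) → Fin (n + 2) → Fin (n + 2) → ℂ} (hT : SymG T)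
    (hFT : F = Bg T X X X) (ρ r : ℕ) (hN1 : NS T ρ (r + 1)) (hN2 : NS T ρ (r + 2))
    (hnum : (r + 1) * (3 * r + 8) / 2 + 2 * (r + 1) * 2 ^ (ρ + 1) ≤ n + 1) :
    NS T (ρ + 1) (r + 1) := by
  classical
  intro K _ _ htr v hv hPz
  have g0 : (r + 1) * (3 * r + 8) / 2 =
      (r + 1) * (r + 2) / 2 + (r + 1) * (r + 1) + 2 * (r + 1) := by
    have e1 : (r + 1) * (3 * r + 8) = (r + 1) * (r + 2) +
        ((r + 1) * (r + 1) + 2 * (r + 1)) * 2 := by ring
    rw [e1, Nat.add_mul_div_right _ _ (by norm_num : 0 < 2)]
    ring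
  have g1 : r * (r + 1) / 2 ≤ (r + 1) * (r + 2) / 2 :=
    Nat.div_le_div_right (Nat.mul_le_mul (by omega) (by omega))
  have g2 : (r + 1) ≤ (r + 1) * (r + 1) := Nat.le_mul_self _
  obtain ⟨P, hPi, hPP⟩ := exists_const hT r (by omega)
  set w : ℕ → Fin (n + 2) → K := fun i l => algebraMap ℂ K (P i l) with hw
  have hwi : LinearIndependent K (fun l : Fin (r + 1) => w l) := by
    rw [Fintype.linearIndependent_iff]
    intro z hz
    have h1 := indep_ext (fun l : Fin (r + 1) => P l) hPi z (by
      intro i
      have h2 := congrFun hz i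
      rw [Finset.sum_apply] at h2
      exact h2)
    intro i
    rw [h1]
    rfl
  have hwP : ∀ a < r + 1, ∀ b < r + 1, ∀ c < r + 1, Bg T (w a) (w b) (w c) = 0 := by
    intro a ha b hb c hc
    have h1 := map_Bg (Algebra.ofId ℂ K) T (P a) (P b) (P c)
    have h2 := hPP ⟨a, ha⟩ ⟨b, hb⟩ ⟨c, hc⟩
    simp only at h2
    rw [h2, map_zero] at h1
    exact h1.symm
  obtain ⟨q, hq⟩ := exists_q2 hT (ρ + 1) htr r v w (by omega)
  -- the sequence
  set s : ℕ → Fin (n + 2) → K := fun i =>
    if i < 2 * (r + 1) then sq v q i else w (i - 2 * (r + 1)) with hs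
  have s1 : ∀ i < 2 * (r + 1), s i = sq v q i := by
    intro i h
    rw [hs]
    simp only
    rw [if_pos h]
  have s3 : ∀ j, s (2 * (r + 1) + j) = w j := by
    intro j
    rw [hs]
    simp only
    rw [if_neg (by omega)]
    congr 1
    omega
  have sqq : ∀ j, sq v q (r + 1 + j) = q j := by
    intro j
    rw [sq_q _ _ _ (by omega)]
    congr 1
    omega
  have s2 : ∀ j < r + 1, s (r + 1 + j) = q j := by
    intro j hj
    rw [s1 _ (by omega), sqq]
  have h1 := chain hTD hRED hRED3 hF hsm hT hFT ρ r htr hN1 hN2 (2 * (r + 1)) s ?_ ?_ ?_ ?_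
  · have e1 : (fun l : Fin (r + 1) => s l) = v := by
      funext l
      have := l.2
      rw [s1 _ (by omega)]
      exact sq_v v q l l.2
    rw [e1] at h1
    exact h1
  · -- independence of the windows
    intro k hk
    by_cases hkr : k < r + 1
    · have hI : LinearIndepOn K (fun i => sq v q (k + i)) (Set.Iio (r + 1 - k + (k + 1))) := by
        refine ind0 (r + 1 - k) _ ?_ (k + 1) ?_
        · have h2 := hv.comp (fun x : Set.Iio (r + 1 - k) => (⟨k + x, by
            have : (x : ℕ) < r + 1 - k := x.2
            omega⟩ : Fin (r + 1))) (by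
            intro a b hab
            have h3 := congrArg Fin.val hab
            simp only at h3
            exact Subtype.ext (by omega))
          have h3 : (v ∘ fun x : Set.Iio (r + 1 - k) => (⟨k + x, by
            have : (x : ℕ) < r + 1 - k := x.2
            omega⟩ : Fin (r + 1))) = fun x : Set.Iio (r + 1 - k) => sq v q (k + (x : ℕ)) := by
            funext x
            have : (x : ℕ) < r + 1 - k := x.2
            simp only [Function.comp_apply]
            rw [sq_v v q (k + x) (by omega)]
          rw [h3] at h2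
          exact h2
        · intro m hm
          have e1 : k + (r + 1 - k + m) = r + 1 + m := by omega
          simp only [e1, sqq]
          intro hmem
          apply (hq m (by omega)).1
          refine Submodule.span_mono ?_ hmem
          rintro x ⟨i, hi, rfl⟩
          have hi' : i < r + 1 - k + m := hi
          exact Or.inl ⟨k + i, ⟨by omega, by omega⟩, rfl⟩
      refine ind_win _ _ hI _ (fun l : Fin (r + 2) => (l : ℕ)) ?_ ?_ ?_
      · intro a b hab
        exact Fin.ext hab
      · intro l
        have := l.2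
        omega
      · intro l
        have hl := l.2
        exact s1 _ (by omega)
    · obtain ⟨j, rfl⟩ : ∃ j, k = r + 1 + j := ⟨k - (r + 1), by omega⟩
      have hI : LinearIndepOn K (fun i => if i < j + 1 then w i else q (i - 1))
          (Set.Iio (j + 1 + (r + 1 - j))) := by
        refine ind0 (j + 1) _ ?_ (r + 1 - j) ?_
        · have h2 := hwi.comp (fun x : Set.Iio (j + 1) => (⟨x, by
            have : (x : ℕ) < j + 1 := x.2
            omega⟩ : Fin (r + 1))) (by
            intro a b hab
            exact Subtype.ext (congrArg Fin.val hab))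
          have h3 : ((fun l : Fin (r + 1) => w l) ∘ fun x : Set.Iio (j + 1) => (⟨x, by
            have : (x : ℕ) < j + 1 := x.2
            omega⟩ : Fin (r + 1))) = fun x : Set.Iio (j + 1) =>
              (fun i => if i < j + 1 then w i else q (i - 1)) (x : ℕ) := by
            funext x
            have : (x : ℕ) < j + 1 := x.2
            simp only [Function.comp_apply]
            rw [if_pos this]
          rw [h3] at h2
          exact h2
        · intro m hm
          rw [if_neg (by omega)]
          have e1 : j + 1 + m - 1 = j + m := by omega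
          rw [e1]
          intro hmem
          apply (hq (j + m) (by omega)).1
          refine Submodule.span_mono ?_ hmem
          rintro x ⟨i, hi, rfl⟩
          have hi' : i < j + 1 + m := hi
          simp only
          by_cases h : i < j + 1
          · rw [if_pos h]
            exact Or.inr ⟨i, by
              simp only [Set.mem_Iic]
              omega, rfl⟩
          · rw [if_neg h]
            refine Or.inl ⟨r + 1 + (i - 1), ⟨by omega, by omega⟩, sqq _⟩
      refine ind_win _ _ hI _ (fun l : Fin (r + 2) =>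
        if (l : ℕ) < r + 1 - j then j + l + 1 else l - (r + 1 - j)) ?_ ?_ ?_
      · intro a b hab
        have ha := a.2
        have hb := b.2
        simp only at hab
        apply Fin.ext
        split_ifs at hab <;> omega
      · intro l
        have := l.2
        split_ifs <;> omega
      · intro l
        have hl := l.2
        by_cases h : (l : ℕ) < r + 1 - j
        · rw [if_pos h, if_neg (by omega)]
          have h2 := s2 (j + l) (by omega)
          have e1 : r + 1 + (j + l) = r + 1 + j + l := by omega
          have e2 : j + (l : ℕ) + 1 - 1 = j + l := by omega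
          rw [e1] at h2
          rw [e2]
          exact h2
        · rw [if_neg h, if_pos (by omega)]
          have h2 := s3 (l - (r + 1 - j))
          have e1 : 2 * (r + 1) + ((l : ℕ) - (r + 1 - j)) = r + 1 + j + l := by omega
          rw [e1] at h2
          exact h2
  · -- polar values of the windows
    intro k hk hc i j l hne
    by_cases hkr : k < r + 1
    · have hc' : ∀ j < k, Bg T (q j) (q j) (q j) = 0 := by
        intro j hj
        rw [← s2 j (by omega)]
        exact hc _ (by omega)
      have hQ := pol1 hT (fun k => sq v q '' Set.Ico k (k + r + 1)) q (r + 1) (by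
          rintro _ ⟨a, ha, rfl⟩ _ ⟨b, hb, rfl⟩ _ ⟨c, hc, rfl⟩
          rw [sq_v v q a (by have := ha.2; omega), sq_v v q b (by have := hb.2; omega),
            sq_v v q c (by have := hc.2; omega)]
          exact hPz _ _ _) (by
          rintro m hm _ ⟨a, ⟨ha1, ha2⟩, rfl⟩
          by_cases h : a = r + 1 + m
          · left
            rw [h, sqq]
          · right
            exact ⟨a, ⟨by omega, by omega⟩, rfl⟩) (by
          rintro m hm _ ⟨a, ha, rfl⟩ _ ⟨b, hb, rfl⟩
          exact (hq m hm).2.1 a ha b hb) (by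
          rintro m hm _ ⟨a, ha, rfl⟩
          exact (hq m hm).2.2.2.2.1 a ha) k (by omega) hc'
      have hlast : s (k + (Fin.last (r + 1) : Fin (r + 2))) = q k := by
        have h2 := s2 k hkr
        rw [Fin.val_last, Nat.add_comm k]
        exact h2
      have hm : ∀ i : Fin (r + 2), i ≠ Fin.last (r + 1) →
          ∃ a ∈ Set.Ico k (k + r + 1), s (k + i) = sq v q a := by
        intro i hi
        have hi' : (i : ℕ) < r + 1 := by
          have h3 := i.2
          have h4 : (i : ℕ) ≠ r + 1 := fun h => hi (Fin.ext h)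
          omega
        exact ⟨k + i, ⟨by omega, by omega⟩, s1 _ (by omega)⟩
      have h2 := (hq k hkr).2.1
      have h3 := (hq k hkr).2.2.2.2.1
      by_cases hi : i = Fin.last (r + 1) <;> by_cases hj : j = Fin.last (r + 1) <;>
        by_cases hl : l = Fin.last (r + 1)
      · exact absurd ⟨hi, hj, hl⟩ hne
      · obtain ⟨c, hc1, hc2⟩ := hm l hl
        rw [hi, hj, hlast, hc2, Bg_swap23 hT, Bg_swap12 hT]
        exact h3 c hc1
      · obtain ⟨b, hb1, hb2⟩ := hm j hj
        rw [hi, hl, hlast, hb2, Bg_swap12 hT]
        exact h3 b hb1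
      · obtain ⟨b, hb1, hb2⟩ := hm j hj
        obtain ⟨c, hc1, hc2⟩ := hm l hl
        rw [hi, hlast, hb2, hc2, Bg_swap12 hT, Bg_swap23 hT]
        exact h2 b hb1 c hc1
      · obtain ⟨a, ha1, ha2⟩ := hm i hi
        rw [hj, hl, hlast, ha2]
        exact h3 a ha1
      · obtain ⟨a, ha1, ha2⟩ := hm i hi
        obtain ⟨c, hc1, hc2⟩ := hm l hl
        rw [hj, hlast, ha2, hc2, Bg_swap23 hT]
        exact h2 a ha1 c hc1
      · obtain ⟨a, ha1, ha2⟩ := hm i hi
        obtain ⟨b, hb1, hb2⟩ := hm j hj
        rw [hl, hlast, ha2, hb2]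
        exact h2 a ha1 b hb1
      · obtain ⟨a, ha1, ha2⟩ := hm i hi
        obtain ⟨b, hb1, hb2⟩ := hm j hj
        obtain ⟨c, hc1, hc2⟩ := hm l hl
        rw [ha2, hb2, hc2]
        exact hQ _ ⟨a, ha1, rfl⟩ _ ⟨b, hb1, rfl⟩ _ ⟨c, hc1, rfl⟩
    · obtain ⟨m, rfl⟩ : ∃ m, k = r + 1 + m := ⟨k - (r + 1), by omega⟩
      have hc' : ∀ j < r + 1 - m, Bg T (q (m + j)) (q (m + j)) (q (m + j)) = 0 := by
        intro j hj
        rw [← s2 (m + j) (by omega)]
        exact hc _ (by omega)
      have hQ := pol1 hT (fun i => w '' Set.Iic m ∪ q '' Set.Ico m (m + i)) (fun i => q (m + i))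
        (r + 1 - m) (by
          intro x hx y hy z hz
          simp only [Nat.add_zero, Set.Ico_self, Set.image_empty, Set.union_empty] at hx hy hz
          obtain ⟨a, ha, rfl⟩ := hx
          obtain ⟨b, hb, rfl⟩ := hy
          obtain ⟨c, hc, rfl⟩ := hz
          have ha' : a ≤ m := ha
          have hb' : b ≤ m := hb
          have hc' : c ≤ m := hc
          exact hwP a (by omega) b (by omega) c (by omega)) (by
          rintro i hi x (hx | ⟨a, ⟨ha1, ha2⟩, rfl⟩)
          · exact Or.inr (Or.inl hx)
          · by_cases h : a = m + i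
            · left
              rw [h]
            · right
              exact Or.inr ⟨a, ⟨ha1, by omega⟩, rfl⟩) (by
          intro i hi x hx y hy
          obtain ⟨-, p1, p2, p3, -, -⟩ := hq (m + i) (by omega)
          rcases hx with ⟨a, ha, rfl⟩ | ⟨a, ⟨ha1, ha2⟩, rfl⟩ <;>
            rcases hy with ⟨b, hb, rfl⟩ | ⟨b, ⟨hb1, hb2⟩, rfl⟩
          · have ha' : a ≤ m := ha
            have hb' : b ≤ m := hb
            exact p2 a (by omega) b (by omega)
          · have ha' : a ≤ m := ha
            exact p3 b hb2 a (by omega)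
          · have hb' : b ≤ m := hb
            rw [Bg_swap12 hT]
            exact p3 a ha2 b (by omega)
          · rw [← sqq a, ← sqq b]
            exact p1 _ ⟨by omega, by omega⟩ _ ⟨by omega, by omega⟩) (by
          intro i hi x hx
          obtain ⟨-, -, -, -, p4, p5⟩ := hq (m + i) (by omega)
          rcases hx with ⟨a, ha, rfl⟩ | ⟨a, ⟨ha1, ha2⟩, rfl⟩
          · have ha' : a ≤ m := ha
            exact p5 a (by omega)
          · rw [← sqq a]
            exact p4 _ ⟨by omega, by omega⟩) (r + 1 - m) le_rfl hc'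
      have hm : ∀ i : Fin (r + 2),
          s (r + 1 + m + i) ∈ w '' Set.Iic m ∪ q '' Set.Ico m (m + (r + 1 - m)) := by
        intro i
        have hi' := i.2
        by_cases h : m + (i : ℕ) < r + 1
        · have h2 := s2 (m + i) h
          have e1 : r + 1 + (m + i) = r + 1 + m + i := by omega
          rw [e1] at h2
          rw [h2]
          exact Or.inr ⟨m + i, ⟨by omega, by omega⟩, rfl⟩
        · have h2 := s3 (m + i - (r + 1))
          have e1 : 2 * (r + 1) + (m + i - (r + 1)) = r + 1 + m + i := by omega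
          rw [e1] at h2
          rw [h2]
          exact Or.inl ⟨m + i - (r + 1), by
            simp only [Set.mem_Iic]
            omega, rfl⟩
      exact hQ _ (hm i) _ (hm j) _ (hm l)
  · -- the end
    intro _
    have h2 := base hsm hT hFT (K := K) (r := r + 1) (by
      have e0 : (r + 1) * (r + 1 + 1) = (r + 1) * (r + 2) := rfl
      rw [e0]
      omega) (fun l : Fin (r + 1) => P l) hPP
    have e1 : (fun l : Fin (r + 1) => s (2 * (r + 1) + l)) =
        fun (l : Fin (r + 1)) i => algebraMap ℂ K (P l i) := by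
      funext l
      exact s3 l
    rw [e1]
    exact h2
  · intro i hi
    rw [s1 i (by omega), sq_v v q i hi]
    exact hPz _ _ _

/-- **Points of subvarieties**: all values of the parameters. -/
theorem ns_all2 (hTD : S_TD) (hRED : S_RED) (hRED3 : S_RED3) (hF : F.IsHomogeneous 3)
    (hsm : Sm F) {T : Fin (n + 2) → Fin (n + 2) → Fin (n + 2) → ℂ} (hT : SymG T)
    (hFT : F = Bg T X X X) (ρ : ℕ) : ∀ r : ℕ,
    (∀ j < ρ, (r + j + 1) * (3 * (r + j) + 8) / 2 + 2 * (r + j + 1) * 2 ^ (ρ - j) ≤ n + 1) →
    (ρ + r + 1) + (ρ + r + 1) * (ρ + r + 2) / 2 ≤ n + 1 → NS T ρ (r + 1) := by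
  induction ρ with
  | zero =>
    intro r _ h
    refine ns_zero hsm hT hFT ?_
    simpa using h
  | succ ρ ih =>
    intro r h1 h2
    refine ns_step2 hTD hRED hRED3 hF hsm hT hFT ρ r (ih r ?_ ?_) (ih (r + 1) ?_ ?_) ?_
    · intro j hj
      have h3 := h1 j (by omega)
      have h4 : 2 * (r + j + 1) * 2 ^ (ρ - j) ≤ 2 * (r + j + 1) * 2 ^ (ρ + 1 - j) :=
        Nat.mul_le_mul_left _ (Nat.pow_le_pow_right (by norm_num) (by omega))
      omega
    · have h3 : (ρ + r + 1) * (ρ + r + 2) / 2 ≤ (ρ + 1 + r + 1) * (ρ + 1 + r + 2) / 2 :=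
        Nat.div_le_div_right (Nat.mul_le_mul (by omega) (by omega))
      omega
    · intro j hj
      have h3 := h1 (j + 1) (by omega)
      have e1 : r + (j + 1) = r + 1 + j := by omega
      have e2 : ρ + 1 - (j + 1) = ρ - j := by omega
      rw [e1, e2] at h3
      exact h3
    · have e1 : ρ + (r + 1) + 1 = ρ + 1 + r + 1 := by omega
      have e2 : ρ + (r + 1) + 2 = ρ + 1 + r + 2 := by omega
      rw [e1, e2]
      exact h2
    · have h3 := h1 0 (by omega)
      simpa using h3

end Pool.Agent.K9h4.RH
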