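import Mathlib
import Pool.Agent.K9h4.QuadFam
import Pool.Agent.K9h4.RH.Asm

/-! # Chords and quadratic families through points of subvarieties -/

set_option autoImplicit false

namespace Pool.Agent.K9h4.RH

open MvPolynomial Pool.Agent.TH314.PD Module Pool.Agent.Y201.C3 IntermediateField
open Pool.Agent.R845.T2 Pool.Agent.R845.E3 Pool.Agent.N122

noncomputable section

variable {n : ℕ} {F : MvPolynomial (Fin (n + 2)) ℂ} {M : Type} [Field M] [Algebra ℂ M]

/-- **The generic point of a chord through a point of a subvariety is not of odd degree.** -/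
theorem ns_not_special {T : Fin (n + 2) → Fin (n + 2) → Fin (n + 2) → ℂ} (hFT : F = Bg T X X X)
    (ρ : ℕ) (hNS : NS T ρ 1) (x c : Fin (n + 2) → M) (hx : aeval x F = 0) (hc : c ≠ 0)
    (hcF : aeval c F = 0) (htr : Algebra.trdeg ℂ (ratioField c) ≤ (ρ : Cardinal)) :
    ¬ Special x c := by
  classical
  rintro ⟨hgen, hodd⟩
  have hev : ∀ {R : Type} [CommRing R] [Algebra ℂ R] (v : Fin (n + 2) → R),
      aeval v F = Bg T v v v := by
    intro R _ _ v
    conv_lhs => rw [hFT]
    exact aeval_frmG T v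
  obtain ⟨i₀, hi₀⟩ := Function.ne_iff.1 hc
  rw [Pi.zero_apply] at hi₀
  let d : Fin (n + 2) → ratioField c := fun i => ⟨c i / c i₀, subset_adjoin _ _ ⟨i, i₀, rfl⟩⟩
  have hd : d ≠ 0 := by
    intro h
    have h1 := congrArg Subtype.val (congrFun h i₀)
    change c i₀ / c i₀ = 0 at h1
    rw [div_self hi₀] at h1
    exact one_ne_zero h1
  have hdd : Bg T d d d = 0 := by
    apply Subtype.ext
    have h1 := map_Bg (ratioField c).val T d d d
    change (ratioField c).val (Bg T d d d) = 0
    rw [h1]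
    have h2 : (fun i => (ratioField c).val (d i)) = fun i => (c i₀)⁻¹ * c i := by
      funext i
      change c i / c i₀ = _
      rw [div_eq_inv_mul]
    rw [h2, Bg_smul1, Bg_smul2, Bg_smul3, ← hev, hcF]
    ring
  let f : M →ₐ[ℂ] FractionRing (Polynomial M) := (IsScalarTower.toAlgHom ℂ (Polynomial M)
      (FractionRing (Polynomial M))).comp (Polynomial.CAlgHom : M →ₐ[ℂ] Polynomial M)
  refine hNS (ratioField c) htr (fun _ => d) ?_ ?_ (FractionRing (Polynomial M))
    (f.comp (ratioField c).val) (gl x c) hgen hodd (fun _ =>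
      algebraMap (Polynomial M) (FractionRing (Polynomial M))
        (Polynomial.X * Polynomial.C (c i₀))) ?_
  · rw [Fintype.linearIndependent_iff]
    intro g hg i
    rw [Finset.univ_unique, Finset.sum_singleton] at hg
    rw [Subsingleton.elim i default]
    exact (smul_eq_zero.1 hg).resolve_right hd
  · intro _ _ _
    exact hdd
  · have h5 : (fun i => gl x c i - ∑ _l : Fin 1, algebraMap (Polynomial M)
        (FractionRing (Polynomial M)) (Polynomial.X * Polynomial.C (c i₀)) *
          (f.comp (ratioField c).val) (d i)) = fun i => f (x i) := by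
      funext i
      rw [Finset.univ_unique, Finset.sum_singleton]
      have h6 : (f.comp (ratioField c).val) (d i) =
          algebraMap (Polynomial M) (FractionRing (Polynomial M)) (Polynomial.C (c i / c i₀)) :=
        rfl
      rw [h6, ← map_mul]
      unfold gl
      rw [← map_sub]
      change _ = algebraMap (Polynomial M) (FractionRing (Polynomial M)) (Polynomial.C (x i))
      congr 1
      rw [mul_assoc, ← Polynomial.C_mul, mul_div_cancel₀ _ hi₀]
      ring
    rw [h5, ← map_Bg f, ← hev, hx, map_zero]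

/-- the numerical condition -/
def Num (n ρ : ℕ) : Prop :=
  ρ < n ∧ ∀ j < ρ, (3 * j + 2) * (3 * j + 5) / 2 + (3 * j + 2) * 2 ^ (ρ - j) ≤ n + 1

theorem num_of_le (n ρ : ℕ) (h : 3 * 2 ^ ρ + 5 * ρ ^ 2 ≤ n) : Num n ρ := by
  refine ⟨?_, ?_⟩
  · have h1 : ρ < 2 ^ ρ := Nat.lt_two_pow_self
    omega
  · intro j hj
    have h1 : (3 * j + 2) * 2 ^ (ρ - j) ≤ 3 * 2 ^ ρ := by
      have e1 : 2 ^ ρ = 2 ^ j * 2 ^ (ρ - j) := by
        rw [← pow_add]
        congr 1
        omega
      rw [e1, ← Nat.mul_assoc]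
      exact Nat.mul_le_mul_right _ (three_pow j)
    obtain ⟨i, rfl⟩ : ∃ i, ρ = j + 1 + i := ⟨ρ - j - 1, by omega⟩
    have h2 : (3 * j + 2) * (3 * j + 5) / 2 ≤ 5 * (j + 1 + i) ^ 2 + 1 := by
      have h3 : (3 * j + 2) * (3 * j + 5) / 2 * 2 ≤ (3 * j + 2) * (3 * j + 5) :=
        Nat.div_mul_le_self _ _
      nlinarith [Nat.zero_le (j * i), Nat.zero_le (i * i), Nat.zero_le (j * j)]
    omega

theorem ns_num (hTD : S_TD) (hRED : S_RED) (hRED3 : S_RED3) (hF : F.IsHomogeneous 3)
    (hsm : Sm F) {T : Fin (n + 2) → Fin (n + 2) → Fin (n + 2) → ℂ} (hT : SymG T)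
    (hFT : F = Bg T X X X) (ρ : ℕ) (hn : Num n ρ) : NS T ρ 1 := by
  refine ns_all hTD hRED hRED3 hF hsm hT hFT ρ 0 ?_ ?_
  · intro j hj
    have h1 := hn.2 j hj
    have e1 : (3 * j + 2) * (3 * j + 5) / 2 = (3 * j + 2) * (3 * j + 3) / 2 + (3 * j + 2) := by
      rw [← Nat.add_mul_div_left _ _ (by norm_num : 0 < 2)]
      congr 1
      ring
    rw [Nat.zero_add]
    omega
  · have h1 := hn.1
    rcases Nat.eq_zero_or_pos ρ with rfl | hρ
    · omega
    · obtain ⟨i, rfl⟩ : ∃ i, ρ = i + 1 := ⟨ρ - 1, by omega⟩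
      have h2 := hn.2 i (by omega)
      have e1 : i + 1 - i = 1 := by omega
      rw [e1] at h2
      have h3 : (i + 1 + 0 + 1) * (i + 1 + 0 + 2) / 2 * 2 ≤
          (i + 1 + 0 + 1) * (i + 1 + 0 + 2) := Nat.div_mul_le_self _ _
      have h4 : (3 * i + 2) * (3 * i + 5) < ((3 * i + 2) * (3 * i + 5) / 2 + 1) * 2 := by
        have := Nat.lt_div_mul_add (a := (3 * i + 2) * (3 * i + 5)) (b := 2) (by norm_num)
        omega
      nlinarith

/-- the cases -/
def Cs {n : ℕ} (F : MvPolynomial (Fin (n + 2)) ℂ) (ρ : ℕ) : Prop :=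
  (ρ = 1 ∧ 4 ≤ n ∧ (n = 4 → ∀ A : Fin 3 → Fin (n + 2) → ℂ, LinearIndependent ℂ A →
      ¬ ∀ a : Fin 3 → ℂ, eval (fun i => ∑ l, a l * A l i) F = 0)) ∨ Num n ρ

theorem sub_not_special (hTD : S_TD) (hRED : S_RED) (hRED3 : S_RED3) (ρ : ℕ) (hcs : Cs F ρ)
    (hF : F.IsHomogeneous 3) (hsm : Sm F) (x c : Fin (n + 2) → M) (hx : aeval x F = 0)
    (hc : c ≠ 0) (hcF : aeval c F = 0)
    (htr : Algebra.trdeg ℂ (ratioField c) ≤ (ρ : Cardinal)) : ¬ Special x c := by
  rcases hcs with ⟨rfl, hn, hpl⟩ | hn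
  · exact curve_not_special hn hF hsm hpl x c hx hc hcF (by simpa using htr)
  · obtain ⟨T, hT, hFT⟩ := exists_tri F hF
    exact ns_not_special hFT ρ (ns_num hTD hRED hRED3 hF hsm hT hFT ρ hn) x c hx hc hcF htr

theorem sub_not_gp (ρ : ℕ) (hcs : Cs F ρ) (hF : F.IsHomogeneous 3) (hsm : Sm F)
    (c : Fin (n + 2) → M) (htr : Algebra.trdeg ℂ (ratioField c) ≤ (ρ : Cardinal)) : ¬ Gp F c := by
  intro h
  have h1 := (gp_trdeg hF (ne_zero_of_smooth (m := n + 1) hsm) c h).trans htr
  have h2 : n ≤ ρ := by exact_mod_cast h1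
  rcases hcs with ⟨rfl, hn, -⟩ | hn
  · omega
  · have h3 := hn.1
    omega

/-- **Chords through points of subvarieties.** -/
theorem sub_chord (hTD : S_TD) (hRED : S_RED) (hRED3 : S_RED3) (ρ : ℕ) (hcs : Cs F ρ)
    (hF : F.IsHomogeneous 3) (hsm : Sm F) (x c : Fin (n + 2) → M) (hG : Gp F x)
    (hodd : Odd (finrank (ratioField x) M)) (hc : c ≠ 0) (hcF : aeval c F = 0)
    (htr : Algebra.trdeg ℂ (ratioField c) ≤ (ρ : Cardinal)) (s t : M) (hs : s ≠ 0)
    (hst : aeval (fun j => s * x j + t * c j) F = 0) :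
    Gp F (fun j => s * x j + t * c j) ∧
      Odd (finrank (ratioField fun j => s * x j + t * c j) M) := by
  have hpn := sub_not_gp ρ hcs hF hsm c htr
  exact chord_of hF hsm x c hG hodd (indep_of_not_gp hF x c hG hodd hc hpn) hpn hcF
    (sub_not_special hTD hRED hRED3 ρ hcs hF hsm x c hG.1 hc hcF htr) s t hs hst

/-- **Conics through points of subvarieties.** -/
theorem sub_conic (hTD : S_TD) (hRED : S_RED) (hRED3 : S_RED3) (ρ : ℕ) (hcs : Cs F ρ)
    (hF : F.IsHomogeneous 3) (hsm : Sm F) (x c β : Fin (n + 2) → M) (hG : Gp F x)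
    (hodd : Odd (finrank (ratioField x) M)) (hc : c ≠ 0)
    (htr : Algebra.trdeg ℂ (ratioField c) ≤ (ρ : Cardinal))
    (h : ∀ t : M, aeval (fun j => t ^ 2 * c j + t * β j + x j) F = 0) : False := by
  classical
  have : CharZero M := charZero_of_injective_algebraMap (algebraMap ℂ M).injective
  obtain ⟨T, hT, hFT⟩ := exists_tri F hF
  have hev : ∀ {R : Type} [CommRing R] [Algebra ℂ R] (v : Fin (n + 2) → R),
      aeval v F = Bg T v v v := by
    intro R _ _ v
    conv_lhs => rw [hFT]
    exact aeval_frmG T v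
  have hpn := sub_not_gp ρ hcs hF hsm c htr
  -- the point at infinity of the conic is on the cubic
  have hcF : aeval c F = 0 := by
    have hz := coeffs_zero' (M := M) ![Bg T x x x, 3 * Bg T β x x,
      3 * Bg T c x x + 3 * Bg T β β x, 6 * Bg T c β x + Bg T β β β,
      3 * Bg T c c x + 3 * Bg T c β β, 3 * Bg T c c β, Bg T c c c] (by
        intro t
        have h1 := Bg_span3 hT c β x (t ^ 2) t (1 : M)
        have h2 : (fun i => t ^ 2 * c i + t * β i + 1 * x i) =
            fun i => t ^ 2 * c i + t * β i + x i := by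
          funext i
          ring
        rw [h2, ← hev, h t] at h1
        simp only [Fin.sum_univ_succ, Fin.sum_univ_zero]
        simp
        linear_combination -h1)
    have h6 : Bg T c c c = 0 := hz 6
    rw [hev, h6]
  exact conic_of hF hsm x c β hG hodd (indep_of_not_gp hF x c hG hodd hc hpn) hpn hcF
    (sub_not_special hTD hRED hRED3 ρ hcs hF hsm x c hG.1 hc hcF htr) h

/-- **Quadratic families with a point of a subvariety.** -/
theorem sub_family (hTD : S_TD) (hRED : S_RED) (hRED3 : S_RED3) (ρ : ℕ) (hcs : Cs F ρ)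
    (hF : F.IsHomogeneous 3) (hsm : Sm F)
    {N : ℕ} (Q : Fin (n + 2) → MvPolynomial (Fin N) M) (hQ : ∀ i, (Q i).totalDegree ≤ 2)
    (hQF : aeval Q F = 0) (u v : Fin N → M) (hu : (fun i => eval u (Q i)) ≠ 0)
    (htr : Algebra.trdeg ℂ (ratioField fun i => eval u (Q i)) ≤ (ρ : Cardinal))
    (hG : Gp F fun i => eval v (Q i)) (hodd : Odd (finrank (ratioField fun i => eval v (Q i)) M)) :
    False := by
  classical
  have : Infinite M := Infinite.of_injective _ (algebraMap ℂ M).injective
  choose H hH hHQ using fun i => hom2 (Q i) (hQ i)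
  -- the homogeneous polynomials give points of the cubic
  have hHF : aeval H F = 0 := by
    have h1 : X 0 * aeval H F = 0 := by
      apply MvPolynomial.funext
      intro y
      rw [map_mul, eval_X, map_zero, aeval_eval]
      by_cases hy : y 0 = 0
      · rw [hy, zero_mul]
      · have h2 : y = Fin.cons (y 0) fun i => y 0 * (y i.succ / y 0) := by
          funext l
          refine Fin.cases ?_ (fun l => ?_) l
          · rw [Fin.cons_zero]
          · rw [Fin.cons_succ, mul_div_cancel₀ _ hy]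
        have h3 : (fun i => eval y (H i)) = fun i => y 0 ^ 2 *
            eval (fun i : Fin N => y i.succ / y 0) (Q i) := by
          funext i
          conv_lhs => rw [h2]
          exact hHQ i _ _
        rw [h3, aeval_smul_form hF, ← aeval_eval, hQF, map_zero, mul_zero, mul_zero]
    exact (mul_eq_zero.1 h1).resolve_left (X_ne_zero _)
  have hev : ∀ (w : Fin N → M) i, eval (Fin.cons 1 w) (H i) = eval w (Q i) := by
    intro w i
    have h1 := hHQ i 1 w
    simp only [one_mul, one_pow] at h1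
    exact h1
  choose β hβ using fun i => quad_line (H i) (hH i) (Fin.cons 1 u) (Fin.cons 1 v)
  refine sub_conic hTD hRED hRED3 ρ hcs hF hsm (fun i => eval v (Q i)) (fun i => eval u (Q i)) β
    hG hodd hu htr fun t => ?_
  have h1 := congrArg (eval (fun l => t * (Fin.cons 1 u : Fin (N + 1) → M) l +
    (Fin.cons 1 v : Fin (N + 1) → M) l)) hHF
  rw [aeval_eval, map_zero] at h1
  rw [← h1]
  congr 2
  funext i
  rw [hβ, hev, hev]

/-- **Quadratic families over subfields.** -/
theorem sub_curve (hTD : S_TD) (hRED : S_RED) (hRED3 : S_RED3) (ρ : ℕ) (hcs : Cs F ρ)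
    (hF : F.IsHomogeneous 3) (hsm : Sm F)
    (L : IntermediateField ℂ M) (hL : Algebra.trdeg ℂ L ≤ (ρ : Cardinal))
    {N : ℕ} (Q : Fin (n + 2) → MvPolynomial (Fin N) L) (hQ : ∀ i, (Q i).totalDegree ≤ 2)
    (hQF : aeval Q F = 0) (v : Fin N → M)
    (hG : Gp F fun i => aeval v (Q i)) (hodd : Odd (finrank (ratioField fun i => aeval v (Q i)) M)) :
    False := by
  classical
  have : Infinite L := Infinite.of_injective _ (algebraMap ℂ L).injective
  have hx0 : aeval v (Q 0) ≠ 0 := coord_ne_zero hF (by norm_num) _ hG.2 (0 : Fin (n + 2))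
  have hQ0 : Q 0 ≠ 0 := by
    intro h
    exact hx0 (by rw [h, map_zero])
  obtain ⟨u, hu⟩ : ∃ u : Fin N → L, eval u (Q 0) ≠ 0 := by
    by_contra hcon
    push Not at hcon
    exact hQ0 (MvPolynomial.funext fun y => by rw [hcon y, map_zero])
  have hv : ∀ i, eval v (map (algebraMap L M) (Q i)) = aeval v (Q i) := by
    intro i
    rw [eval_map, aeval_def]
  have hu' : ∀ i, eval (fun l => algebraMap L M (u l)) (map (algebraMap L M) (Q i)) =
      algebraMap L M (eval u (Q i)) := by
    intro i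
    rw [eval_map]
    exact (eval₂_comp (algebraMap L M) u (Q i)).symm
  have hle : ratioField (fun i => eval (fun l => algebraMap L M (u l))
      (map (algebraMap L M) (Q i))) ≤ L := by
    unfold ratioField
    rw [adjoin_le_iff]
    rintro _ ⟨i, j, rfl⟩
    simp only [hu', ← map_div₀]
    exact (eval u (Q i) / eval u (Q j)).2
  refine sub_family hTD hRED hRED3 ρ hcs hF hsm (fun i => map (algebraMap L M) (Q i))
    (fun i => (Finset.sup_mono (support_map_subset _ _)).trans (hQ i)) ?_ (fun l => algebraMap L M (u l)) v ?_ ?_ ?_ ?_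
  · have h1 := comp_aeval_apply (f := Q) (mapAlgHom (IsScalarTower.toAlgHom ℂ L M) :
      MvPolynomial (Fin N) L →ₐ[ℂ] MvPolynomial (Fin N) M) F
    rw [hQF, map_zero] at h1
    exact h1.symm
  · intro h
    have h1 := congrFun h 0
    rw [hu', Pi.zero_apply, map_eq_zero] at h1
    exact hu h1
  · exact (trdeg_le_of_injective (inclusion hle) (inclusion hle).injective).trans hL
  · have h1 : (fun i => eval v (map (algebraMap L M) (Q i))) = fun i => aeval v (Q i) :=
      funext hv
    rw [h1]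
    exact hG
  · have h1 : (fun i => eval v (map (algebraMap L M) (Q i))) = fun i => aeval v (Q i) :=
      funext hv
    rw [h1]
    exact hodd

end

end Pool.Agent.K9h4.RH
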