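import Mathlib
import Pool.Agent.K9h4.RH.Stm

/-! # Job RED0 -/

set_option autoImplicit false

namespace Pool.Agent.K9h4.RH

open MvPolynomial Pool.Agent.TH314.PD Module FF IntermediateField Pool.Agent.Y201.C3
open Pool.Agent.R845.T2 Pool.Agent.R845.E3 Pool.Agent.N122

/-- independent rows have a nonzero maximal minor -/
theorem red0_minor {N s : ℕ} {K : Type} [Field K] (v : Fin s → Fin N → K)
    (hv : LinearIndependent K v) :
    ∃ σ : Fin s → Fin N, (Matrix.of fun l m => v l (σ m)).det ≠ 0 := by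
  classical
  have h1 : (Matrix.of v).rank = s := by
    have := LinearIndependent.rank_matrix (M := Matrix.of v) hv
    simpa using this
  rw [Matrix.rank_eq_finrank_span_cols] at h1
  obtain ⟨f, hf, -, hli⟩ := Submodule.exists_fun_fin_finrank_span_eq K
    (Set.range (Matrix.of v).col)
  have h2 : ∀ m : Fin s, ∃ i : Fin N, (Matrix.of v).col i = f (Fin.cast h1.symm m) :=
    fun m => hf _
  choose σ hσ using h2
  refine ⟨σ, ?_⟩
  have h3 : LinearIndependent K (fun m : Fin s => f (Fin.cast h1.symm m)) :=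
    hli.comp _ (Fin.cast_injective _)
  have h4 : LinearIndependent K (Matrix.of fun l m => v l (σ m)).col := by
    have : (Matrix.of fun l m => v l (σ m)).col = fun m : Fin s => f (Fin.cast h1.symm m) := by
      funext m
      rw [← hσ m]
      rfl
    rw [this]; exact h3
  have h5 := Matrix.linearIndependent_cols_iff_isUnit.1 h4
  exact ((Matrix.isUnit_iff_isUnit_det _).1 h5).ne_zero

/-- **Job RED0** -/
theorem s_red0 : S_RED0 := by
  classical
  intro N K L _ _ _ _ _ _ w s v hv
  obtain ⟨σ₁, hσ₁⟩ := red0_minor v hv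
  let B : (Fin s → Fin N) → Matrix (Fin s) (Fin s) K := fun σ => Matrix.of fun l m => v l (σ m)
  have hne : (Finset.univ.filter fun σ : Fin s → Fin N => (B σ).det ≠ 0).Nonempty :=
    ⟨σ₁, Finset.mem_filter.2 ⟨Finset.mem_univ _, hσ₁⟩⟩
  obtain ⟨σ, hσ, hmin⟩ := Finset.exists_min_image _
    (fun σ : Fin s → Fin N => w.ord (algebraMap K L (B σ).det)) hne
  have hd : (B σ).det ≠ 0 := (Finset.mem_filter.1 hσ).2
  have hmin' : ∀ τ : Fin s → Fin N, (B τ).det ≠ 0 →
      w.ord (algebraMap K L (B σ).det) ≤ w.ord (algebraMap K L (B τ).det) :=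
    fun τ hτ => hmin τ (Finset.mem_filter.2 ⟨Finset.mem_univ _, hτ⟩)
  have hu : IsUnit (B σ).det := isUnit_iff_ne_zero.2 hd
  refine ⟨fun l i => ∑ m, (B σ)⁻¹ l m * v m i, σ, fun l m => (B σ)⁻¹ l m, fun l m => B σ l m,
    ?_, ?_, fun l i => rfl, ?_⟩
  · intro l i
    -- Cramer's rule
    have h1 : ∑ m, (B σ)⁻¹ l m * v m i = (B σ).det⁻¹ * (B (Function.update σ l i)).det := by
      have h2 : B (Function.update σ l i) = (B σ).updateCol l (fun m => v m i) := by
        ext a b
        rw [Matrix.updateCol_apply]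
        by_cases hb : b = l
        · subst hb; simp [B]
        · simp [B, hb]
      have h3 : ∑ m, (B σ)⁻¹ l m * v m i = ((B σ)⁻¹.mulVec (fun m => v m i)) l := rfl
      rw [h2, ← Matrix.cramer_apply, h3, Matrix.inv_def, Ring.inverse_eq_inv',
        Matrix.smul_mulVec, ← Matrix.cramer_eq_adjugate_mulVec]
      rfl
    show w.Reg (algebraMap K L (∑ m, (B σ)⁻¹ l m * v m i))
    rw [h1]
    by_cases h0 : (B (Function.update σ l i)).det = 0
    · rw [h0, mul_zero, map_zero]; exact w.reg_zero
    · right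
      have hd' : algebraMap K L (B σ).det ≠ 0 := (map_ne_zero _).2 hd
      have h0' : algebraMap K L (B (Function.update σ l i)).det ≠ 0 := (map_ne_zero _).2 h0
      rw [map_mul, map_inv₀, w.ord_mul (inv_ne_zero hd') h0', w.ord_inv]
      have := hmin' _ h0
      omega
  · intro l m
    have h1 : (B σ)⁻¹ * B σ = 1 := Matrix.nonsing_inv_mul _ hu
    have h2 := congrFun (congrFun h1 l) m
    rw [Matrix.mul_apply, Matrix.one_apply] at h2
    exact h2
  · intro l i
    have h1 : B σ * (B σ)⁻¹ = 1 := Matrix.mul_nonsing_inv _ hu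
    simp only [Finset.mul_sum]
    rw [Finset.sum_comm]
    simp only [← mul_assoc, ← Finset.sum_mul]
    have h2 : ∀ m, ∑ k, B σ l k * (B σ)⁻¹ k m = if l = m then 1 else 0 := by
      intro m
      have h3 := congrFun (congrFun h1 l) m
      rw [Matrix.mul_apply, Matrix.one_apply] at h3
      exact h3
    simp [h2]

end Pool.Agent.K9h4.RH
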