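import Mathlib
import Pool.Agent.K9h4.RH.Xch

/-! # Reduction of subspaces (jobs RED and RED3, from RED0) -/

set_option autoImplicit false

namespace Pool.Agent.K9h4.RH

open MvPolynomial Pool.Agent.TH314.PD Module FF IntermediateField Pool.Agent.Y201.C3
open Pool.Agent.R845.T2 Pool.Agent.R845.E3 Pool.Agent.N122

/-- reduction of linear combinations -/
theorem red_lin {L : Type} [Field L] [Algebra ℂ L] (w : Place ℂ L) {ι : Type} (t : Finset ι)
    (a b : ι → L) (ha : ∀ l, w.Reg (a l)) (hb : ∀ l, w.Reg (b l)) :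
    w.Reg (∑ l ∈ t, a l * b l) ∧ w.red (∑ l ∈ t, a l * b l) = ∑ l ∈ t, w.red (a l) * w.red (b l) := by
  classical
  induction t using Finset.induction_on with
  | empty =>
    rw [Finset.sum_empty, Finset.sum_empty]
    exact ⟨w.reg_zero, w.red_zero⟩
  | insert i t hi ih =>
    rw [Finset.sum_insert hi, Finset.sum_insert hi]
    have h1 := w.reg_mul (ha i) (hb i)
    exact ⟨w.reg_add h1 ih.1, by rw [w.red_add h1 ih.1, ih.2, w.red_mul (ha i) (hb i)]⟩

/-- a trilinear form of rank one on a family of vectors -/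
theorem Bg_rank1 {N : ℕ} {T : Fin N → Fin N → Fin N → ℂ} (hT : SymG T) {R : Type} [CommRing R]
    [Algebra ℂ R] {s : ℕ} (u : Fin s → Fin N → R) (g : R) (t : Fin s → R)
    (hu : ∀ i j k, Bg T (u i) (u j) (u k) = g * (t i * t j * t k)) (α β γ : Fin s → R) :
    Bg T (fun i => ∑ l, α l * u l i) (fun i => ∑ l, β l * u l i) (fun i => ∑ l, γ l * u l i) =
      g * ((∑ l, α l * t l) * (∑ l, β l * t l) * (∑ l, γ l * t l)) := by
  rw [Bg_comb hT]
  simp only [hu]
  rw [mul_comm ((∑ l, α l * t l) * (∑ l, β l * t l)), mul_comm (∑ l, α l * t l),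
    Finset.sum_mul, Finset.mul_sum]
  refine Finset.sum_congr rfl fun k _ => ?_
  rw [Finset.sum_mul, Finset.mul_sum, Finset.mul_sum]
  refine Finset.sum_congr rfl fun j _ => ?_
  rw [Finset.mul_sum, Finset.mul_sum, Finset.mul_sum]
  refine Finset.sum_congr rfl fun i _ => ?_
  ring

theorem red_gen (h0 : S_RED0) (N : ℕ) (T : Fin N → Fin N → Fin N → ℂ) (hT : SymG T)
    (K L : Type) [Field K] [Field L] [Algebra ℂ K] [Algebra K L] [Algebra ℂ L]
    [IsScalarTower ℂ K L] (w : Place ℂ L) (s : ℕ) (v : Fin (s + 1) → Fin N → K) (g : K)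
    (hv : LinearIndependent K v)
    (hg : ∀ i j k, Bg T (v i) (v j) (v k) =
      if i = Fin.last s ∧ j = Fin.last s ∧ k = Fin.last s then g else 0)
    (α : Fin (s + 1) → L) (hreg : ∀ i, w.Reg (∑ l, α l * algebraMap K L (v l i))) :
    ∃ (U : Fin (s + 1) → Fin N → NT.kap K w) (t : Fin (s + 1) → NT.kap K w) (G : NT.kap K w)
      (β : Fin (s + 1) → w.RF) (σ : Fin (s + 1) → Fin N) (i₀ : Fin (s + 1)),
      (∀ l m, U l (σ m) = if l = m then 1 else 0) ∧ t i₀ = 1 ∧ (g = 0 → G = 0) ∧
      (∀ i j k, Bg T (U i) (U j) (U k) = G * (t i * t j * t k)) ∧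
      ∀ i, w.red (∑ l, α l * algebraMap K L (v l i)) = ∑ l, β l * (U l i : w.RF) := by
  classical
  obtain ⟨u, σ, C, C', hu, hδ, hC, hC'⟩ := h0 N K L w (s + 1) v hv
  set ψ := algebraMap K L with hψ
  -- the coordinates of the vector
  set β : Fin (s + 1) → L := fun l => ∑ m, α m * ψ (C' m l) with hβ
  have hz : ∀ i, ∑ l, α l * ψ (v l i) = ∑ l, β l * ψ (u l i) := by
    intro i
    have h1 : ∀ l, α l * ψ (v l i) = ∑ m, α l * ψ (C' l m) * ψ (u m i) := by
      intro l
      rw [hC' l i, map_sum, Finset.mul_sum]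
      refine Finset.sum_congr rfl fun m _ => ?_
      rw [map_mul]
      ring
    rw [Finset.sum_congr rfl fun l _ => h1 l, Finset.sum_comm]
    refine Finset.sum_congr rfl fun m _ => ?_
    rw [hβ, Finset.sum_mul]
  have hβσ : ∀ m, ∑ l, α l * ψ (v l (σ m)) = β m := by
    intro m
    rw [hz, Finset.sum_eq_single m]
    · rw [hδ, if_pos rfl, map_one, mul_one]
    · intro l _ hl
      rw [hδ, if_neg hl, map_zero, mul_zero]
    · intro h
      exact absurd (Finset.mem_univ _) h
  have hβreg : ∀ m, w.Reg (β m) := by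
    intro m
    rw [← hβσ]
    exact hreg _
  -- the linear form
  obtain ⟨i₁, hi₁⟩ : ∃ i, C i (Fin.last s) ≠ 0 := by
    by_contra hcon
    push Not at hcon
    have h1 : ∑ l, (C' (Fin.last s) l) • u l = v (Fin.last s) := by
      funext i
      rw [Finset.sum_apply, hC' (Fin.last s) i]
      rfl
    have h2 : ∀ l, u l = ∑ m, C l m • v m := by
      intro l
      funext i
      rw [Finset.sum_apply, hC l i]
      rfl
    have h3 : ∑ m, (∑ l, C' (Fin.last s) l * C l m - if m = Fin.last s then 1 else 0) • v m = 0 := by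
      simp only [sub_smul, Finset.sum_sub_distrib, Finset.sum_smul, ite_smul, one_smul, zero_smul,
        Finset.sum_ite_eq', Finset.mem_univ, if_true]
      rw [Finset.sum_comm, sub_eq_zero]
      conv_rhs => rw [← h1]
      refine Finset.sum_congr rfl fun l _ => ?_
      rw [h2 l, Finset.smul_sum]
      refine Finset.sum_congr rfl fun m _ => ?_
      rw [mul_smul]
    have h4 := (Fintype.linearIndependent_iff.1 hv) _ h3 (Fin.last s)
    rw [if_pos rfl, Finset.sum_eq_zero, zero_sub] at h4
    · exact one_ne_zero (neg_eq_zero.1 h4)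
    · intro l _
      rw [hcon l, mul_zero]
  obtain ⟨i₀, hi₀, hmin⟩ := Finset.exists_min_image
    (Finset.univ.filter fun i => C i (Fin.last s) ≠ 0) (fun i => w.ord (ψ (C i (Fin.last s))))
    ⟨i₁, by simpa using hi₁⟩
  have hi₀' : C i₀ (Fin.last s) ≠ 0 := (Finset.mem_filter.1 hi₀).2
  set t : Fin (s + 1) → K := fun i => C i (Fin.last s) / C i₀ (Fin.last s) with ht
  have htreg : ∀ i, w.Reg (ψ (t i)) := by
    intro i
    by_cases h : C i (Fin.last s) = 0
    · rw [ht]
      simp only
      rw [h, zero_div, map_zero]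
      exact w.reg_zero
    · right
      rw [ht]
      simp only
      rw [map_div₀, w.ord_div ((map_ne_zero _).2 h) ((map_ne_zero _).2 hi₀')]
      have := hmin i (Finset.mem_filter.2 ⟨Finset.mem_univ _, h⟩)
      omega
  have hpol : ∀ i j k, Bg T (u i) (u j) (u k) =
      (g * C i₀ (Fin.last s) ^ 3) * (t i * t j * t k) := by
    intro i j k
    have h1 : ∀ l, u l = fun i => ∑ m, C l m * v m i := fun l => funext (hC l)
    rw [h1 i, h1 j, h1 k, Bg_rank1 hT v g (fun m => if m = Fin.last s then 1 else 0)]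
    · simp only [mul_ite, mul_one, mul_zero, Finset.sum_ite_eq', Finset.mem_univ, if_true]
      rw [ht]
      field_simp
    · intro a b c
      rw [hg]
      by_cases ha : a = Fin.last s <;> by_cases hb : b = Fin.last s <;>
        by_cases hc : c = Fin.last s <;> simp [ha, hb, hc]
  have hGe : g * C i₀ (Fin.last s) ^ 3 = Bg T (u i₀) (u i₀) (u i₀) := by
    rw [hpol, ht]
    simp only
    rw [div_self hi₀']
    ring
  have hBgreg := fun i j k => red_Bg w T (fun l => ψ (u i l)) (fun l => ψ (u j l))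
    (fun l => ψ (u k l)) (hu i) (hu j) (hu k)
  have hmap : ∀ i j k, Bg T (fun l => ψ (u i l)) (fun l => ψ (u j l)) (fun l => ψ (u k l)) =
      ψ (Bg T (u i) (u j) (u k)) := fun i j k =>
    (map_Bg (IsScalarTower.toAlgHom ℂ K L) T (u i) (u j) (u k)).symm
  have hGreg : w.Reg (ψ (g * C i₀ (Fin.last s) ^ 3)) := by
    rw [hGe, ← hmap]
    exact (hBgreg _ _ _).1
  refine ⟨fun l i => ⟨w.red (ψ (u l i)), NT.mem_kap w (hu l i)⟩,
    fun l => ⟨w.red (ψ (t l)), NT.mem_kap w (htreg l)⟩,
    ⟨w.red (ψ (g * C i₀ (Fin.last s) ^ 3)), NT.mem_kap w hGreg⟩,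
    fun l => w.red (β l), σ, i₀, ?_, ?_, ?_, ?_, ?_⟩
  · intro l m
    apply Subtype.ext
    change w.red (ψ (u l (σ m))) = _
    rw [hδ]
    by_cases h : l = m
    · rw [if_pos h, if_pos h, map_one, w.red_one]
      rfl
    · rw [if_neg h, if_neg h, map_zero, w.red_zero]
      rfl
  · apply Subtype.ext
    change w.red (ψ (t i₀)) = 1
    have h1 : t i₀ = 1 := div_self hi₀'
    rw [h1, map_one, w.red_one]
  · intro h
    apply Subtype.ext
    change w.red (ψ (g * C i₀ (Fin.last s) ^ 3)) = 0
    rw [h, zero_mul, map_zero, w.red_zero]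
  · intro i j k
    apply Subtype.ext
    have h1 := map_Bg (NT.kap K w).val T
      (fun l => (⟨w.red (ψ (u i l)), NT.mem_kap w (hu i l)⟩ : NT.kap K w))
      (fun l => ⟨w.red (ψ (u j l)), NT.mem_kap w (hu j l)⟩)
      (fun l => ⟨w.red (ψ (u k l)), NT.mem_kap w (hu k l)⟩)
    refine h1.trans ?_
    have h2 := (hBgreg i j k).2
    have e1 : ψ (g * C i₀ (Fin.last s) ^ 3 * (t i * t j * t k)) =
        ψ (g * C i₀ (Fin.last s) ^ 3) * (ψ (t i) * ψ (t j) * ψ (t k)) := by
      rw [map_mul ψ (g * C i₀ (Fin.last s) ^ 3), map_mul ψ (t i * t j), map_mul ψ (t i)]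
    rw [hmap, hpol, e1, w.red_mul hGreg
      (w.reg_mul (w.reg_mul (htreg i) (htreg j)) (htreg k)),
      w.red_mul (w.reg_mul (htreg i) (htreg j)) (htreg k), w.red_mul (htreg i) (htreg j)] at h2
    exact h2.symm
  · intro i
    rw [hz]
    exact (red_lin w Finset.univ β (fun l => ψ (u l i)) hβreg (fun l => hu l i)).2

/-- independence from the dual coordinates -/
theorem indep_dual {N s : ℕ} {κ : Type} [Field κ] (U : Fin s → Fin N → κ) (σ : Fin s → Fin N)
    (h : ∀ l m, U l (σ m) = if l = m then 1 else 0) : LinearIndependent κ U := by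
  rw [Fintype.linearIndependent_iff]
  intro a ha m
  have h1 := congrFun ha (σ m)
  rw [Finset.sum_apply, Finset.sum_eq_single m] at h1
  · rw [Pi.smul_apply, h, if_pos rfl, smul_eq_mul, mul_one] at h1
    exact h1
  · intro l _ hl
    rw [Pi.smul_apply, h, if_neg hl, smul_zero]
  · intro h2
    exact absurd (Finset.mem_univ _) h2

theorem s_red3 (h0 : S_RED0) : S_RED3 := by
  classical
  intro N T hT K L _ _ _ _ _ _ w s v g hv hg α hreg hcube
  obtain ⟨U, t, G, β, σ, i₀, hδ, ht, -, hpol, hz⟩ := red_gen h0 N T hT K L w s v g hv hg α hreg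
  by_cases hG : G = 0
  · refine ⟨s + 1, Or.inr rfl, U, β, indep_dual U σ hδ, ?_, hz⟩
    intro i j k
    rw [hpol, hG, zero_mul]
  · have hGw : (G : w.RF) ≠ 0 := fun h => hG (Subtype.ext h)
    have hpol' : ∀ i j k, Bg T (fun l => (U i l : w.RF)) (fun l => (U j l : w.RF))
        (fun l => (U k l : w.RF)) = (G : w.RF) * ((t i : w.RF) * (t j : w.RF) * (t k : w.RF)) := by
      intro i j k
      have h1 := map_Bg (NT.kap K w).val T (U i) (U j) (U k)
      rw [hpol] at h1
      exact h1.symm
    have hsum : ∑ l, β l * (t l : w.RF) = 0 := by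
      have h1 := (red_Bg w T _ _ _ hreg hreg hreg).2
      have h2 : (fun i => w.red (∑ l, α l * algebraMap K L (v l i))) =
          fun i => ∑ l, β l * (U l i : w.RF) := funext hz
      rw [hcube, h2, Bg_rank1 hT (fun l i => (U l i : w.RF)) (G : w.RF) (fun l => (t l : w.RF))
        hpol'] at h1
      have h3 := (mul_eq_zero.1 h1.symm).resolve_left hGw
      rcases mul_eq_zero.1 h3 with h4 | h4
      · rcases mul_eq_zero.1 h4 with h5 | h5 <;> exact h5
      · exact h4
    refine ⟨s, Or.inl rfl, fun a i => U (i₀.succAbove a) i - t (i₀.succAbove a) * U i₀ i,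
      fun a => β (i₀.succAbove a), ?_, ?_, ?_⟩
    · refine indep_dual _ (fun a => σ (i₀.succAbove a)) ?_
      intro l m
      rw [hδ, hδ, if_neg (Fin.succAbove_ne i₀ m).symm, mul_zero, sub_zero]
      by_cases h : l = m
      · rw [if_pos h, if_pos (by rw [h])]
      · rw [if_neg h, if_neg (fun h2 => h (Fin.succAbove_right_injective h2))]
    · have hcomb : ∀ a : Fin s, (fun i => U (i₀.succAbove a) i - t (i₀.succAbove a) * U i₀ i) =
          fun i => ∑ l, (((if l = i₀.succAbove a then 1 else 0) -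
            if l = i₀ then t (i₀.succAbove a) else 0) : NT.kap K w) * U l i := by
        intro a
        funext i
        simp only [sub_mul, Finset.sum_sub_distrib, ite_mul, one_mul, zero_mul,
          Finset.sum_ite_eq', Finset.mem_univ, if_true]
      have hval : ∀ a : Fin s, ∑ l, (((if l = i₀.succAbove a then 1 else 0) -
            if l = i₀ then t (i₀.succAbove a) else 0) : NT.kap K w) * t l = 0 := by
        intro a
        simp only [sub_mul, Finset.sum_sub_distrib, ite_mul, one_mul, zero_mul,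
          Finset.sum_ite_eq', Finset.mem_univ, if_true]
        rw [ht, mul_one, sub_self]
      intro a b c
      simp only
      rw [hcomb a, hcomb b, hcomb c, Bg_rank1 hT U G t hpol, hval, zero_mul, zero_mul, mul_zero]
    · intro i
      rw [hz, Fin.sum_univ_succAbove _ i₀]
      have h1 := hsum
      rw [Fin.sum_univ_succAbove _ i₀, ht] at h1
      have h2 : ∀ a : Fin s, β (i₀.succAbove a) *
          (((U (i₀.succAbove a) i - t (i₀.succAbove a) * U i₀ i : NT.kap K w)) : w.RF) =
          β (i₀.succAbove a) * (U (i₀.succAbove a) i : w.RF) -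
            (β (i₀.succAbove a) * (t (i₀.succAbove a) : w.RF)) * (U i₀ i : w.RF) := by
        intro a
        rw [show (((U (i₀.succAbove a) i - t (i₀.succAbove a) * U i₀ i : NT.kap K w)) : w.RF) =
          (U (i₀.succAbove a) i : w.RF) - (t (i₀.succAbove a) : w.RF) * (U i₀ i : w.RF) from rfl]
        ring
      rw [Finset.sum_congr rfl fun a _ => h2 a, Finset.sum_sub_distrib, ← Finset.sum_mul]
      have h3 : ((1 : NT.kap K w) : w.RF) = 1 := rfl
      rw [h3, mul_one] at h1
      linear_combination (U i₀ i : w.RF) * h1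

theorem s_red (h0 : S_RED0) : S_RED := by
  classical
  intro N T hT K L _ _ _ _ _ _ w s v hv hPz α hreg
  rcases s with _ | s
  · refine ⟨fun l => l.elim0, fun l => l.elim0, linearIndependent_empty_type, fun l => l.elim0, ?_⟩
    intro i
    rw [Finset.univ_eq_empty, Finset.sum_empty, Finset.sum_empty, w.red_zero]
  · obtain ⟨U, t, G, β, σ, i₀, hδ, ht, hG, hpol, hz⟩ := red_gen h0 N T hT K L w s v 0 hv (by
      intro i j k
      rw [hPz]
      split_ifs <;> rfl) α hreg
    refine ⟨U, β, indep_dual U σ hδ, ?_, hz⟩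
    intro i j k
    rw [hpol, hG rfl, zero_mul]

end Pool.Agent.K9h4.RH
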