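import Mathlib
import Pool.Agent.K9h4.RH.Stm

/-! # Residue fields at places which are not trivial (job TD) -/

set_option autoImplicit false

namespace Pool.Agent.K9h4.RH

open MvPolynomial Pool.Agent.TH314.PD Module FF IntermediateField Pool.Agent.Y201.C3
open Pool.Agent.R845.T2 Pool.Agent.R845.E3 Pool.Agent.N122

theorem s_td : S_TD := by
  intro K L _ _ _ _ _ _ w ρ htr ⟨k, hk, hwk⟩
  by_contra hcon
  push Not at hcon
  have h1 : ((ρ + 1 : ℕ) : Cardinal) ≤ Algebra.trdeg ℂ (NT.kap K w) := by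
    have h2 := Order.succ_le_of_lt hcon
    have h3 : ((ρ + 1 : ℕ) : Cardinal) = Order.succ (ρ : Cardinal) := Cardinal.nat_succ ρ
    rw [h3]
    exact h2
  obtain ⟨ι, v, hv⟩ := exists_isTranscendenceBasis' ℂ (NT.kap K w)
  rw [← hv.cardinalMk_eq_trdeg] at h1
  have h3 : Cardinal.mk (Fin (ρ + 1)) ≤ Cardinal.mk ι := by
    rw [Cardinal.mk_fin]
    exact h1
  obtain ⟨e⟩ := Cardinal.le_def _ _ |>.1 h3
  apply hwk
  refine NT.trivial_of_indep w (fun l : Fin (ρ + 1) => (v (e l) : w.RF)) ?_ (fun l => ?_) ?_ k hk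
  · exact (hv.1.comp e e.injective).map' (f := (NT.kap K w).val) Subtype.val_injective
  · exact isAlgebraic_algebraMap (v (e l))
  · rw [Cardinal.mk_fin]
    exact htr

end Pool.Agent.K9h4.RH
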