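import Mathlib
import Pool.Agent.K9h4.QuadFam
import Pool.Agent.K9h4.RH.As3
import Pool.Agent.K9h4.RH.Td
import Pool.Agent.K9h4.RH.Red0
import Pool.Agent.K9h4.RH.Red3

/-! # Chords and quadratic families through points of linear subspaces over subfields -/

set_option autoImplicit false

namespace Pool.Agent.K9h4.RH

open MvPolynomial Pool.Agent.TH314.PD Module Pool.Agent.Y201.C3 IntermediateField
open Pool.Agent.R845.T2 Pool.Agent.R845.E3 Pool.Agent.N122

noncomputable section

theorem trdeg_adjoin_le {K M : Type} [Field K] [Field M] [Algebra K M] (s : ℕ) (t : Fin s → M) :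
    Algebra.trdeg K (IntermediateField.adjoin K (Set.range t)) ≤ (s : Cardinal) := by
  classical
  let E := IntermediateField.adjoin K (Set.range t)
  let t' : Fin s → E := fun l => ⟨t l, subset_adjoin _ _ ⟨l, rfl⟩⟩
  have hval : ∀ p : MvPolynomial (Fin s) K, ((MvPolynomial.aeval t' p : E) : M) =
      MvPolynomial.aeval t p := by
    intro p
    exact (MvPolynomial.comp_aeval_apply (f := t') E.val p).trans rfl
  have halg : Algebra.IsAlgebraic (Algebra.adjoin K (Set.range t')) E := by
    refine ⟨fun x => ?_⟩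
    obtain ⟨p, q, hpq⟩ := (IntermediateField.mem_adjoin_range_iff K t (x : M)).1 x.2
    have h1 : ∀ p : MvPolynomial (Fin s) K,
        MvPolynomial.aeval t' p ∈ Algebra.adjoin K (Set.range t') := by
      intro p
      rw [Algebra.adjoin_range_eq_range_aeval]
      exact ⟨p, rfl⟩
    have h2 : x = MvPolynomial.aeval t' p * (MvPolynomial.aeval t' q)⁻¹ := by
      apply Subtype.ext
      rw [hpq, div_eq_mul_inv]
      push_cast
      rw [hval, hval]
    rw [h2]
    exact (isAlgebraic_algebraMap (⟨_, h1 p⟩ : Algebra.adjoin K (Set.range t'))).mul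
      (isAlgebraic_algebraMap (⟨_, h1 q⟩ : Algebra.adjoin K (Set.range t'))).inv
  have h3 := Algebra.IsAlgebraic.trdeg_le_cardinalMk K (A := E) (Set.range t')
  refine h3.trans ?_
  have h4 := Cardinal.mk_range_le (f := t')
  rwa [Cardinal.mk_fin] at h4

variable {n : ℕ} {F : MvPolynomial (Fin (n + 2)) ℂ} {M : Type} [Field M] [Algebra ℂ M]

/-- linear combinations over `M` of vectors over `K` -/
def lc {K : IntermediateField ℂ M} {s N : ℕ} (v : Fin s → Fin N → K) (t : Fin s → M) :
    Fin N → M := fun i => ∑ l, t l * (v l i : M)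

theorem trdeg_comb (K : IntermediateField ℂ M) (ρ s : ℕ)
    (hK : Algebra.trdeg ℂ K ≤ (ρ : Cardinal)) {N : ℕ} (v : Fin s → Fin N → K) (t : Fin s → M) :
    Algebra.trdeg ℂ (ratioField (lc v t)) ≤ ((ρ + s : ℕ) : Cardinal) := by
  classical
  let E := IntermediateField.adjoin K (Set.range t)
  have h1 : ratioField (lc v t) ≤ E.restrictScalars ℂ := by
    unfold ratioField
    rw [adjoin_le_iff]
    rintro _ ⟨i, j, rfl⟩
    have h2 : ∀ i, lc v t i ∈ E := by
      intro i
      refine sum_mem fun l _ => mul_mem (subset_adjoin _ _ ⟨l, rfl⟩) ?_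
      exact E.algebraMap_mem (v l i)
    exact div_mem (h2 i) (h2 j)
  have h2 : Algebra.trdeg ℂ (E.restrictScalars ℂ) = Algebra.trdeg ℂ E := rfl
  have : FaithfulSMul K E :=
    (faithfulSMul_iff_algebraMap_injective _ _).2 (algebraMap K E).injective
  have h3 : Algebra.trdeg ℂ E = Algebra.trdeg ℂ K + Algebra.trdeg K E := by
    exact (trdeg_add_eq ℂ K (A := E)).symm
  refine (trdeg_le_of_injective (inclusion h1) (inclusion h1).injective).trans ?_
  rw [h2, h3, Nat.cast_add]
  exact add_le_add hK (trdeg_adjoin_le s t)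

/-- **The generic point of a chord through a point of a linear subspace over a subfield is not of
odd degree.** -/
theorem ns_not_special {T : Fin (n + 2) → Fin (n + 2) → Fin (n + 2) → ℂ} (hFT : F = Bg T X X X)
    (ρ r : ℕ) (hNS : NS T ρ (r + 1)) (K : IntermediateField ℂ M)
    (hK : Algebra.trdeg ℂ K ≤ (ρ : Cardinal)) (v : Fin (r + 1) → Fin (n + 2) → K)
    (hv : LinearIndependent K v) (hPz : Pz T v) (t : Fin (r + 1) → M)
    (x : Fin (n + 2) → M) (hx : aeval x F = 0) : ¬ Special x (lc v t) := by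
  classical
  rintro ⟨hgen, hodd⟩
  have hev : ∀ {R : Type} [CommRing R] [Algebra ℂ R] (v : Fin (n + 2) → R),
      aeval v F = Bg T v v v := by
    intro R _ _ v
    conv_lhs => rw [hFT]
    exact aeval_frmG T v
  let f : M →ₐ[ℂ] FractionRing (Polynomial M) := (IsScalarTower.toAlgHom ℂ (Polynomial M)
      (FractionRing (Polynomial M))).comp (Polynomial.CAlgHom : M →ₐ[ℂ] Polynomial M)
  refine hNS K hK v hv hPz (FractionRing (Polynomial M))
    (f.comp K.val) (gl x (lc v t)) hgen hodd (fun l =>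
      algebraMap (Polynomial M) (FractionRing (Polynomial M))
        (Polynomial.X * Polynomial.C (t l))) ?_
  have h5 : (fun i => gl x (lc v t) i - ∑ l : Fin (r + 1), algebraMap (Polynomial M)
      (FractionRing (Polynomial M)) (Polynomial.X * Polynomial.C (t l)) *
        (f.comp K.val) (v l i)) = fun i => f (x i) := by
    funext i
    have h6 : ∀ l, (f.comp K.val) (v l i) =
        algebraMap (Polynomial M) (FractionRing (Polynomial M)) (Polynomial.C ((v l i : K) : M)) :=
      fun l => rfl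
    simp only [h6, ← map_mul]
    rw [← map_sum]
    unfold gl
    rw [← map_sub]
    change _ = algebraMap (Polynomial M) (FractionRing (Polynomial M)) (Polynomial.C (x i))
    congr 1
    unfold lc
    rw [map_sum, Finset.mul_sum]
    simp only [Polynomial.C_mul, ← mul_assoc]
    ring
  rw [h5, ← map_Bg f, ← hev, hx, map_zero]

/-- the numerical condition -/
def Num (n ρ r : ℕ) : Prop :=
  ρ + r + 1 < n ∧ (r + 1) * (r + 4) / 2 ≤ n + 1 ∧
    ∀ j < ρ, (r + j + 1) * (3 * (r + j) + 8) / 2 + 2 * (r + j + 1) * 2 ^ (ρ - j) ≤ n + 1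

theorem num_of_le (n ρ r : ℕ) (h : 2 * (r + 1) * 2 ^ ρ + 4 * (ρ + r) ^ 2 ≤ n) : Num n ρ r := by
  have h0 : ρ + 1 ≤ 2 ^ ρ := Nat.lt_two_pow_self
  have h1 : 2 * (r + 1) * (ρ + 1) ≤ 2 * (r + 1) * 2 ^ ρ := Nat.mul_le_mul_left _ h0
  refine ⟨?_, ?_, ?_⟩
  · nlinarith [Nat.zero_le (r * ρ), Nat.zero_le ((ρ + r) ^ 2)]
  · have h3 : (r + 1) * (r + 4) / 2 * 2 ≤ (r + 1) * (r + 4) := Nat.div_mul_le_self _ _
    have h4 : r ≤ r * r := Nat.le_mul_self r
    nlinarith [Nat.zero_le (r * ρ), Nat.zero_le (ρ * ρ), Nat.zero_le (r * r)]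
  · intro j hj
    have h1 : 2 * (r + j + 1) * 2 ^ (ρ - j) ≤ 2 * (r + 1) * 2 ^ ρ := by
      have e1 : 2 ^ ρ = 2 ^ j * 2 ^ (ρ - j) := by
        rw [← pow_add]
        congr 1
        omega
      rw [e1, ← Nat.mul_assoc]
      refine Nat.mul_le_mul_right _ ?_
      have h2 : j + 1 ≤ 2 ^ j := Nat.lt_two_pow_self
      nlinarith [Nat.mul_le_mul_left (2 * (r + 1)) h2, Nat.zero_le (r * j)]
    obtain ⟨i, rfl⟩ : ∃ i, ρ = j + 1 + i := ⟨ρ - j - 1, by omega⟩
    have h2 : (r + j + 1) * (3 * (r + j) + 8) / 2 ≤ 4 * (j + 1 + i + r) ^ 2 := by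
      have h3 : (r + j + 1) * (3 * (r + j) + 8) / 2 * 2 ≤
          (r + j + 1) * (3 * (r + j) + 8) := Nat.div_mul_le_self _ _
      obtain ⟨a, ha⟩ : ∃ a, a = r + j := ⟨_, rfl⟩
      have e1 : j + 1 + i + r = a + 1 + i := by omega
      rw [e1]
      rw [← ha] at h3 ⊢
      nlinarith [Nat.zero_le (a * i), Nat.zero_le (i * i), Nat.zero_le (a * a)]
    omega

theorem ns_num (hF : F.IsHomogeneous 3)
    (hsm : Sm F) {T : Fin (n + 2) → Fin (n + 2) → Fin (n + 2) → ℂ} (hT : SymG T)
    (hFT : F = Bg T X X X) (ρ r : ℕ) (hn : Num n ρ r) : NS T ρ (r + 1) := by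
  refine ns_all2 s_td (s_red s_red0) (s_red3 s_red0) hF hsm hT hFT ρ r hn.2.2 ?_
  rcases Nat.eq_zero_or_pos ρ with rfl | hρ
  · have h1 := hn.2.1
    have e1 : (r + 1) * (r + 4) / 2 = (r + 1) * (r + 2) / 2 + (r + 1) := by
      rw [← Nat.add_mul_div_left _ _ (by norm_num : 0 < 2)]
      congr 1
      ring
    simp only [Nat.zero_add]
    omega
  · obtain ⟨i, rfl⟩ : ∃ i, ρ = i + 1 := ⟨ρ - 1, by omega⟩
    have h2 := hn.2.2 i (by omega)
    have e1 : i + 1 - i = 1 := by omega
    rw [e1] at h2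
    obtain ⟨a, ha⟩ : ∃ a, a = r + i := ⟨_, rfl⟩
    have e2 : i + 1 + r = a + 1 := by omega
    rw [e2]
    rw [← ha] at h2
    have h3 : (a + 1 + 1) * (a + 1 + 2) / 2 * 2 ≤
        (a + 1 + 1) * (a + 1 + 2) := Nat.div_mul_le_self _ _
    have h4 : (a + 1) * (3 * a + 8) < ((a + 1) * (3 * a + 8) / 2 + 1) * 2 := by
      have := Nat.lt_div_mul_add (a := (a + 1) * (3 * a + 8)) (b := 2) (by norm_num)
      omega
    nlinarith

/-- the cases -/
def Cs {n : ℕ} (F : MvPolynomial (Fin (n + 2)) ℂ) (ρ r : ℕ) : Prop :=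
  (ρ = 1 ∧ r = 0 ∧ 4 ≤ n ∧ (n = 4 → ∀ A : Fin 3 → Fin (n + 2) → ℂ, LinearIndependent ℂ A →
      ¬ ∀ a : Fin 3 → ℂ, eval (fun i => ∑ l, a l * A l i) F = 0)) ∨ Num n ρ r

/-- polar values of a family of vectors whose span is contained in the cubic -/
theorem pz_of_span {T : Fin (n + 2) → Fin (n + 2) → Fin (n + 2) → ℂ} (hT : SymG T)
    (hFT : F = Bg T X X X) {K : Type} [Field K] [Algebra ℂ K] {s : ℕ}
    (v : Fin s → Fin (n + 2) → K)
    (hvF : ∀ a : Fin s → K, aeval (fun i => ∑ l, a l * v l i) F = 0) : Pz T v := by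
  have hev : ∀ (v : Fin (n + 2) → K), aeval v F = Bg T v v v := by
    intro v
    conv_lhs => rw [hFT]
    exact aeval_frmG T v
  intro i j k
  refine polar_zero hT (Submodule.span K (Set.range v)) ?_ _ _ _ (Submodule.subset_span ⟨i, rfl⟩)
    (Submodule.subset_span ⟨j, rfl⟩) (Submodule.subset_span ⟨k, rfl⟩)
  intro z hz
  obtain ⟨a, rfl⟩ := (Submodule.mem_span_range_iff_exists_fun K).1 hz
  have h1 : (∑ l, a l • v l) = fun i => ∑ l, a l * v l i := by
    funext i
    rw [Finset.sum_apply]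
    rfl
  rw [h1, ← hev]
  exact hvF a

theorem lc_mem {T : Fin (n + 2) → Fin (n + 2) → Fin (n + 2) → ℂ} (hT : SymG T)
    (hFT : F = Bg T X X X) {K : IntermediateField ℂ M} {s : ℕ}
    (v : Fin s → Fin (n + 2) → K) (hPz : Pz T v) (t : Fin s → M) : aeval (lc v t) F = 0 := by
  have hev : ∀ (v : Fin (n + 2) → M), aeval v F = Bg T v v v := by
    intro v
    conv_lhs => rw [hFT]
    exact aeval_frmG T v
  rw [hev]
  refine Bg_comb_zero hT (fun l i => (v l i : M)) (fun i j k => ?_) t t t
  have h1 := map_Bg K.val T (v i) (v j) (v k)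
  rw [hPz, map_zero] at h1
  exact h1.symm

section main

variable (ρ r : ℕ) (hcs : Cs F ρ r) (hF : F.IsHomogeneous 3) (hsm : Sm F)
  (K : IntermediateField ℂ M) (hK : Algebra.trdeg ℂ K ≤ (ρ : Cardinal))
  (v : Fin (r + 1) → Fin (n + 2) → K) (hv : LinearIndependent K v)
  (hvF : ∀ a : Fin (r + 1) → K, aeval (fun i => ∑ l, a l * v l i) F = 0) (t : Fin (r + 1) → M)

include hcs hF hsm hK hv hvF

theorem sub_not_special (x : Fin (n + 2) → M) (hx : aeval x F = 0) (hc : lc v t ≠ 0) :
    ¬ Special x (lc v t) := by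
  obtain ⟨T, hT, hFT⟩ := exists_tri F hF
  have hPz := pz_of_span hT hFT v hvF
  rcases hcs with ⟨rfl, rfl, hn, hpl⟩ | hn
  · refine curve_not_special hn hF hsm hpl x (lc v t) hx hc (lc_mem hT hFT v hPz t) ?_
    have h1 : ratioField (lc v t) ≤ K := by
      unfold ratioField
      rw [adjoin_le_iff]
      rintro _ ⟨i, j, rfl⟩
      have h2 : ∀ i, lc v t i = t 0 * (v 0 i : M) := by
        intro i
        unfold lc
        rw [Fin.sum_univ_one]
      rw [h2, h2]
      by_cases h3 : t 0 = 0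
      · rw [h3, zero_mul, zero_div]
        exact zero_mem _
      · rw [mul_div_mul_left _ _ h3]
        exact div_mem (v 0 i).2 (v 0 j).2
    refine (trdeg_le_of_injective (inclusion h1) (inclusion h1).injective).trans ?_
    simpa using hK
  · exact ns_not_special hFT ρ r (ns_num hF hsm hT hFT ρ r hn) K hK v hv hPz t x hx

omit hv hvF in
theorem sub_not_gp : ¬ Gp F (lc v t) := by
  intro h
  have h1 := (gp_trdeg hF (ne_zero_of_smooth (m := n + 1) hsm) (lc v t) h).trans
    (trdeg_comb K ρ (r + 1) hK v t)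
  have h2 : n ≤ ρ + (r + 1) := by exact_mod_cast h1
  rcases hcs with ⟨rfl, rfl, hn, -⟩ | hn
  · omega
  · have h3 := hn.1
    omega

/-- **Chords through points of linear subspaces over subfields.** -/
theorem sub_chord (x : Fin (n + 2) → M) (hG : Gp F x)
    (hodd : Odd (finrank (ratioField x) M)) (hc : lc v t ≠ 0) (a b : M) (ha : a ≠ 0)
    (hab : aeval (fun j => a * x j + b * lc v t j) F = 0) :
    Gp F (fun j => a * x j + b * lc v t j) ∧
      Odd (finrank (ratioField fun j => a * x j + b * lc v t j) M) := by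
  obtain ⟨T, hT, hFT⟩ := exists_tri F hF
  have hpn := sub_not_gp ρ r hcs hF hsm K hK v t
  exact chord_of hF hsm x (lc v t) hG hodd (indep_of_not_gp hF x (lc v t) hG hodd hc hpn) hpn
    (lc_mem hT hFT v (pz_of_span hT hFT v hvF) t)
    (sub_not_special ρ r hcs hF hsm K hK v hv hvF t x hG.1 hc) a b ha hab

/-- **Conics through points of linear subspaces over subfields.** -/
theorem sub_conic (x β : Fin (n + 2) → M) (hG : Gp F x)
    (hodd : Odd (finrank (ratioField x) M)) (hc : lc v t ≠ 0)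
    (h : ∀ a : M, aeval (fun j => a ^ 2 * lc v t j + a * β j + x j) F = 0) : False := by
  obtain ⟨T, hT, hFT⟩ := exists_tri F hF
  have hpn := sub_not_gp ρ r hcs hF hsm K hK v t
  exact conic_of hF hsm x (lc v t) β hG hodd (indep_of_not_gp hF x (lc v t) hG hodd hc hpn) hpn
    (lc_mem hT hFT v (pz_of_span hT hFT v hvF) t)
    (sub_not_special ρ r hcs hF hsm K hK v hv hvF t x hG.1 hc) h

/-- **Quadratic families with a point of a linear subspace over a subfield.** -/
theorem sub_family
    {N : ℕ} (Q : Fin (n + 2) → MvPolynomial (Fin N) M) (hQ : ∀ i, (Q i).totalDegree ≤ 2)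
    (hQF : aeval Q F = 0) (u w : Fin N → M) (hu : (fun i => eval u (Q i)) ≠ 0)
    (hut : (fun i => eval u (Q i)) = lc v t)
    (hG : Gp F fun i => eval w (Q i)) (hodd : Odd (finrank (ratioField fun i => eval w (Q i)) M)) :
    False := by
  classical
  have : Infinite M := Infinite.of_injective _ (algebraMap ℂ M).injective
  choose H hH hHQ using fun i => hom2 (Q i) (hQ i)
  -- the homogeneous polynomials give points of the cubic
  have hHF : aeval H F = 0 := by
    have h1 : X 0 * aeval H F = 0 := by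
      apply MvPolynomial.funext
      intro y
      rw [map_mul, eval_X, map_zero, aeval_eval]
      by_cases hy : y 0 = 0
      · rw [hy, zero_mul]
      · have h2 : y = Fin.cons (y 0) fun i => y 0 * (y i.succ / y 0) := by
          funext l
          refine Fin.cases ?_ (fun l => ?_) l
          · rw [Fin.cons_zero]
          · rw [Fin.cons_succ, mul_div_cancel₀ _ hy]
        have h3 : (fun i => eval y (H i)) = fun i => y 0 ^ 2 *
            eval (fun i : Fin N => y i.succ / y 0) (Q i) := by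
          funext i
          conv_lhs => rw [h2]
          exact hHQ i _ _
        rw [h3, aeval_smul_form hF, ← aeval_eval, hQF, map_zero, mul_zero, mul_zero]
    exact (mul_eq_zero.1 h1).resolve_left (X_ne_zero _)
  have hev : ∀ (w : Fin N → M) i, eval (Fin.cons 1 w) (H i) = eval w (Q i) := by
    intro w i
    have h1 := hHQ i 1 w
    simp only [one_mul, one_pow] at h1
    exact h1
  choose β hβ using fun i => quad_line (H i) (hH i) (Fin.cons 1 u) (Fin.cons 1 w)
  rw [hut] at hu
  refine sub_conic ρ r hcs hF hsm K hK v hv hvF t (fun i => eval w (Q i)) β hG hodd hu fun a => ?_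
  have h1 := congrArg (eval (fun l => a * (Fin.cons 1 u : Fin (N + 1) → M) l +
    (Fin.cons 1 w : Fin (N + 1) → M) l)) hHF
  rw [aeval_eval, map_zero] at h1
  rw [← h1]
  congr 2
  funext i
  rw [hβ, hev, hev, ← congrFun hut i]

end main

/-- a point whose ratios of coordinates generate a field of small transcendence degree is a point of
a linear subspace of dimension zero over a subfield -/
theorem in_zero (ρ : ℕ) (hF : F.IsHomogeneous 3) (c : Fin (n + 2) → M) (hc : c ≠ 0)
    (hcF : aeval c F = 0) (htr : Algebra.trdeg ℂ (ratioField c) ≤ (ρ : Cardinal)) :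
    ∃ (K : IntermediateField ℂ M) (v : Fin (0 + 1) → Fin (n + 2) → K) (t : Fin (0 + 1) → M),
      Algebra.trdeg ℂ K ≤ (ρ : Cardinal) ∧ LinearIndependent K v ∧
      (∀ a : Fin (0 + 1) → K, aeval (fun i => ∑ l, a l * v l i) F = 0) ∧ c ≠ 0 ∧
      ∀ i, c i = ∑ l, t l * (v l i : M) := by
  classical
  obtain ⟨i₀, hi₀⟩ := Function.ne_iff.1 hc
  rw [Pi.zero_apply] at hi₀
  let d : Fin (n + 2) → ratioField c := fun i => ⟨c i / c i₀, subset_adjoin _ _ ⟨i, i₀, rfl⟩⟩
  have hd : d ≠ 0 := by
    intro h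
    have h1 := congrArg Subtype.val (congrFun h i₀)
    change c i₀ / c i₀ = 0 at h1
    rw [div_self hi₀] at h1
    exact one_ne_zero h1
  have hdF : aeval d F = 0 := by
    apply Subtype.ext
    have h1 := comp_aeval_apply (f := d) (ratioField c).val F
    change (ratioField c).val (aeval d F) = 0
    rw [h1]
    have h2 : (fun i => (ratioField c).val (d i)) = fun i => (c i₀)⁻¹ * c i := by
      funext i
      change c i / c i₀ = _
      rw [div_eq_inv_mul]
    rw [h2, aeval_smul_form hF, hcF, mul_zero]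
  refine ⟨ratioField c, fun _ => d, fun _ => c i₀, htr, ?_, ?_, hc, ?_⟩
  · rw [Fintype.linearIndependent_iff]
    intro g hg i
    rw [Fin.sum_univ_one] at hg
    have hi : i = 0 := Fin.ext (by omega)
    rw [hi]
    exact (smul_eq_zero.1 hg).resolve_right hd
  · intro a
    have h1 : (fun i => ∑ l : Fin 1, a l * d i) = fun i => a 0 * d i := by
      funext i
      rw [Fin.sum_univ_one]
    rw [h1, aeval_smul_form hF, hdF, mul_zero]
  · intro i
    rw [Fin.sum_univ_one]
    change c i = c i₀ * (c i / c i₀)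
    rw [mul_div_cancel₀ _ hi₀]

/-- **Quadratic families over subfields.** -/
theorem sub_curve (ρ : ℕ) (hcs : Cs F ρ 0) (hF : F.IsHomogeneous 3) (hsm : Sm F)
    (L : IntermediateField ℂ M) (hL : Algebra.trdeg ℂ L ≤ (ρ : Cardinal))
    {N : ℕ} (Q : Fin (n + 2) → MvPolynomial (Fin N) L) (hQ : ∀ i, (Q i).totalDegree ≤ 2)
    (hQF : aeval Q F = 0) (w : Fin N → M)
    (hG : Gp F fun i => aeval w (Q i)) (hodd : Odd (finrank (ratioField fun i => aeval w (Q i)) M)) :
    False := by
  classical
  have : Infinite L := Infinite.of_injective _ (algebraMap ℂ L).injective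
  have hx0 : aeval w (Q 0) ≠ 0 := coord_ne_zero hF (by norm_num) _ hG.2 (0 : Fin (n + 2))
  have hQ0 : Q 0 ≠ 0 := by
    intro h
    exact hx0 (by rw [h, map_zero])
  obtain ⟨u, hu⟩ : ∃ u : Fin N → L, eval u (Q 0) ≠ 0 := by
    by_contra hcon
    push Not at hcon
    exact hQ0 (MvPolynomial.funext fun y => by rw [hcon y, map_zero])
  have hv : ∀ i, eval w (map (algebraMap L M) (Q i)) = aeval w (Q i) := by
    intro i
    rw [eval_map, aeval_def]
  have hu' : ∀ i, eval (fun l => algebraMap L M (u l)) (map (algebraMap L M) (Q i)) =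
      algebraMap L M (eval u (Q i)) := by
    intro i
    rw [eval_map]
    exact (eval₂_comp (algebraMap L M) u (Q i)).symm
  have hd : (fun i => eval u (Q i)) ≠ 0 := fun h => hu (congrFun h 0)
  have hQu : aeval (fun i => eval u (Q i)) F = 0 := by
    rw [← aeval_eval, hQF, map_zero]
  refine sub_family ρ 0 hcs hF hsm L hL (fun _ i => eval u (Q i)) ?_ ?_ (fun _ => 1)
    (fun i => map (algebraMap L M) (Q i))
    (fun i => (Finset.sup_mono (support_map_subset _ _)).trans (hQ i)) ?_
    (fun l => algebraMap L M (u l)) w ?_ ?_ ?_ ?_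
  · rw [Fintype.linearIndependent_iff]
    intro g hg i
    rw [Fin.sum_univ_one] at hg
    have hi : i = 0 := Fin.ext (by omega)
    rw [hi]
    exact (smul_eq_zero.1 hg).resolve_right hd
  · intro a
    have h1 : (fun i => ∑ l : Fin 1, a l * eval u (Q i)) = fun i => a 0 * eval u (Q i) := by
      funext i
      rw [Fin.sum_univ_one]
    rw [h1, aeval_smul_form hF, hQu, mul_zero]
  · have h1 := comp_aeval_apply (f := Q) (mapAlgHom (IsScalarTower.toAlgHom ℂ L M) :
      MvPolynomial (Fin N) L →ₐ[ℂ] MvPolynomial (Fin N) M) F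
    rw [hQF, map_zero] at h1
    exact h1.symm
  · intro h
    have h1 := congrFun h 0
    rw [hu', Pi.zero_apply, map_eq_zero] at h1
    exact hu h1
  · funext i
    rw [hu']
    unfold lc
    rw [Fin.sum_univ_one, one_mul]
    rfl
  · have h1 : (fun i => eval w (map (algebraMap L M) (Q i))) = fun i => aeval w (Q i) :=
      funext hv
    rw [h1]
    exact hG
  · have h1 : (fun i => eval w (map (algebraMap L M) (Q i))) = fun i => aeval w (Q i) :=
      funext hv
    rw [h1]
    exact hodd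

end

end Pool.Agent.K9h4.RH
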