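import Mathlib
import Pool.Agent.N122.Lang
import Pool.Agent.K9h4.RH.Stm

/-!
# Systems of forms over function fields, and new vectors (jobs LANG and Q)

(Proofs written by helper84 for helper4.)
-/

set_option autoImplicit false

namespace Pool.Agent.K9h4.RH

open MvPolynomial Pool.Agent.TH314.PD Module Pool.Agent.Y201.C3

/-- Systems of forms in more than `∑ e q ^ r` variables over a field of transcendence degree `r`. -/
theorem s_lang : S_LANG := by
  classical
  intro F _ _ r h I Q _ _ e he φ hφ hcard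
  obtain ⟨ι, b, hb⟩ := exists_isTranscendenceBasis' ℂ F
  have hc := hb.cardinalMk_eq_trdeg
  rw [← hc] at h
  have hfin : Finite ι := by
    rw [← Cardinal.lt_aleph0_iff_finite]
    exact h.trans_lt (Cardinal.natCast_lt_aleph0 (n := r))
  obtain ⟨m, ⟨en⟩⟩ := Finite.exists_equiv_fin ι
  have hm : m ≤ r := by
    have h1 : Cardinal.mk ι = m := by
      rw [Cardinal.mk_congr en, Cardinal.mk_fin]
    rw [h1] at h
    exact_mod_cast h
  obtain ⟨t, ht⟩ : ∃ t : Fin m → F, t = b ∘ en.symm := ⟨_, rfl⟩
  have htI : AlgebraicIndependent ℂ t := by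
    rw [ht]
    exact hb.1.comp _ en.symm.injective
  have hrange : Set.range t = Set.range b := by
    rw [ht, Set.range_comp, en.symm.surjective.range_eq, Set.image_univ]
  have halg := hb.isAlgebraic_field
  rw [← hrange] at halg
  let E := IntermediateField.adjoin ℂ (Set.range t)
  let L := IntermediateField.adjoin E
    ((Finset.univ.biUnion fun q => (φ q).support.image (φ q).coeff : Finset F) : Set F)
  have hfd : FiniteDimensional E L :=
    IntermediateField.finiteDimensional_adjoin fun c _ => (Algebra.IsAlgebraic.isAlgebraic c).isIntegral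
  have htower : IsScalarTower ℂ L F := IsScalarTower.of_algebraMap_eq fun _ => rfl
  let ω := Module.finBasis E L
  have hE : ∀ c : E, ∃ p q : MvPolynomial (Fin m) ℂ, aeval t q ≠ 0 ∧ (c : F) * aeval t q = aeval t p := by
    intro c
    obtain ⟨p, q, hpq⟩ := (IntermediateField.mem_adjoin_range_iff ℂ t (c : F)).1 c.2
    by_cases hq : aeval t q = 0
    · rw [hq, div_zero] at hpq
      refine ⟨0, 1, ?_, ?_⟩
      · rw [map_one]
        exact one_ne_zero
      · rw [map_one, mul_one, map_zero, hpq]
    · exact ⟨p, q, hq, by rw [hpq, div_mul_cancel₀ _ hq]⟩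
  have htE : ∀ i, t i ∈ E := fun i => IntermediateField.subset_adjoin _ _ ⟨i, rfl⟩
  obtain ⟨tL, htL⟩ : ∃ tL : Fin m → L, ∀ i, (tL i : F) = t i :=
    ⟨fun i => algebraMap E L ⟨t i, htE i⟩, fun i => rfl⟩
  have hval : ∀ p : MvPolynomial (Fin m) ℂ, ((aeval tL p : L) : F) = aeval t p := by
    intro p
    have h1 : t = fun i => algebraMap L F (tL i) := by
      funext i
      exact (htL i).symm
    rw [h1]
    exact (MvPolynomial.aeval_algebraMap_apply F tL p).symm
  have htLI : AlgebraicIndependent ℂ tL := by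
    rw [algebraicIndependent_iff]
    intro p hp
    refine (algebraicIndependent_iff.1 htI) p ?_
    rw [← hval, hp]
    rfl
  have hcd : ∀ (c : Fin (Module.finrank E L) → E), ∃ h : MvPolynomial (Fin m) ℂ, aeval t h ≠ 0 ∧
      ∃ p : Fin (Module.finrank E L) → MvPolynomial (Fin m) ℂ, ∀ j, aeval t h * (c j : F) =
        aeval t (p j) := by
    intro c
    choose p q hq hpq using fun j => hE (c j)
    refine ⟨∏ j, q j, ?_, fun j => p j * ∏ i ∈ Finset.univ.erase j, q i, ?_⟩
    · rw [map_prod]
      exact Finset.prod_ne_zero_iff.2 fun j _ => hq j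
    · intro j
      rw [map_mul, ← hpq j, ← Finset.mul_prod_erase Finset.univ q (Finset.mem_univ j), map_mul]
      ring
  have hspan : ∀ z : L, ∃ h : MvPolynomial (Fin m) ℂ, h ≠ 0 ∧
      ∃ p : Fin (Module.finrank E L) → MvPolynomial (Fin m) ℂ,
      aeval tL h * z = ∑ j, aeval tL (p j) * ω j := by
    intro z
    obtain ⟨h, hh, p, hp⟩ := hcd (fun j => ω.repr z j)
    refine ⟨h, ?_, p, ?_⟩
    · rintro rfl
      exact hh (map_zero _)
    · conv_lhs => rw [← ω.sum_repr z]
      rw [Finset.mul_sum]
      refine Finset.sum_congr rfl fun j _ => ?_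
      have h1 : aeval tL (p j) = aeval tL h * algebraMap E L (ω.repr z j) := by
        apply Subtype.ext
        rw [hval, ← hp j]
        change _ = ((aeval tL h : L) : F) * _
        rw [hval]
        rfl
      rw [h1, Algebra.smul_def, mul_assoc]
  have hlin : ∀ p : Fin (Module.finrank E L) → MvPolynomial (Fin m) ℂ,
      ∑ j, aeval tL (p j) * ω j = 0 → ∀ j, p j = 0 := by
    intro p hp j
    have hmem : ∀ g : MvPolynomial (Fin m) ℂ, aeval t g ∈ E := fun g =>
      (IntermediateField.mem_adjoin_range_iff ℂ t _).2 ⟨g, 1, by rw [map_one, div_one]⟩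
    have h1 : ∑ j, (⟨aeval t (p j), hmem _⟩ : E) • ω j = 0 := by
      rw [← hp]
      refine Finset.sum_congr rfl fun j _ => ?_
      rw [Algebra.smul_def]
      congr 1
      apply Subtype.ext
      rw [hval]
      rfl
    have h2 := (Fintype.linearIndependent_iff.1 ω.linearIndependent) _ h1 j
    exact (algebraicIndependent_iff.1 htI) _ (congrArg Subtype.val h2)
  -- the forms over `L`
  have hcoef : ∀ q d, (φ q).coeff d ∈ L := by
    intro q d
    by_cases hd : d ∈ (φ q).support
    · refine IntermediateField.subset_adjoin _ _ (Finset.mem_coe.2 ?_)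
      exact Finset.mem_biUnion.2 ⟨q, Finset.mem_univ _, Finset.mem_image_of_mem _ hd⟩
    · rw [notMem_support_iff.1 hd]
      exact zero_mem _
  have hφL' : ∀ q, ∃ φL : MvPolynomial I L, map (algebraMap L F) φL = φ q := by
    intro q
    refine ⟨∑ d ∈ (φ q).support, monomial d ⟨(φ q).coeff d, hcoef q d⟩, ?_⟩
    rw [map_sum]
    conv_rhs => rw [(φ q).as_sum]
    refine Finset.sum_congr rfl fun d _ => ?_
    rw [map_monomial]
    rfl
  choose φL hφL using hφL'
  have hφL2 : ∀ q, IsWeightedHomogeneous (1 : I → ℕ) (φL q) (e q) := by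
    intro q d hd
    refine hφ q ?_
    rw [← hφL, coeff_map]
    intro h0
    exact hd ((algebraMap L F).injective (by rw [h0, map_zero]))
  obtain ⟨a, ha, ha0⟩ := Pool.Agent.N122.Lang.lang (m := m) tL ω htLI hspan hlin (1 : I → ℕ)
    (fun _ => le_refl 1) e he φL hφL2 (by
      have h1 : ∑ i : I, (1 : I → ℕ) i ^ m = Fintype.card I := by
        simp
      rw [h1]
      exact (Finset.sum_le_sum fun q _ => Nat.pow_le_pow_right (he q) hm).trans_lt hcard)
  refine ⟨fun i => (a i : F), ?_, ?_⟩
  · intro h0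
    apply ha
    funext i
    exact Subtype.ext (congrFun h0 i)
  · intro q
    have h1 := congrArg (algebraMap L F) (ha0 q)
    rw [map_zero] at h1
    rw [← hφL, eval_map, ← h1]
    exact (eval₂_comp _ _ _).symm

theorem eval_Bg' {σ : Type} [Fintype σ] {I κ : Type} [Field κ] [Algebra ℂ κ]
    (T : σ → σ → σ → ℂ) (z : I → κ) (u v w : σ → MvPolynomial I κ) :
    eval z (Bg T u v w) = Bg T (fun i => eval z (u i)) (fun i => eval z (v i))
      (fun i => eval z (w i)) := by
  unfold Bg
  simp only [map_sum, map_mul]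
  refine Finset.sum_congr rfl fun i _ => Finset.sum_congr rfl fun j _ =>
    Finset.sum_congr rfl fun k _ => ?_
  congr 3
  rw [IsScalarTower.algebraMap_apply ℂ κ (MvPolynomial I κ)]
  exact eval_C _

/-- homogeneity of a trilinear form -/
theorem Bg_hom' {σ : Type} [Fintype σ] {I K : Type} [Field K] [Algebra ℂ K] (T : σ → σ → σ → ℂ)
    (u v w : σ → MvPolynomial I K) (a b c : ℕ) (hu : ∀ i, (u i).IsHomogeneous a)
    (hv : ∀ i, (v i).IsHomogeneous b) (hw : ∀ i, (w i).IsHomogeneous c) :
    (Bg T u v w).IsHomogeneous (a + b + c) := by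
  unfold Bg
  refine IsHomogeneous.sum _ _ _ fun i _ => IsHomogeneous.sum _ _ _ fun j _ =>
    IsHomogeneous.sum _ _ _ fun k _ => ?_
  have h0 : (algebraMap ℂ (MvPolynomial I K) (T i j k)).IsHomogeneous 0 := by
    rw [IsScalarTower.algebraMap_apply ℂ K (MvPolynomial I K)]
    exact isHomogeneous_C I _
  have h1 := ((h0.mul (hu i)).mul (hv j)).mul (hw k)
  rwa [zero_add] at h1

/-- the linear form `B(a, b, ·)` -/
def lfm {N : ℕ} (T : Fin N → Fin N → Fin N → ℂ) {K : Type} [Field K] [Algebra ℂ K]
    (a b : Fin N → K) : (Fin N → K) →ₗ[K] K where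
  toFun v := Bg T a b v
  map_add' u v := Bg_add3 T a b u v
  map_smul' c v := Bg_smul3 T c a b v

/-- A new vector. -/
theorem s_q : S_Q := by
  classical
  intro N T hT K _ _ ρ hρ ι _ t hcard
  let Λ : (Fin N → K) →ₗ[K] (Sym2 ι → K) :=
    LinearMap.pi fun z => lfm T (t (Quot.out z).1) (t (Quot.out z).2)
  have h1 := LinearMap.finrank_range_add_finrank_ker Λ
  have h2 : finrank K (LinearMap.range Λ) ≤ Fintype.card (Sym2 ι) := by
    have := Submodule.finrank_le (LinearMap.range Λ)
    rwa [Module.finrank_fintype_fun_eq_card] at this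
  have h3 : Fintype.card (Sym2 ι) = Fintype.card ι * (Fintype.card ι + 1) / 2 := by
    rw [Sym2.card, Nat.choose_two_right, Nat.add_sub_cancel, mul_comm]
  have h4 : finrank K (Submodule.span K (Set.range t)) ≤ Fintype.card ι := finrank_range_le_card t
  obtain ⟨W, hW⟩ := Submodule.exists_isCompl (Submodule.span K (Set.range t))
  have h5 := Submodule.finrank_add_eq_of_isCompl hW
  rw [Module.finrank_fin_fun] at h5 h1
  have h6 := Submodule.finrank_sup_add_finrank_inf_eq (LinearMap.ker Λ) W
  have h7 : finrank K (LinearMap.ker Λ ⊔ W : Submodule K (Fin N → K)) ≤ N := by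
    have := Submodule.finrank_le (LinearMap.ker Λ ⊔ W)
    rwa [Module.finrank_fin_fun] at this
  set V : Submodule K (Fin N → K) := LinearMap.ker Λ ⊓ W with hV
  have h8 : Fintype.card ι * 2 ^ ρ < finrank K V := by
    rw [h3] at h2
    generalize Fintype.card ι * 2 ^ ρ = u at *
    generalize Fintype.card ι * (Fintype.card ι + 1) / 2 = u' at *
    omega
  let b := Module.finBasis K V
  let G : Fin N → MvPolynomial (Fin (finrank K V)) K := fun i =>
    ∑ j, MvPolynomial.X j * C ((b j : Fin N → K) i)
  have hG : ∀ i, (G i).IsHomogeneous 1 := fun i => IsHomogeneous.sum _ _ _ fun j _ => by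
    have h1 := (isHomogeneous_X K j).mul
      (isHomogeneous_C (Fin (finrank K V)) ((b j : Fin N → K) i))
    exact h1
  obtain ⟨a, ha, ha0⟩ := s_lang K ρ hρ (Fin (finrank K V)) ι (fun _ => 2)
    (fun _ => by norm_num) (fun i => Bg T (fun l => C (t i l)) G G)
    (fun i => by
      have h1 := Bg_hom' T (fun l => (C (t i l) : MvPolynomial (Fin (finrank K V)) K)) G G 0 1 1
        (fun l => isHomogeneous_C _ _) hG hG
      exact h1)
    (by
      rw [Finset.sum_const, Finset.card_univ, smul_eq_mul, Fintype.card_fin]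
      exact h8)
  let q : V := ∑ j, a j • b j
  have hq : ∀ l, (q : Fin N → K) l = ∑ j, a j * (b j : Fin N → K) l := by
    intro l
    have h9 : (q : Fin N → K) = ∑ j, a j • (b j : Fin N → K) := by
      simp only [q, Submodule.coe_sum, Submodule.coe_smul]
    rw [h9, Finset.sum_apply]
    rfl
  have hq0 : q ≠ 0 := by
    intro h0
    exact ha (funext fun j => (Fintype.linearIndependent_iff.1 b.linearIndependent) a h0 j)
  refine ⟨q, fun hmem => ?_, fun i j => ?_, fun i => ?_⟩
  · have h9 : (q : Fin N → K) ∈ Submodule.span K (Set.range t) ⊓ W := ⟨hmem, q.2.2⟩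
    rw [hW.inf_eq_bot] at h9
    exact hq0 (Subtype.ext ((Submodule.mem_bot K).1 h9))
  · have h9 : Λ (q : Fin N → K) = 0 := LinearMap.mem_ker.1 q.2.1
    have h10 : Bg T (t (Quot.out (Sym2.mk i j)).1) (t (Quot.out (Sym2.mk i j)).2) q = 0 :=
      congrFun h9 (Sym2.mk i j)
    have h11 : Sym2.mk (Quot.out (Sym2.mk i j)).1 (Quot.out (Sym2.mk i j)).2 = Sym2.mk i j :=
      Quot.out_eq (Sym2.mk i j)
    rcases Sym2.eq_iff.1 h11 with ⟨h12, h13⟩ | ⟨h12, h13⟩
    · rw [h12, h13] at h10
      exact h10
    · rw [h12, h13] at h10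
      rw [Bg_swap12 hT]
      exact h10
  · have h9 := ha0 i
    rw [eval_Bg'] at h9
    have h10 : (fun l => eval a (G l)) = (q : Fin N → K) := by
      funext l
      simp only [G, map_sum, map_mul, eval_X, eval_C]
      exact (hq l).symm
    rw [h10] at h9
    simpa only [eval_C] using h9

end Pool.Agent.K9h4.RH
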