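import Mathlib
import Pool.Agent.K9h4.RH.Red0

/-! # Job RED -/

set_option autoImplicit false

namespace Pool.Agent.K9h4.RH

open MvPolynomial Pool.Agent.TH314.PD Module FF IntermediateField Pool.Agent.Y201.C3
open Pool.Agent.R845.T2 Pool.Agent.R845.E3 Pool.Agent.N122

/-- the values of the trilinear form at linear combinations -/
theorem Bg_comb {N : ℕ} {T : Fin N → Fin N → Fin N → ℂ} (hT : SymG T) {K : Type} [Field K]
    [Algebra ℂ K] {ι : Type} [Fintype ι] (v : ι → Fin N → K) (a b c : ι → K) :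
    Bg T (fun i => ∑ m, a m * v m i) (fun i => ∑ m, b m * v m i) (fun i => ∑ m, c m * v m i) =
      ∑ m, ∑ m', ∑ m'', a m * b m' * c m'' * Bg T (v m) (v m') (v m'') := by
  rw [Bg_sum1 T Finset.univ (fun m i => a m * v m i)]
  refine Finset.sum_congr rfl fun m _ => ?_
  rw [Bg_sum2 hT Finset.univ (fun m i => b m * v m i)]
  refine Finset.sum_congr rfl fun m' _ => ?_
  rw [Bg_sum3 hT Finset.univ (fun m i => c m * v m i)]
  refine Finset.sum_congr rfl fun m'' _ => ?_
  rw [Bg_smul1, Bg_smul2, Bg_smul3]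
  ring

theorem Pz_comb {N : ℕ} {T : Fin N → Fin N → Fin N → ℂ} (hT : SymG T) {K : Type} [Field K]
    [Algebra ℂ K] {ι κ : Type} [Fintype ι] {v : ι → Fin N → K} {u : κ → Fin N → K}
    (C : κ → ι → K) (hC : ∀ l i, u l i = ∑ m, C l m * v m i) (hv : Pz T v) : Pz T u := by
  intro i j k
  have h : ∀ l, u l = fun i => ∑ m, C l m * v m i := fun l => funext fun i => hC l i
  rw [h i, h j, h k, Bg_comb hT]
  refine Finset.sum_eq_zero fun m _ => Finset.sum_eq_zero fun m' _ =>
    Finset.sum_eq_zero fun m'' _ => ?_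
  rw [hv, mul_zero]

theorem red_sum {L : Type} [Field L] [Algebra ℂ L] (w : Place ℂ L) {ι : Type} (s : Finset ι)
    (f : ι → L) (hf : ∀ i ∈ s, w.Reg (f i)) :
    w.Reg (∑ i ∈ s, f i) ∧ w.red (∑ i ∈ s, f i) = ∑ i ∈ s, w.red (f i) := by
  classical
  induction s using Finset.induction_on with
  | empty =>
    rw [Finset.sum_empty, Finset.sum_empty]
    exact ⟨w.reg_zero, w.red_zero⟩
  | insert a s ha ih =>
    obtain ⟨h1, h2⟩ := ih fun i hi => hf i (Finset.mem_insert_of_mem hi)
    have h3 := hf a (Finset.mem_insert_self a s)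
    rw [Finset.sum_insert ha, Finset.sum_insert ha]
    exact ⟨w.reg_add h3 h1, by rw [w.red_add h3 h1, h2]⟩

section kap

variable {K L : Type} [Field K] [Field L] [Algebra ℂ K] [Algebra K L] [Algebra ℂ L]
  [IsScalarTower ℂ K L] (w : Place ℂ L)

/-- the reduction of a vector over `K` -/
noncomputable def kv {N : ℕ} (u : Fin N → K) (hu : ∀ i, w.Reg (algebraMap K L (u i))) :
    Fin N → NT.kap K w :=
  fun i => ⟨w.red (algebraMap K L (u i)), NT.mem_kap w (hu i)⟩

theorem kv_coe {N : ℕ} (u : Fin N → K) (hu : ∀ i, w.Reg (algebraMap K L (u i))) (i : Fin N) :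
    (kv w u hu i : w.RF) = w.red (algebraMap K L (u i)) := rfl

/-- the polar values of the reductions -/
theorem Bg_kv {N : ℕ} (T : Fin N → Fin N → Fin N → ℂ) (x y z : Fin N → K)
    (hx : ∀ i, w.Reg (algebraMap K L (x i))) (hy : ∀ i, w.Reg (algebraMap K L (y i)))
    (hz : ∀ i, w.Reg (algebraMap K L (z i))) :
    w.Reg (algebraMap K L (Bg T x y z)) ∧
      ((Bg T (kv w x hx) (kv w y hy) (kv w z hz) : NT.kap K w) : w.RF) =
        w.red (algebraMap K L (Bg T x y z)) := by
  have h1 : algebraMap K L (Bg T x y z) = Bg T (fun i => algebraMap K L (x i))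
      (fun i => algebraMap K L (y i)) (fun i => algebraMap K L (z i)) := by
    have := map_Bg (IsScalarTower.toAlgHom ℂ K L) T x y z
    simpa using this
  obtain ⟨h2, h3⟩ := red_Bg w T _ _ _ hx hy hz
  rw [h1]
  refine ⟨h2, ?_⟩
  rw [h3]
  have := map_Bg (NT.kap K w).val T (kv w x hx) (kv w y hy) (kv w z hz)
  exact this

theorem kv_indep {N s : ℕ} (u : Fin s → Fin N → NT.kap K w) (σ : Fin s → Fin N)
    (h : ∀ l m, u l (σ m) = if l = m then 1 else 0) : LinearIndependent (NT.kap K w) u := by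
  rw [Fintype.linearIndependent_iff]
  intro g hg m
  have h1 := congrFun hg (σ m)
  simp only [Finset.sum_apply, Pi.smul_apply, smul_eq_mul, Pi.zero_apply, h, mul_ite, mul_one,
    mul_zero, Finset.sum_ite_eq', Finset.mem_univ, if_true] at h1
  exact h1

end kap

/-- **Job RED** -/
theorem s_red : S_RED := by
  classical
  intro N T hT K L _ _ _ _ _ _ w s v hv hPz α hα
  obtain ⟨u, σ, C, C', hreg, hδ, hC, hC'⟩ := s_red0 N K L w s v hv
  have hu : Pz T u := Pz_comb hT C hC hPz
  -- the combination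
  have hW : ∀ i, ∑ l, α l * algebraMap K L (v l i) =
      ∑ m, (∑ l, α l * algebraMap K L (v l (σ m))) * algebraMap K L (u m i) := by
    intro i
    have h1 : ∀ l m, v l (σ m) = C' l m := by
      intro l m
      rw [hC' l (σ m)]
      simp [hδ]
    have h2 : ∀ l, algebraMap K L (v l i) = ∑ m, algebraMap K L (C' l m) *
        algebraMap K L (u m i) := by
      intro l
      rw [hC' l i, map_sum]
      exact Finset.sum_congr rfl fun m _ => map_mul _ _ _
    simp only [h1, h2, Finset.mul_sum, Finset.sum_mul]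
    rw [Finset.sum_comm]
    refine Finset.sum_congr rfl fun m _ => Finset.sum_congr rfl fun l _ => ?_
    ring
  refine ⟨fun l => kv w (u l) (hreg l), fun m => w.red (∑ l, α l * algebraMap K L (v l (σ m))),
    ?_, ?_, ?_⟩
  · refine kv_indep w _ σ fun l m => ?_
    apply Subtype.ext
    rw [kv_coe, hδ]
    by_cases h : l = m
    · simp [h, w.red_one]
    · simp [h, w.red_zero]
  · intro i j k
    have h1 := (Bg_kv w T (u i) (u j) (u k) (hreg i) (hreg j) (hreg k)).2
    rw [hu, map_zero, w.red_zero] at h1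
    exact Subtype.ext h1
  · intro i
    rw [hW i]
    have h1 : ∀ m ∈ (Finset.univ : Finset (Fin s)),
        w.Reg ((∑ l, α l * algebraMap K L (v l (σ m))) * algebraMap K L (u m i)) :=
      fun m _ => w.reg_mul (hα (σ m)) (hreg m i)
    rw [(red_sum w _ _ h1).2]
    refine Finset.sum_congr rfl fun m _ => ?_
    rw [w.red_mul (hα (σ m)) (hreg m i)]
    rfl

end Pool.Agent.K9h4.RH
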