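import Mathlib
import Pool.Agent.R845.Irr
import Pool.Agent.K9h4.RH.Fin2

/-! # Sharpness: cubics with two disjoint linear subspaces of half the dimension -/

set_option autoImplicit false

namespace Pool.Agent.K9h4.RH

open MvPolynomial Pool.Agent.TH314.PD Module IntermediateField Pool.Agent.R845.T2
open Pool.Agent.R845.E3 Pool.Agent.N122

noncomputable section

/-- the indices of the first half of the variables -/
def yi (m : ℕ) (i : Fin (m + 1)) : Fin (2 * m + 2) := ⟨i, by omega⟩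

/-- the indices of the second half of the variables -/
def zi (m : ℕ) (i : Fin (m + 1)) : Fin (2 * m + 2) := ⟨m + 1 + i, by omega⟩

theorem yi_inj {m : ℕ} {i j : Fin (m + 1)} (h : yi m i = yi m j) : i = j := by
  have h1 := congrArg Fin.val h
  simp only [yi] at h1
  exact Fin.ext h1

theorem zi_inj {m : ℕ} {i j : Fin (m + 1)} (h : zi m i = zi m j) : i = j := by
  have h1 := congrArg Fin.val h
  simp only [zi] at h1
  exact Fin.ext (by omega)

theorem yi_ne_zi {m : ℕ} (i j : Fin (m + 1)) : yi m i ≠ zi m j := by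
  intro h
  have h1 := congrArg Fin.val h
  simp only [yi, zi] at h1
  omega

theorem yz_cases {m : ℕ} (l : Fin (2 * m + 2)) : (∃ i, l = yi m i) ∨ ∃ i, l = zi m i := by
  by_cases h : (l : ℕ) < m + 1
  · exact Or.inl ⟨⟨l, h⟩, rfl⟩
  · exact Or.inr ⟨⟨l - (m + 1), by omega⟩, Fin.ext (by simp only [zi]; omega)⟩

/-- the cubic form `∑ (y_i ^ 2 z_i + y_i z_i ^ 2)` -/
def Fs (m : ℕ) : MvPolynomial (Fin (2 * m + 2)) ℂ :=
  ∑ i : Fin (m + 1), (X (yi m i) ^ 2 * X (zi m i) + X (yi m i) * X (zi m i) ^ 2)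

theorem aeval_Fs (m : ℕ) {R : Type} [CommRing R] [Algebra ℂ R] (v : Fin (2 * m + 2) → R) :
    aeval v (Fs m) = ∑ i, (v (yi m i) ^ 2 * v (zi m i) + v (yi m i) * v (zi m i) ^ 2) := by
  unfold Fs
  simp only [map_sum, map_add, map_mul, map_pow, aeval_X]

theorem Fs_hom (m : ℕ) : (Fs m).IsHomogeneous 3 := by
  unfold Fs
  refine IsHomogeneous.sum _ _ _ fun i _ => ?_
  refine IsHomogeneous.add ?_ ?_
  · exact ((isHomogeneous_X ℂ (yi m i)).pow 2).mul (isHomogeneous_X ℂ (zi m i))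
  · exact (isHomogeneous_X ℂ (yi m i)).mul ((isHomogeneous_X ℂ (zi m i)).pow 2)

theorem pd_y (m : ℕ) (j : Fin (m + 1)) (v : Fin (2 * m + 2) → ℂ) :
    eval v (pderiv (yi m j) (Fs m)) = v (zi m j) * (2 * v (yi m j) + v (zi m j)) := by
  classical
  unfold Fs
  rw [map_sum, map_sum, Finset.sum_eq_single j]
  · simp only [map_add, Derivation.leibniz, Derivation.leibniz_pow, pderiv_X_self, map_mul,
      pderiv_X_of_ne (yi_ne_zi j j).symm, smul_eq_mul, eval_X, map_pow]
    simp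
    ring
  · intro i _ hi
    have h1 : yi m i ≠ yi m j := fun h => hi (yi_inj h)
    simp [Derivation.leibniz, Derivation.leibniz_pow, pderiv_X_of_ne h1,
      pderiv_X_of_ne (yi_ne_zi j i).symm]
  · intro h
    exact absurd (Finset.mem_univ _) h

theorem pd_z (m : ℕ) (j : Fin (m + 1)) (v : Fin (2 * m + 2) → ℂ) :
    eval v (pderiv (zi m j) (Fs m)) = v (yi m j) * (v (yi m j) + 2 * v (zi m j)) := by
  classical
  unfold Fs
  rw [map_sum, map_sum, Finset.sum_eq_single j]
  · simp only [map_add, Derivation.leibniz, Derivation.leibniz_pow, pderiv_X_self, map_mul,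
      pderiv_X_of_ne (yi_ne_zi j j), smul_eq_mul, eval_X, map_pow]
    simp
    ring
  · intro i _ hi
    have h1 : zi m i ≠ zi m j := fun h => hi (zi_inj h)
    simp [Derivation.leibniz, Derivation.leibniz_pow, pderiv_X_of_ne h1,
      pderiv_X_of_ne (yi_ne_zi i j)]
  · intro h
    exact absurd (Finset.mem_univ _) h

theorem Fs_sm (m : ℕ) : ∀ v : Fin (2 * m + 2) → ℂ, (∀ l, eval v (pderiv l (Fs m)) = 0) → v = 0 := by
  intro v hv
  have key : ∀ i : Fin (m + 1), v (yi m i) = 0 ∧ v (zi m i) = 0 := by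
    intro i
    have h1 := hv (yi m i)
    have h2 := hv (zi m i)
    rw [pd_y] at h1
    rw [pd_z] at h2
    rcases mul_eq_zero.1 h1 with h3 | h3
    · rw [h3, mul_zero, add_zero] at h2
      exact ⟨mul_self_eq_zero.1 h2, h3⟩
    · have h4 : v (zi m i) = -2 * v (yi m i) := by linear_combination h3
      rw [h4] at h2
      have h5 : v (yi m i) = 0 := by
        have h6 : v (yi m i) * v (yi m i) = 0 := by linear_combination (-1 / 3) * h2
        exact mul_self_eq_zero.1 h6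
      exact ⟨h5, by rw [h4, h5, mul_zero]⟩
  funext l
  rcases yz_cases l with ⟨i, rfl⟩ | ⟨i, rfl⟩
  · exact (key i).1
  · exact (key i).2

/-- a point of the cubic with `∑ y_i z_i ^ 2 ≠ 0` -/
def pt (m : ℕ) : Fin (2 * m + 2) → ℂ := fun l =>
  if l = yi m 0 then 1 else if l = zi m 0 then -1 else 0

theorem pt_y (m : ℕ) (i : Fin (m + 1)) : pt m (yi m i) = if i = 0 then 1 else 0 := by
  unfold pt
  by_cases h : i = 0
  · rw [h, if_pos rfl, if_pos rfl]
  · rw [if_neg (fun h1 => h (yi_inj h1)), if_neg (yi_ne_zi i 0), if_neg h]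

theorem pt_z (m : ℕ) (i : Fin (m + 1)) : pt m (zi m i) = if i = 0 then -1 else 0 := by
  unfold pt
  rw [if_neg (yi_ne_zi 0 i).symm]
  by_cases h : i = 0
  · rw [h, if_pos rfl, if_pos rfl]
  · rw [if_neg (fun h1 => h (zi_inj h1)), if_neg h]

/-- the form `∑ y_i z_i ^ 2` -/
def Bs (m : ℕ) : MvPolynomial (Fin (2 * m + 2)) ℂ :=
  ∑ i : Fin (m + 1), X (yi m i) * X (zi m i) ^ 2

theorem Bs_hom (m : ℕ) : (Bs m).IsHomogeneous 3 := by
  unfold Bs
  refine IsHomogeneous.sum _ _ _ fun i _ => ?_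
  exact (isHomogeneous_X ℂ (yi m i)).mul ((isHomogeneous_X ℂ (zi m i)).pow 2)

theorem aeval_Bs (m : ℕ) {R : Type} [CommRing R] [Algebra ℂ R] (v : Fin (2 * m + 2) → R) :
    aeval v (Bs m) = ∑ i, v (yi m i) * v (zi m i) ^ 2 := by
  unfold Bs
  simp only [map_sum, map_mul, map_pow, aeval_X]

theorem not_dvd_Bs (m : ℕ) : ¬ Fs m ∣ Bs m := by
  rintro ⟨G, hG⟩
  have h0 : aeval (pt m) (Fs m) = 0 := by
    rw [aeval_Fs]
    refine Finset.sum_eq_zero fun i _ => ?_
    rw [pt_y, pt_z]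
    by_cases h : i = 0
    · rw [if_pos h, if_pos h]
      ring
    · rw [if_neg h, if_neg h]
      ring
  have h1 := congrArg (aeval (pt m)) hG
  rw [map_mul, h0, zero_mul, aeval_Bs, Finset.sum_eq_single 0, pt_y, pt_z, if_pos rfl,
    if_pos rfl] at h1
  · norm_num at h1
  · intro i _ hi
    rw [pt_y, if_neg hi, zero_mul]
  · intro h
    exact absurd (Finset.mem_univ _) h

theorem Fs_ne (m : ℕ) : Fs m ≠ 0 := by
  intro h
  have h1 := Fs_sm m (fun _ => 1) (by
    intro l
    rw [h, map_zero, map_zero])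
  have h2 := congrFun h1 0
  simp at h2

theorem not_dvd_X (m : ℕ) (l : Fin (2 * m + 2)) : ¬ Fs m ∣ X l := by
  rintro ⟨G, hG⟩
  have hG0 : G ≠ 0 := by
    rintro rfl
    rw [mul_zero] at hG
    exact X_ne_zero l hG
  have h1 := congrArg totalDegree hG
  rw [totalDegree_mul_of_isDomain (Fs_ne m) hG0, (Fs_hom m).totalDegree (Fs_ne m),
    totalDegree_X] at h1
  omega

/-- the generic point of the cubic, over its function field -/
theorem exists_generic (m : ℕ) (hm : 1 ≤ m) : ∃ (M : Type) (_ : Field M) (_ : Algebra ℂ M)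
    (x : Fin (2 * m + 2) → M), Gp (Fs m) x ∧ Odd (finrank (ratioField x) M) := by
  classical
  have hirr : Irreducible (Fs m) := Pool.Agent.R845.irreducible_of_smooth (by omega) (by norm_num)
    (Fs_hom m) (Fs_ne m) (Fs_sm m)
  have hprime : (Ideal.span {Fs m} : Ideal (MvPolynomial (Fin (2 * m + 2)) ℂ)).IsPrime :=
    (Ideal.span_singleton_prime (Fs_ne m)).2 hirr.prime
  let A := MvPolynomial (Fin (2 * m + 2)) ℂ ⧸ (Ideal.span {Fs m} : Ideal (MvPolynomial _ ℂ))
  have : IsDomain A := Ideal.Quotient.isDomain _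
  let Kf := FractionRing A
  let ξ : Fin (2 * m + 2) → Kf := fun i => algebraMap A Kf (Ideal.Quotient.mk _ (X i))
  have hξ : ∀ H : MvPolynomial (Fin (2 * m + 2)) ℂ,
      aeval ξ H = algebraMap A Kf (Ideal.Quotient.mk _ H) := by
    intro H
    have h1 := comp_aeval_apply (f := (X : Fin (2 * m + 2) → MvPolynomial (Fin (2 * m + 2)) ℂ))
      ((IsScalarTower.toAlgHom ℂ A Kf).comp (Ideal.Quotient.mkₐ ℂ
        (Ideal.span {Fs m} : Ideal (MvPolynomial _ ℂ)))) H
    rw [aeval_X_left_apply] at h1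
    exact h1.symm
  have hξ0 : ∀ H : MvPolynomial (Fin (2 * m + 2)) ℂ, aeval ξ H = 0 ↔ Fs m ∣ H := by
    intro H
    rw [hξ, map_eq_zero_iff _ (IsFractionRing.injective A Kf), Ideal.Quotient.eq_zero_iff_mem,
      Ideal.mem_span_singleton]
  have hne : ∀ i, ξ i ≠ 0 := by
    intro i h
    refine not_dvd_X m i ((hξ0 (X i)).1 ?_)
    rw [aeval_X]
    exact h
  let M := ratioField ξ
  let x : Fin (2 * m + 2) → M := fun i => ⟨ξ i / ξ 0, subset_adjoin _ _ ⟨i, 0, rfl⟩⟩
  have hx : ∀ H : MvPolynomial (Fin (2 * m + 2)) ℂ, ∀ e, H.IsHomogeneous e →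
      ((aeval x H : M) : Kf) = (ξ 0)⁻¹ ^ e * aeval ξ H := by
    intro H e hH
    have h1 := comp_aeval_apply (f := x) M.val H
    change M.val (aeval x H) = _
    rw [h1, ← aeval_smul_form hH]
    congr 2
    funext i
    change ξ i / ξ 0 = _
    rw [div_eq_inv_mul]
  have hinv : ∀ e : ℕ, (ξ 0)⁻¹ ^ e ≠ 0 := fun e => pow_ne_zero _ (inv_ne_zero (hne 0))
  refine ⟨M, inferInstance, inferInstance, x, ⟨?_, ?_⟩, ?_⟩
  · apply Subtype.ext
    rw [hx _ 3 (Fs_hom m), (hξ0 _).2 (dvd_refl _), mul_zero]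
    rfl
  · intro e H hH h0
    have h1 := hx H e hH
    rw [h0] at h1
    exact (hξ0 H).1 ((mul_eq_zero.1 h1.symm).resolve_left (hinv e))
  · have h1 : ratioField x = ⊤ := by
      apply IntermediateField.lift_injective
      unfold ratioField
      rw [IntermediateField.lift_adjoin, IntermediateField.lift_top]
      change adjoin ℂ _ = adjoin ℂ _
      congr 1
      ext z
      constructor
      · rintro ⟨_, ⟨i, j, rfl⟩, rfl⟩
        refine ⟨i, j, ?_⟩
        change (ξ i / ξ 0) / (ξ j / ξ 0) = _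
        rw [div_div_div_cancel_right₀ (hne 0)]
      · rintro ⟨i, j, rfl⟩
        refine ⟨x i / x j, ⟨i, j, rfl⟩, ?_⟩
        change (ξ i / ξ 0) / (ξ j / ξ 0) = _
        rw [div_div_div_cancel_right₀ (hne 0)]
    rw [h1, IntermediateField.finrank_top]
    exact odd_one

section

variable {m : ℕ} {M : Type} [Field M] [Algebra ℂ M] (x : Fin (2 * m + 2) → M)

/-- the projection to the second linear subspace -/
def cz : Fin (2 * m + 2) → M := fun l => if (l : ℕ) < m + 1 then 0 else x l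

theorem cz_y (i : Fin (m + 1)) : cz x (yi m i) = 0 := if_pos i.2

theorem cz_z (i : Fin (m + 1)) : cz x (zi m i) = x (zi m i) :=
  if_neg (by
    simp only [zi]
    omega)

theorem cz_trdeg (h0 : x (zi m 0) ≠ 0) : Algebra.trdeg ℂ (ratioField (cz x)) ≤ (m : Cardinal) := by
  classical
  let u : Fin m → M := fun l => x (zi m l.succ) / x (zi m 0)
  have hw : ∀ i, cz x i / cz x (zi m 0) ∈ adjoin ℂ (Set.range u) := by
    intro i
    rcases yz_cases i with ⟨j, rfl⟩ | ⟨j, rfl⟩
    · rw [cz_y, zero_div]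
      exact zero_mem _
    · rw [cz_z, cz_z]
      refine Fin.cases ?_ (fun l => ?_) j
      · rw [div_self h0]
        exact one_mem _
      · exact subset_adjoin _ _ ⟨l, rfl⟩
  have hle : ratioField (cz x) ≤ adjoin ℂ (Set.range u) := by
    unfold ratioField
    rw [adjoin_le_iff]
    rintro _ ⟨i, j, rfl⟩
    have h1 : cz x i / cz x j = (cz x i / cz x (zi m 0)) / (cz x j / cz x (zi m 0)) := by
      rw [div_div_div_cancel_right₀ (by rw [cz_z]; exact h0)]
    rw [h1]
    exact div_mem (hw i) (hw j)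
  exact (trdeg_le_of_injective (inclusion hle) (inclusion hle).injective).trans
    (trdeg_adjoin_le m u)

theorem coord_ne (hG : Gp (Fs m) x) (i : Fin (2 * m + 2)) : x i ≠ 0 := by
  intro h
  refine not_dvd_X m i (hG.2 1 (X i) (isHomogeneous_X _ _) ?_)
  rw [aeval_X]
  exact h

end

/-- **Sharpness of the theorem on chords.** -/
theorem sharp_chord (m : ℕ) (hm : 1 ≤ m) : ∃ (M : Type) (_ : Field M) (_ : Algebra ℂ M)
    (x c : Fin (2 * m + 2) → M), (Gp (Fs m) x ∧ Odd (finrank (ratioField x) M)) ∧ c ≠ 0 ∧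
      aeval c (Fs m) = 0 ∧ Algebra.trdeg ℂ (ratioField c) ≤ (m : Cardinal) ∧
      (fun i => x i - c i) ≠ 0 ∧
      aeval (fun i => x i - c i) (Fs m) = 0 ∧ ¬ Gp (Fs m) (fun i => x i - c i) := by
  obtain ⟨M, _, _, x, hG, hodd⟩ := exists_generic m hm
  refine ⟨M, inferInstance, inferInstance, x, cz x, ⟨hG, hodd⟩, ?_, ?_,
    cz_trdeg x (coord_ne x hG _), ?_, ?_, ?_⟩
  · intro h
    have h1 := congrFun h (zi m 0)
    rw [cz_z] at h1
    exact coord_ne x hG _ h1
  · rw [aeval_Fs]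
    refine Finset.sum_eq_zero fun i _ => ?_
    rw [cz_y]
    ring
  · intro h
    have h1 := congrFun h (yi m 0)
    rw [cz_y, sub_zero] at h1
    exact coord_ne x hG _ h1
  · rw [aeval_Fs]
    refine Finset.sum_eq_zero fun i _ => ?_
    rw [cz_y, cz_z]
    ring
  · intro h
    refine not_dvd_X m (zi m 0) (h.2 1 (X (zi m 0)) (isHomogeneous_X _ _) ?_)
    rw [aeval_X, cz_z, sub_self]

section fam

variable {m : ℕ} {L : Type} [Field L] [Algebra ℂ L] (b : Fin (m + 1) → L)

/-- `∑ T_i ^ 2 b_i` -/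
def Ap : MvPolynomial (Fin (m + 1)) L := ∑ i, X i ^ 2 * C (b i)

/-- `∑ T_i b_i ^ 2` -/
def Bp : MvPolynomial (Fin (m + 1)) L := ∑ i, X i * C (b i ^ 2)

/-- the quadratic parametrization -/
def Qs : Fin (2 * m + 2) → MvPolynomial (Fin (m + 1)) L := fun l =>
  if h : (l : ℕ) < m + 1 then Bp b * X ⟨l, h⟩ else - Ap b * C (b ⟨l - (m + 1), by omega⟩)

theorem Qs_y (i : Fin (m + 1)) : Qs b (yi m i) = Bp b * X i := dif_pos i.2

theorem Qs_z (i : Fin (m + 1)) : Qs b (zi m i) = - Ap b * C (b i) := by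
  have h : ¬ ((zi m i : Fin (2 * m + 2)) : ℕ) < m + 1 := by
    simp only [zi]
    omega
  refine (dif_neg h).trans ?_
  congr 3
  apply Fin.ext
  simp only [zi]
  omega

theorem Qs_deg (l : Fin (2 * m + 2)) : (Qs b l).totalDegree ≤ 2 := by
  have hA : (Ap b).totalDegree ≤ 2 := by
    refine totalDegree_finsetSum_le fun i _ => ?_
    refine (totalDegree_mul _ _).trans ?_
    rw [totalDegree_C, add_zero]
    refine (totalDegree_pow _ _).trans ?_
    rw [totalDegree_X]
  have hB : (Bp b).totalDegree ≤ 1 := by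
    refine totalDegree_finsetSum_le fun i _ => ?_
    refine (totalDegree_mul _ _).trans ?_
    rw [totalDegree_C, add_zero, totalDegree_X]
  rcases yz_cases l with ⟨i, rfl⟩ | ⟨i, rfl⟩
  · rw [Qs_y]
    refine (totalDegree_mul _ _).trans ?_
    rw [totalDegree_X]
    omega
  · rw [Qs_z]
    refine (totalDegree_mul _ _).trans ?_
    rw [totalDegree_C, totalDegree_neg]
    omega

theorem Qs_F : aeval (Qs b) (Fs m) = 0 := by
  rw [aeval_Fs]
  have h1 : ∀ i, Qs b (yi m i) ^ 2 * Qs b (zi m i) + Qs b (yi m i) * Qs b (zi m i) ^ 2 =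
      - (Bp b ^ 2 * Ap b) * (X i ^ 2 * C (b i)) + Bp b * Ap b ^ 2 * (X i * C (b i ^ 2)) := by
    intro i
    rw [Qs_y, Qs_z, C_pow]
    ring
  rw [Finset.sum_congr rfl fun i _ => h1 i, Finset.sum_add_distrib, ← Finset.mul_sum,
    ← Finset.mul_sum]
  change - (Bp b ^ 2 * Ap b) * Ap b + Bp b * Ap b ^ 2 * Bp b = 0
  ring

end fam

/-- **Sharpness of the theorem on quadratic families.** -/
theorem sharp_family (m : ℕ) (hm : 1 ≤ m) : ∃ (M : Type) (_ : Field M) (_ : Algebra ℂ M)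
    (L : IntermediateField ℂ M) (Q : Fin (2 * m + 2) → MvPolynomial (Fin (m + 1)) L)
    (w : Fin (m + 1) → M), Algebra.trdeg ℂ L ≤ (m : Cardinal) ∧ (∀ i, (Q i).totalDegree ≤ 2) ∧
      aeval Q (Fs m) = 0 ∧ (Gp (Fs m) (fun i => aeval w (Q i)) ∧
      Odd (finrank (ratioField fun i => aeval w (Q i)) M)) := by
  classical
  obtain ⟨M, _, _, x, hG, hodd⟩ := exists_generic m hm
  have h0 := coord_ne x hG (zi m 0)
  let L := ratioField (cz x)
  let b : Fin (m + 1) → L := fun i => ⟨cz x (zi m i) / cz x (zi m 0),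
    subset_adjoin _ _ ⟨zi m i, zi m 0, rfl⟩⟩
  have hb : ∀ i, ((b i : L) : M) = x (zi m i) / x (zi m 0) := by
    intro i
    change cz x (zi m i) / cz x (zi m 0) = _
    rw [cz_z, cz_z]
  let w : Fin (m + 1) → M := fun i => x (yi m i) / x (zi m 0)
  set S : M := aeval x (Bs m) with hS
  have hS0 : S ≠ 0 := by
    intro h
    exact not_dvd_Bs m (hG.2 3 (Bs m) (Bs_hom m) h)
  have hB : aeval w (Bp b) = S / x (zi m 0) ^ 3 := by
    unfold Bp
    rw [map_sum, hS, aeval_Bs, Finset.sum_div]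
    refine Finset.sum_congr rfl fun i _ => ?_
    rw [map_mul, aeval_X, aeval_C]
    change w i * (((b i ^ 2 : L)) : M) = _
    push_cast
    rw [hb]
    change x (yi m i) / x (zi m 0) * _ = _
    field_simp
  have hA : aeval w (Ap b) = - S / x (zi m 0) ^ 3 := by
    have h1 : ∑ i, x (yi m i) ^ 2 * x (zi m i) = - S := by
      have h2 := hG.1
      rw [aeval_Fs, Finset.sum_add_distrib] at h2
      rw [hS, aeval_Bs]
      linear_combination h2
    unfold Ap
    rw [map_sum, ← h1, Finset.sum_div]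
    refine Finset.sum_congr rfl fun i _ => ?_
    rw [map_mul, map_pow, aeval_X, aeval_C]
    change w i ^ 2 * ((b i : L) : M) = _
    rw [hb]
    change (x (yi m i) / x (zi m 0)) ^ 2 * _ = _
    field_simp
  have hQ : (fun i => aeval w (Qs b i)) = fun i => (S / x (zi m 0) ^ 4) * x i := by
    funext l
    rcases yz_cases l with ⟨i, rfl⟩ | ⟨i, rfl⟩
    · rw [Qs_y, map_mul, aeval_X, hB]
      change _ * (x (yi m i) / x (zi m 0)) = _
      field_simp
    · rw [Qs_z, map_mul, map_neg, hA, aeval_C]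
      change _ * ((b i : L) : M) = _
      rw [hb]
      field_simp
  refine ⟨M, inferInstance, inferInstance, L, Qs b, w, cz_trdeg x h0, Qs_deg b, Qs_F b, ?_⟩
  rw [hQ]
  exact gscale (Fs_hom m) x _ (div_ne_zero hS0 (pow_ne_zero _ h0)) hG hodd

end

end Pool.Agent.K9h4.RH
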