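import Mathlib
import Pool.Agent.K9h4.RH.Sharp

/-! # Sharpness for points of linear subspaces -/

set_option autoImplicit false

namespace Pool.Agent.K9h4.RH

open MvPolynomial Pool.Agent.TH314.PD Module IntermediateField Pool.Agent.R845.T2
open Pool.Agent.R845.E3 Pool.Agent.N122

noncomputable section

/-- **Sharpness of the theorem on chords**, general form. -/
theorem sharp_chord' (ρ r : ℕ) (hm : 1 ≤ ρ + r) : ∃ (M : Type) (_ : Field M) (_ : Algebra ℂ M)
    (x c : Fin (2 * (ρ + r) + 2) → M), (Gp (Fs (ρ + r)) x ∧ Odd (finrank (ratioField x) M)) ∧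
      (∃ (K : IntermediateField ℂ M) (v : Fin (r + 1) → Fin (2 * (ρ + r) + 2) → K)
        (t : Fin (r + 1) → M), Algebra.trdeg ℂ K ≤ (ρ : Cardinal) ∧ LinearIndependent K v ∧
        (∀ a : Fin (r + 1) → K, aeval (fun i => ∑ l, a l * v l i) (Fs (ρ + r)) = 0) ∧ c ≠ 0 ∧
        ∀ i, c i = ∑ l, t l * (v l i : M)) ∧
      (fun i => x i - c i) ≠ 0 ∧
      aeval (fun i => x i - c i) (Fs (ρ + r)) = 0 ∧ ¬ Gp (Fs (ρ + r)) (fun i => x i - c i) := by
  classical
  set m := ρ + r with hmdef
  obtain ⟨M, _, _, x, hG, hodd⟩ := exists_generic m hm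
  have h0 := coord_ne x hG (zi m 0)
  let u : Fin ρ → M := fun l => x (zi m ⟨r + 1 + l, by omega⟩) / x (zi m 0)
  let K := adjoin ℂ (Set.range u)
  let ι : Fin (r + 1) → Fin (m + 1) := fun l => ⟨l, by omega⟩
  have hmem : ∀ j : Fin (m + 1), r < (j : ℕ) → x (zi m j) / x (zi m 0) ∈ K := by
    intro j hj
    refine subset_adjoin _ _ ⟨⟨j - (r + 1), by omega⟩, ?_⟩
    change x (zi m ⟨r + 1 + (j - (r + 1)), _⟩) / _ = _
    congr 3
    apply Fin.ext
    change r + 1 + (j - (r + 1)) = (j : ℕ)
    omega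
  let w : Fin (2 * m + 2) → K := fun i =>
    if h : m + 1 + r < (i : ℕ) then ⟨x i / x (zi m 0), by
      rcases yz_cases i with ⟨j, rfl⟩ | ⟨j, rfl⟩
      · simp only [yi] at h
        omega
      · refine hmem j ?_
        simp only [zi] at h
        omega⟩ else 0
  have hwy : ∀ i, w (yi m i) = 0 := fun i => dif_neg (by
    simp only [yi]
    omega)
  have hwz : ∀ i : Fin (m + 1), (i : ℕ) ≤ r → w (zi m i) = 0 := fun i hi => dif_neg (by
    simp only [zi]
    omega)
  have hwz' : ∀ i : Fin (m + 1), r < (i : ℕ) → ((w (zi m i) : K) : M) = x (zi m i) / x (zi m 0) := by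
    intro i hi
    have h1 : m + 1 + r < ((zi m i : Fin (2 * m + 2)) : ℕ) := by
      simp only [zi]
      omega
    have h2 : w (zi m i) = ⟨x (zi m i) / x (zi m 0), hmem i hi⟩ := dif_pos h1
    rw [h2]
  let v : Fin (r + 1) → Fin (2 * m + 2) → K := fun l i =>
    (if i = zi m (ι l) then 1 else 0) + (if l = 0 then w i else 0)
  have hvy : ∀ l i, v l (yi m i) = 0 := by
    intro l i
    change (if yi m i = zi m (ι l) then (1 : K) else 0) + (if l = 0 then w (yi m i) else 0) = 0
    rw [if_neg (yi_ne_zi i _), hwy, ite_self, add_zero]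
  have hvz : ∀ l k, v l (zi m (ι k)) = if l = k then 1 else 0 := by
    intro l k
    change (if zi m (ι k) = zi m (ι l) then (1 : K) else 0) +
      (if l = 0 then w (zi m (ι k)) else 0) = _
    rw [hwz (ι k) (Nat.lt_succ_iff.1 k.2), ite_self, add_zero]
    by_cases h : l = k
    · rw [if_pos h, if_pos (by rw [h])]
    · rw [if_neg h, if_neg]
      intro h1
      have h2 := congrArg Fin.val (zi_inj h1)
      exact h (Fin.ext h2.symm)
  have hvz' : ∀ l (i : Fin (m + 1)), r < (i : ℕ) → v l (zi m i) = if l = 0 then w (zi m i) else 0 := by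
    intro l i hi
    change (if zi m i = zi m (ι l) then (1 : K) else 0) + (if l = 0 then w (zi m i) else 0) = _
    rw [if_neg, zero_add]
    intro h1
    have h2 := congrArg Fin.val (zi_inj h1)
    have h3 := l.2
    change (i : ℕ) = (l : ℕ) at h2
    omega
  let t : Fin (r + 1) → M := fun l => x (zi m (ι l))
  have hι0 : ι 0 = 0 := Fin.ext rfl
  refine ⟨M, inferInstance, inferInstance, x, cz x, ⟨hG, hodd⟩,
    ⟨K, v, t, trdeg_adjoin_le ρ u, ?_, ?_, ?_, ?_⟩, ?_, ?_, ?_⟩
  · rw [Fintype.linearIndependent_iff]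
    intro g hg k
    have h1 := congrFun hg (zi m (ι k))
    rw [Finset.sum_apply, Pi.zero_apply] at h1
    simp only [Pi.smul_apply, smul_eq_mul, hvz, mul_ite, mul_one, mul_zero] at h1
    rwa [Finset.sum_ite_eq' Finset.univ k g, if_pos (Finset.mem_univ _)] at h1
  · intro a
    rw [aeval_Fs]
    refine Finset.sum_eq_zero fun i _ => ?_
    have h1 : ∑ l, a l * v l (yi m i) = 0 := Finset.sum_eq_zero fun l _ => by rw [hvy, mul_zero]
    rw [h1]
    ring
  · intro h
    have h1 := congrFun h (zi m 0)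
    rw [cz_z] at h1
    exact h0 h1
  · intro i
    rcases yz_cases i with ⟨j, rfl⟩ | ⟨j, rfl⟩
    · rw [cz_y]
      symm
      refine Finset.sum_eq_zero fun l _ => ?_
      rw [hvy]
      change t l * ((0 : K) : M) = 0
      rw [ZeroMemClass.coe_zero, mul_zero]
    · rw [cz_z]
      by_cases hj : (j : ℕ) ≤ r
      · obtain ⟨k, rfl⟩ : ∃ k, j = ι k := ⟨⟨j, by omega⟩, Fin.ext rfl⟩
        rw [Finset.sum_eq_single k]
        · rw [hvz, if_pos rfl, OneMemClass.coe_one, mul_one]
        · intro l _ hl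
          rw [hvz, if_neg hl, ZeroMemClass.coe_zero, mul_zero]
        · intro h
          exact absurd (Finset.mem_univ _) h
      · rw [not_le] at hj
        rw [Finset.sum_eq_single 0]
        · rw [hvz' 0 j hj, if_pos rfl, hwz' j hj]
          change _ = x (zi m (ι 0)) * _
          rw [hι0, mul_div_cancel₀]
          exact h0
        · intro l _ hl
          rw [hvz' l j hj, if_neg hl, ZeroMemClass.coe_zero, mul_zero]
        · intro h
          exact absurd (Finset.mem_univ _) h
  · intro h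
    have h1 := congrFun h (yi m 0)
    rw [cz_y, sub_zero] at h1
    exact coord_ne x hG _ h1
  · rw [aeval_Fs]
    refine Finset.sum_eq_zero fun i _ => ?_
    rw [cz_y, cz_z]
    ring
  · intro h
    refine not_dvd_X m (zi m 0) (h.2 1 (X (zi m 0)) (isHomogeneous_X _ _) ?_)
    rw [aeval_X, cz_z, sub_self]

end

end Pool.Agent.K9h4.RH
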